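import Pool.Agent.X135.PL.Slow

/-!
A cluster of large diameter with a small outer perimeter has a fast interface.
-/

set_option autoImplicit false

namespace Pool.Agent.X135.PL

open H974 Finset H342P H984P H984N Pool.Agent.Y985.ME Pool.Agent.Y884.ME

/-- before the first time far away the states of an orbit are different -/
theorem orb_inj {F : Set Edg} {σ : St} {m : ℤ} {T : ℕ} (hT : m ≤ sd σ.1 (orb F σ T).1)
    (hmin : ∀ t < T, ¬ m ≤ sd σ.1 (orb F σ t).1) :
    Set.InjOn (fun t => orb F σ t) (↑(range T) : Set ℕ) := by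
  have key : ∀ i j : ℕ, i < j → j < T → orb F σ i ≠ orb F σ j := by
    intro i j hij hj he
    have h1 : orb F σ (T - j + i) = orb F σ T := by
      rw [orb_add, he, ← orb_add, Nat.sub_add_cancel hj.le]
    exact hmin (T - j + i) (by omega) (by rw [h1]; exact hT)
  intro i hi j hj he
  rw [Finset.mem_coe, Finset.mem_range] at hi hj
  rcases lt_trichotomy i j with h | h | h
  · exact absurd he (key i j h hj)
  · exact h
  · exact absurd he.symm (key j i h hi)

open Classical in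
/-- the number of pairs is at least the first time far away -/
theorem le_nc4 {n : ℕ} {F : Set Edg} {σ : St} {m : ℤ} {T : ℕ}
    (hbox : ∀ s, inR 0 n 0 n (orb F σ s).1) (hT : m ≤ sd σ.1 (orb F σ T).1)
    (hmin : ∀ t < T, ¬ m ≤ sd σ.1 (orb F σ t).1) : T ≤ nc4 σ F (Bx 0 0 n) := by
  rw [p16_nc4]
  have h1 : ((range T).image (fun t => orb F σ t)).card = T := by
    rw [Finset.card_image_of_injOn (orb_inj hT hmin), Finset.card_range]
  refine le_of_eq_of_le h1.symm (Finset.card_le_card ?_)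
  intro τ hτ
  rw [Finset.mem_image] at hτ
  obtain ⟨t, -, rfl⟩ := hτ
  rw [Finset.mem_filter, Finset.mem_product]
  refine ⟨⟨?_, Finset.mem_univ _⟩, pb_reach F σ t, pb_dreach F σ t⟩
  have := hbox t
  unfold inR at this
  unfold Bx
  rw [Finset.mem_product, Finset.mem_Icc, Finset.mem_Icc]
  omega

/-- The outer interface of a cluster of large diameter. -/
theorem per_fast {n : ℕ} {F : Finset Edg} (hF : F ⊆ RE 0 n 0 n) {m : ℤ} (hm0 : 1 ≤ m)
    {v a b : Vtx} (ha : Reach (↑F) v a) (hb : Reach (↑F) v b) (h8 : 8 * m ^ 2 ≤ dsq a b) :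
    FastO n m (8 * per n (↑F) v) F := by
  classical
  have hab : 2 * m ≤ |a.1 - b.1| ∨ 2 * m ≤ |a.2 - b.2| := by
    by_contra hcon
    push Not at hcon
    obtain ⟨h3, h4⟩ := hcon
    unfold dsq at h8
    have h5 : (a.1 - b.1) ^ 2 < (2 * m) ^ 2 := sq_lt_sq' (by linarith [(abs_lt.1 h3).1]) (abs_lt.1 h3).2
    have h6 : (a.2 - b.2) ^ 2 < (2 * m) ^ 2 := sq_lt_sq' (by linarith [(abs_lt.1 h4).1]) (abs_lt.1 h4).2
    nlinarith
  have hane : a ≠ b := by
    rintro rfl
    simp only [sub_self, abs_zero] at hab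
    omega
  -- every vertex of the cluster is in the box
  have hex : ∃ w, w ≠ v ∧ Reach (↑F : Set Edg) v w := by
    by_cases h3 : a = v
    · exact ⟨b, fun h4 => hane (h3.trans h4.symm), hb⟩
    · exact ⟨a, h3, ha⟩
  have hbox : ∀ w, Reach (↑F : Set Edg) v w → inR 0 n 0 n w := by
    intro w hw
    by_cases h3 : v = w
    · subst h3
      obtain ⟨w', h4, h5⟩ := hex
      exact pb_box hF h5.symm h4
    · exact pb_box hF hw h3
  -- a leftmost vertex
  obtain ⟨vL, hvL, hleft⟩ : ∃ vL, Reach (↑F : Set Edg) v vL ∧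
      ∀ w, Reach (↑F : Set Edg) v w → vL.1 ≤ w.1 := by
    have hne : ∃ k : ℕ, ∃ w, Reach (↑F : Set Edg) v w ∧ w.1 = k := by
      have h3 := hbox v (Reach.refl _ _)
      unfold inR at h3
      exact ⟨v.1.toNat, v, Reach.refl _ _, by omega⟩
    obtain ⟨w, hw, hwk⟩ := Nat.find_spec hne
    refine ⟨w, hw, fun w' hw' => ?_⟩
    have h3 := hbox w' hw'
    unfold inR at h3
    have h4 : Nat.find hne ≤ w'.1.toNat := Nat.find_min' hne ⟨w', hw', by omega⟩
    omega
  set σ : St := (vL, .nw) with hσ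
  have hleft' : ∀ w, Reach (↑F : Set Edg) σ.1 w → σ.1.1 ≤ w.1 := by
    intro w hw
    exact hleft w (hvL.trans hw)
  have horb : ∀ s, Reach (↑F : Set Edg) v (orb (↑F) σ s).1 := fun s =>
    hvL.trans (pb_reach (↑F) σ s)
  have hextA := orb_extent (F := F) (σ := σ) rfl hleft' (hvL.symm.trans ha)
  have hextB := orb_extent (F := F) (σ := σ) rfl hleft' (hvL.symm.trans hb)
  -- two far apart states
  obtain ⟨t1, t2, hfar⟩ : ∃ t1 t2 : ℕ,
      (2 * m ≤ |(orb (↑F) σ t1).1.1 - (orb (↑F) σ t2).1.1| ∨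
        2 * m ≤ |(orb (↑F) σ t1).1.2 - (orb (↑F) σ t2).1.2|) := by
    obtain ⟨⟨ta, hta⟩, ⟨ta2, hta2⟩, ⟨ta3, hta3⟩⟩ := hextA
    obtain ⟨⟨tb, htb⟩, ⟨tb2, htb2⟩, ⟨tb3, htb3⟩⟩ := hextB
    have hla := hleft a ha
    have hlb := hleft b hb
    have h0 : (orb (↑F) σ 0).1.1 = vL.1 := rfl
    rcases hab with h3 | h3
    · rcases abs_cases (a.1 - b.1) with ⟨h4, h5⟩ | ⟨h4, h5⟩
      · refine ⟨ta, 0, Or.inl ?_⟩
        rw [h0]
        have := le_abs_self ((orb (↑F) σ ta).1.1 - vL.1)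
        omega
      · refine ⟨tb, 0, Or.inl ?_⟩
        rw [h0]
        have := le_abs_self ((orb (↑F) σ tb).1.1 - vL.1)
        omega
    · rcases abs_cases (a.2 - b.2) with ⟨h4, h5⟩ | ⟨h4, h5⟩
      · refine ⟨ta2, tb3, Or.inr ?_⟩
        have := le_abs_self ((orb (↑F) σ ta2).1.2 - (orb (↑F) σ tb3).1.2)
        omega
      · refine ⟨tb2, ta3, Or.inr ?_⟩
        have := le_abs_self ((orb (↑F) σ tb2).1.2 - (orb (↑F) σ ta3).1.2)
        omega
  have hsd : 2 * m ≤ sd (orb (↑F) σ t1).1 (orb (↑F) σ t2).1 := by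
    unfold sd
    rcases hfar with h | h
    · exact h.trans (le_max_left _ _)
    · exact h.trans (le_max_right _ _)
  have hexT : ∃ T, m ≤ sd σ.1 (orb (↑F : Set Edg) σ T).1 := by
    have htri := det_sd_tri (orb (↑F) σ t1).1 σ.1 (orb (↑F) σ t2).1
    rw [det_sd_comm (orb (↑F) σ t1).1 σ.1] at htri
    by_contra hcon
    push Not at hcon
    have h1 := hcon t1
    have h2 := hcon t2
    omega
  have hboxσ : ∀ s, inR 0 n 0 n (orb (↑F : Set Edg) σ s).1 := fun s => hbox _ (horb s)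
  have hTs := Nat.find_spec hexT
  have hTm : ∀ t < Nat.find hexT, ¬ m ≤ sd σ.1 (orb (↑F : Set Edg) σ t).1 :=
    fun t ht => Nat.find_min hexT ht
  have hnc := le_nc4 hboxσ hTs hTm
  have hvLbox := hbox vL hvL
  unfold inR at hvLbox
  have hout := outer_left hF (σ := σ) rfl hleft' hvLbox.1.1 hvLbox.2.1
  have hEC : EC (↑F : Set Edg) v = EC (↑F) vL := by
    unfold EC
    ext e
    constructor
    · rintro ⟨he, h3⟩
      exact ⟨he, hvL.symm.trans h3⟩
    · rintro ⟨he, h3⟩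
      exact ⟨he, hvL.trans h3⟩
  have hout' : Outer (↑F) v (face σ) := by
    unfold Outer at hout ⊢
    rw [hEC]
    exact hout
  have hfin := per_ge hF (v := v) (σ := σ) hvL hout' hex
  exact ⟨σ, hboxσ, Nat.find hexT, hnc.trans hfin, hTs⟩

/-- the interface moves by at most one in one step -/
theorem orb_le (F : Set Edg) (σ : St) (t : ℕ) : sd σ.1 (orb F σ t).1 ≤ t := by
  induction t with
  | zero => simp [det_sd_self]
  | succ t ih =>
    have h1 := det_sd_tri σ.1 (orb F σ t).1 (orb F σ (t + 1)).1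
    have h2 := orb_step F σ t
    push_cast
    omega

theorem fastO_le {n : ℕ} {m : ℤ} {N : ℕ} {F : Finset Edg} (h : FastO n m N F) : m ≤ N := by
  obtain ⟨σ, -, t, ht, h1⟩ := h
  have := orb_le (↑F : Set Edg) σ t
  omega

theorem fastO_mono {n : ℕ} {m : ℤ} {N N' : ℕ} (hN : N ≤ N') {F : Finset Edg}
    (h : FastO n m N F) : FastO n m N' F := by
  obtain ⟨σ, hb, t, ht, h1⟩ := h
  exact ⟨σ, hb, t, ht.trans hN, h1⟩

/-- a cluster with two vertices has a positive perimeter -/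
theorem per_pos {n : ℕ} {F : Finset Edg} (hF : F ⊆ RE 0 n 0 n) {v a b : Vtx}
    (ha : Reach (↑F) v a) (hb : Reach (↑F) v b) (hab : a ≠ b) : 1 ≤ per n (↑F) v := by
  classical
  have hex : ∃ w, w ≠ v ∧ Reach (↑F : Set Edg) v w := by
    by_cases h3 : a = v
    · exact ⟨b, fun h4 => hab (h3.trans h4.symm), hb⟩
    · exact ⟨a, h3, ha⟩
  have hbox : ∀ w, Reach (↑F : Set Edg) v w → inR 0 n 0 n w := by
    intro w hw
    by_cases h3 : v = w
    · subst h3
      obtain ⟨w', h4, h5⟩ := hex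
      exact pb_box hF h5.symm h4
    · exact pb_box hF hw h3
  obtain ⟨vL, hvL, hleft⟩ : ∃ vL, Reach (↑F : Set Edg) v vL ∧
      ∀ w, Reach (↑F : Set Edg) v w → vL.1 ≤ w.1 := by
    have hne : ∃ k : ℕ, ∃ w, Reach (↑F : Set Edg) v w ∧ w.1 = k := by
      have h3 := hbox v (Reach.refl _ _)
      unfold inR at h3
      exact ⟨v.1.toNat, v, Reach.refl _ _, by omega⟩
    obtain ⟨w, hw, hwk⟩ := Nat.find_spec hne
    refine ⟨w, hw, fun w' hw' => ?_⟩
    have h3 := hbox w' hw'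
    unfold inR at h3
    have h4 : Nat.find hne ≤ w'.1.toNat := Nat.find_min' hne ⟨w', hw', by omega⟩
    omega
  set σ : St := (vL, .nw) with hσ
  have hleft' : ∀ w, Reach (↑F : Set Edg) σ.1 w → σ.1.1 ≤ w.1 := by
    intro w hw
    exact hleft w (hvL.trans hw)
  have hvLbox := hbox vL hvL
  unfold inR at hvLbox
  have hout := outer_left hF (σ := σ) rfl hleft' hvLbox.1.1 hvLbox.2.1
  have hEC : EC (↑F : Set Edg) v = EC (↑F) vL := by
    unfold EC
    ext e
    constructor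
    · rintro ⟨he, h3⟩
      exact ⟨he, hvL.symm.trans h3⟩
    · rintro ⟨he, h3⟩
      exact ⟨he, hvL.trans h3⟩
  have hout' : Outer (↑F) v (face σ) := by
    unfold Outer at hout ⊢
    rw [hEC]
    exact hout
  have hfin := per_ge hF (v := v) (σ := σ) hvL hout' hex
  have h1 : 1 ≤ nc4 σ (↑F : Set Edg) (Bx 0 0 n) := by
    rw [p16_nc4, Nat.one_le_iff_ne_zero, ← Nat.pos_iff_ne_zero, Finset.card_pos]
    refine ⟨σ, ?_⟩
    rw [Finset.mem_filter, Finset.mem_product]
    refine ⟨⟨?_, Finset.mem_univ _⟩, Reach.refl _ _, DReach.refl _ _⟩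
    have hσ1 : σ.1 = vL := rfl
    unfold Bx
    rw [Finset.mem_product, Finset.mem_Icc, Finset.mem_Icc, hσ1]
    omega
  omega

end Pool.Agent.X135.PL
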