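import Pool.Agent.Y244.PC.Conf
import Pool.Agent.H342R2.Per.Upper

/-!
A thin tube: closed surroundings, an open crossing, and the decoupling of a small ball.
-/

set_option autoImplicit false

namespace Pool.Agent.X135.PL

open H974 Finset H342P Pool.Agent.Y244.PC

theorem hok : Ok (fun _ : Edg => (1/2:ℝ)) := fun _ => ⟨by norm_num, by norm_num⟩

/-- a path either avoids `B` or meets an edge of `B` -/
theorem path_ball {G B : Set Edg} {z w : Vtx} (h : Reach G z w) :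
    Reach (G \ B) z w ∨ ∃ e ∈ G ∩ B, Reach G z (src e) := by
  induction h with
  | refl => exact Or.inl (Reach.refl _ _)
  | @tail w0 w1 h0 hs ih =>
    rcases ih with ih | ih
    · obtain ⟨e, he, hc⟩ := hs
      by_cases hB : e ∈ B
      · right
        refine ⟨e, ⟨he, hB⟩, ?_⟩
        rcases hc with ⟨h1, -⟩ | ⟨h1, h2⟩
        · rw [h1]; exact h0
        · rw [h1]; exact Relation.ReflTransGen.tail h0 ⟨e, he, Or.inr ⟨h1, h2⟩⟩
      · left
        exact Relation.ReflTransGen.tail ih ⟨e, ⟨he, hB⟩, hc⟩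
    · exact Or.inr ih

/-- no open crossing of the annulus of radii `a`, `2 a` around `u` -/
def NC (u : Vtx) (a : ℤ) (F : Finset Edg) : Prop :=
  (¬ LRc (u.1 + a) (u.1 + 2 * a) (u.2 - 2 * a) (u.2 + 2 * a) F ∧
    ¬ LRc (u.1 - 2 * a) (u.1 - a) (u.2 - 2 * a) (u.2 + 2 * a) F) ∧
  (¬ TBc (u.1 - 2 * a) (u.1 + 2 * a) (u.2 + a) (u.2 + 2 * a) F ∧
    ¬ TBc (u.1 - 2 * a) (u.1 + 2 * a) (u.2 - 2 * a) (u.2 - a) F)

theorem nc_decr (S : Finset Edg) (u : Vtx) (a : ℤ) : DecrE S (NC u a) := by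
  intro F G hFG _ h h'
  apply h
  obtain ⟨⟨h1, h2⟩, h3, h4⟩ := h'
  exact ⟨⟨fun k => h1 (k.mono hFG), fun k => h2 (k.mono hFG)⟩,
    fun k => h3 (k.mono hFG), fun k => h4 (k.mono hFG)⟩

theorem nc_det {u : Vtx} {a : ℤ} (ha : 1 ≤ a) {F : Finset Edg} (h : NC u a F) {z w : Vtx}
    (hz : inR (u.1 - a) (u.1 + a) (u.2 - a) (u.2 + a) z) (hr : Reach (↑F : Set Edg) z w) :
    inR (u.1 - 2 * a) (u.1 + 2 * a) (u.2 - 2 * a) (u.2 + 2 * a) w := by
  by_contra hcon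
  unfold inR at hz hcon
  obtain ⟨w', -, hw', hr'⟩ := first_exit (a := u.1 - 2 * a) (b := u.1 + 2 * a)
    (c := u.2 - 2 * a) (d := u.2 + 2 * a) (by unfold inR; omega) hr (by omega)
  obtain ⟨⟨h1, h2⟩, h3, h4⟩ := h
  rcases hw' with h5 | h5 | h5 | h5
  · obtain ⟨y1, y2, k1, k2, k3, -⟩ := sub_LR (a := u.1 - 2 * a) (b := u.1 - a)
      (c := u.2 - 2 * a) (d := u.2 + 2 * a) (by omega)
      (by rintro x y ⟨-, h⟩ _ _; simp only [mem_coe, mem_RE_true] at h; omega)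
      (by rintro x y ⟨-, h⟩ _ _; simp only [mem_coe, mem_RE_false] at h; omega)
      hr'.symm (by omega) (by omega)
    refine h2 ⟨y1, y2, k1, k2, k3.mono ?_⟩
    rintro e ⟨⟨h7, -⟩, h8⟩
    exact ⟨h7, h8⟩
  · obtain ⟨y1, y2, k1, k2, k3, -⟩ := sub_LR (a := u.1 + a) (b := u.1 + 2 * a)
      (c := u.2 - 2 * a) (d := u.2 + 2 * a) (by omega)
      (by rintro x y ⟨-, h⟩ _ _; simp only [mem_coe, mem_RE_true] at h; omega)
      (by rintro x y ⟨-, h⟩ _ _; simp only [mem_coe, mem_RE_false] at h; omega)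
      hr' (by omega) (by omega)
    refine h1 ⟨y1, y2, k1, k2, k3.mono ?_⟩
    rintro e ⟨⟨h7, -⟩, h8⟩
    exact ⟨h7, h8⟩
  · obtain ⟨y1, y2, k1, k2, k3, -⟩ := sub_TB (a := u.1 - 2 * a) (b := u.1 + 2 * a)
      (c := u.2 - 2 * a) (d := u.2 - a) (by omega)
      (by rintro x y ⟨-, h⟩ _ _; simp only [mem_coe, mem_RE_false] at h; omega)
      (by rintro x y ⟨-, h⟩ _ _; simp only [mem_coe, mem_RE_true] at h; omega)
      hr'.symm (by omega) (by omega)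
    refine h4 ⟨y1, y2, k1, k2, k3.mono ?_⟩
    rintro e ⟨⟨h7, -⟩, h8⟩
    exact ⟨h7, h8⟩
  · obtain ⟨y1, y2, k1, k2, k3, -⟩ := sub_TB (a := u.1 - 2 * a) (b := u.1 + 2 * a)
      (c := u.2 + a) (d := u.2 + 2 * a) (by omega)
      (by rintro x y ⟨-, h⟩ _ _; simp only [mem_coe, mem_RE_false] at h; omega)
      (by rintro x y ⟨-, h⟩ _ _; simp only [mem_coe, mem_RE_true] at h; omega)
      hr' (by omega) (by omega)
    refine h3 ⟨y1, y2, k1, k2, k3.mono ?_⟩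
    rintro e ⟨⟨h7, -⟩, h8⟩
    exact ⟨h7, h8⟩

/-- the constant of `NC` -/
noncomputable def kN : ℝ := (1 / 2) ^ 1316

theorem kN_pos : 0 < kN := by unfold kN; positivity

theorem nc_pr {u : Vtx} {a : ℤ} (ha : 3 ≤ a) {S : Finset Edg}
    (hS : RE (u.1 - 2 * a) (u.1 + 2 * a) (u.2 - 2 * a) (u.2 + 2 * a) ⊆ S) :
    kN ≤ Pr (fun _ => (1/2:ℝ)) S (NC u a) := by
  have hh0 : (1 / 2 : ℝ) ^ 329 ≤ 1 - hh (1 / 2) a (4 * a) := by
    have h := no_cross (m := (a - 1) / 2) (by omega) 2 (w := a) (h := 4 * a) (by omega)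
      (by omega) (by push_cast; omega)
    exact h
  have d1 : ∀ x1 x2 y1 y2 : ℤ, DecrE S (fun F => ¬ LRc x1 x2 y1 y2 F) :=
    fun x1 x2 y1 y2 => decr_not (LRc_incr _ _ _ _ _)
  have d2 : ∀ x1 x2 y1 y2 : ℤ, DecrE S (fun F => ¬ TBc x1 x2 y1 y2 F) :=
    fun x1 x2 y1 y2 => decr_not (TBc_incr _ _ _ _ _)
  have hand : ∀ {A B : Finset Edg → Prop}, DecrE S A → DecrE S B →
      DecrE S (fun F => A F ∧ B F) := by
    intro A B hA hB F G hFG hG h h'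
    apply h
    constructor
    · by_contra h4
      exact hA F G hFG hG h4 h'.1
    · by_contra h4
      exact hB F G hFG hG h4 h'.2
  have p1 : (1 / 2 : ℝ) ^ 329 ≤ Pr (fun _ => (1/2:ℝ)) S
      (fun F => ¬ LRc (u.1 + a) (u.1 + 2 * a) (u.2 - 2 * a) (u.2 + 2 * a) F) := by
    rw [Pr_not, pr_LRc]
    · have e1 : u.1 + 2 * a - (u.1 + a) = a := by ring
      have e2 : u.2 + 2 * a - (u.2 - 2 * a) = 4 * a := by ring
      rw [e1, e2]
      exact hh0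
    · refine Finset.Subset.trans ?_ hS
      rintro ⟨x, y, _ | _⟩ h
      · rw [mem_LRE_false] at h
        rw [mem_RE_false]; omega
      · rw [mem_LRE_true] at h
        rw [mem_RE_true]; omega
  have p2 : (1 / 2 : ℝ) ^ 329 ≤ Pr (fun _ => (1/2:ℝ)) S
      (fun F => ¬ LRc (u.1 - 2 * a) (u.1 - a) (u.2 - 2 * a) (u.2 + 2 * a) F) := by
    rw [Pr_not, pr_LRc]
    · have e1 : u.1 - a - (u.1 - 2 * a) = a := by ring
      have e2 : u.2 + 2 * a - (u.2 - 2 * a) = 4 * a := by ring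
      rw [e1, e2]
      exact hh0
    · refine Finset.Subset.trans ?_ hS
      rintro ⟨x, y, _ | _⟩ h
      · rw [mem_LRE_false] at h
        rw [mem_RE_false]; omega
      · rw [mem_LRE_true] at h
        rw [mem_RE_true]; omega
  have p3 : (1 / 2 : ℝ) ^ 329 ≤ Pr (fun _ => (1/2:ℝ)) S
      (fun F => ¬ TBc (u.1 - 2 * a) (u.1 + 2 * a) (u.2 + a) (u.2 + 2 * a) F) := by
    rw [Pr_not, pr_TBc]
    · have e1 : u.2 + 2 * a - (u.2 + a) = a := by ring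
      have e2 : u.1 + 2 * a - (u.1 - 2 * a) = 4 * a := by ring
      rw [e1, e2]
      exact hh0
    · refine Finset.Subset.trans ?_ hS
      rintro ⟨x, y, _ | _⟩ h
      · rw [mem_TBE_false] at h
        rw [mem_RE_false]; omega
      · rw [mem_TBE_true] at h
        rw [mem_RE_true]; omega
  have p4 : (1 / 2 : ℝ) ^ 329 ≤ Pr (fun _ => (1/2:ℝ)) S
      (fun F => ¬ TBc (u.1 - 2 * a) (u.1 + 2 * a) (u.2 - 2 * a) (u.2 - a) F) := by
    rw [Pr_not, pr_TBc]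
    · have e1 : u.2 - a - (u.2 - 2 * a) = a := by ring
      have e2 : u.1 + 2 * a - (u.1 - 2 * a) = 4 * a := by ring
      rw [e1, e2]
      exact hh0
    · refine Finset.Subset.trans ?_ hS
      rintro ⟨x, y, _ | _⟩ h
      · rw [mem_TBE_false] at h
        rw [mem_RE_false]; omega
      · rw [mem_TBE_true] at h
        rw [mem_RE_true]; omega
  have q0 : (0:ℝ) ≤ (1 / 2) ^ 329 := by positivity
  have h12 := harris_dec2 hok (d1 (u.1 + a) (u.1 + 2 * a) (u.2 - 2 * a) (u.2 + 2 * a))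
    (d1 (u.1 - 2 * a) (u.1 - a) (u.2 - 2 * a) (u.2 + 2 * a))
  have h34 := harris_dec2 hok (d2 (u.1 - 2 * a) (u.1 + 2 * a) (u.2 + a) (u.2 + 2 * a))
    (d2 (u.1 - 2 * a) (u.1 + 2 * a) (u.2 - 2 * a) (u.2 - a))
  have h1234 := harris_dec2 hok
    (hand (d1 (u.1 + a) (u.1 + 2 * a) (u.2 - 2 * a) (u.2 + 2 * a))
      (d1 (u.1 - 2 * a) (u.1 - a) (u.2 - 2 * a) (u.2 + 2 * a)))
    (hand (d2 (u.1 - 2 * a) (u.1 + 2 * a) (u.2 + a) (u.2 + 2 * a))
      (d2 (u.1 - 2 * a) (u.1 + 2 * a) (u.2 - 2 * a) (u.2 - a)))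
  have k12 := (mul_le_mul p1 p2 q0 (q0.trans p1)).trans h12
  have k34 := (mul_le_mul p3 p4 q0 (q0.trans p3)).trans h34
  have k := (mul_le_mul k12 k34 (mul_nonneg q0 q0) ((mul_nonneg q0 q0).trans k12)).trans h1234
  refine le_trans (le_of_eq ?_) k
  unfold kN
  rw [← pow_add, ← pow_add]

/-- Decoupling of a ball: `A` depends on the edges of `B`; `E` is decreasing and depends on the
edges which are not in `T`, `H j` is increasing and depends on the edges of `T`. -/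
theorem decouple {ι : Type} [DecidableEq ι] {U T B : Finset Edg} (hT : T ⊆ U) (hB : B ⊆ U)
    {A E E' : Finset Edg → Prop} {I J : Finset ι} (hJ : J ⊆ I) {H : ι → Finset Edg → Prop}
    {k c : ℝ} (hk : 0 < k) (hc : 0 < c) (hc1 : c ≤ 1) {r : ℕ} (hr : (I \ J).card ≤ r)
    (hA : ∀ F, F ⊆ U → (A F ↔ A (F ∩ B))) (hEE : ∀ F, F ⊆ U → E F → E' F)
    (hE' : ∀ F, F ⊆ U → (E' F ↔ E' (F ∩ ((U \ T) \ B))))
    (hE : ∀ F, F ⊆ U → (E F ↔ E (F ∩ (U \ T))))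
    (hEk : k * Pr (fun _ => (1/2:ℝ)) U E' ≤ Pr (fun _ => (1/2:ℝ)) U E)
    (hHi : ∀ j ∈ I, IncrE U (H j)) (hHT : ∀ j ∈ I, ∀ F, F ⊆ U → (H j F ↔ H j (F ∩ T)))
    (hHJ : ∀ j ∈ J, ∀ F, F ⊆ U → (H j F ↔ H j (F ∩ (T \ B))))
    (hHc : ∀ j ∈ I, c ≤ Pr (fun _ => (1/2:ℝ)) U (H j)) :
    k * c ^ r * Pr (fun _ => (1/2:ℝ)) U (fun F => A F ∧ (E F ∧ ∀ j ∈ I, H j F)) ≤
      Pr (fun _ => (1/2:ℝ)) U A * Pr (fun _ => (1/2:ℝ)) U (fun F => E F ∧ ∀ j ∈ I, H j F) := by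
  obtain ⟨Q, hQ⟩ : ∃ Q : (Finset Edg → Prop) → ℝ, Q = fun X => Pr (fun _ => (1/2:ℝ)) U X :=
    ⟨_, rfl⟩
  have hQ0 : ∀ X, 0 ≤ Q X := fun X => by rw [hQ]; exact Pr_nonneg hok _ _
  -- first step
  have s1 : Q (fun F => A F ∧ (E F ∧ ∀ j ∈ I, H j F)) ≤
      Q (fun F => A F ∧ (E' F ∧ ∀ j ∈ J, H j F)) := by
    rw [hQ]
    refine Pr_mono hok ?_
    rintro F hF ⟨h1, h2, h3⟩
    exact ⟨h1, hEE F hF h2, fun j hj => h3 j (hJ hj)⟩
  have hfar : ∀ F, F ⊆ U → ((∀ j ∈ J, H j F) ↔ ∀ j ∈ J, H j (F ∩ (T \ B))) := fun F hF =>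
    forall₂_congr fun j hj => hHJ j hj F hF
  -- independence
  have s2 : Q (fun F => A F ∧ (E' F ∧ ∀ j ∈ J, H j F)) =
      Q A * Q (fun F => E' F ∧ ∀ j ∈ J, H j F) := by
    rw [hQ]
    refine Pr_indep (T := U \ B) hB Finset.sdiff_subset Finset.disjoint_sdiff hA ?_
    intro F hF
    have e1 : F ∩ (U \ B) ∩ ((U \ T) \ B) = F ∩ ((U \ T) \ B) := by
      ext x; simp only [Finset.mem_inter, Finset.mem_sdiff]; tauto
    have e2 : F ∩ (U \ B) ∩ (T \ B) = F ∩ (T \ B) := by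
      ext x; simp only [Finset.mem_inter, Finset.mem_sdiff]
      constructor
      · rintro ⟨⟨h1, -⟩, h2⟩; exact ⟨h1, h2⟩
      · rintro ⟨h1, h2⟩; exact ⟨⟨h1, hT h2.1, h2.2⟩, h2⟩
    rw [hE' F hF, hfar F hF, hE' (F ∩ (U \ B)) (Finset.inter_subset_left.trans hF),
      hfar (F ∩ (U \ B)) (Finset.inter_subset_left.trans hF), e1, e2]
  have s3 : Q (fun F => E' F ∧ ∀ j ∈ J, H j F) = Q E' * Q (fun F => ∀ j ∈ J, H j F) := by
    rw [hQ]
    refine Pr_indep (S := (U \ T) \ B) (T := T \ B)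
      (Finset.sdiff_subset.trans Finset.sdiff_subset) (Finset.sdiff_subset.trans hT) ?_ hE' hfar
    rw [Finset.disjoint_left]
    intro x hx hx2
    rw [Finset.mem_sdiff, Finset.mem_sdiff] at hx
    exact hx.1.2 (Finset.mem_sdiff.mp hx2).1
  have s4 : Q (fun F => E F ∧ ∀ j ∈ I, H j F) = Q E * Q (fun F => ∀ j ∈ I, H j F) := by
    rw [hQ]
    refine Pr_indep (S := U \ T) (T := T) Finset.sdiff_subset hT Finset.sdiff_disjoint hE ?_
    intro F hF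
    exact forall₂_congr fun j hj => hHT j hj F hF
  -- the near events
  have s5 : c ^ r * Q (fun F => ∀ j ∈ J, H j F) ≤ Q (fun F => ∀ j ∈ I, H j F) := by
    have hall : ∀ K : Finset ι, K ⊆ I → IncrE U (fun F => ∀ j ∈ K, H j F) := by
      intro K hK F G hFG hG h j hj
      exact hHi j (hK hj) F G hFG hG (h j hj)
    have f1 := fkg_incr hok (S := U) (I \ J) H (fun j hj => hHi j (Finset.mem_sdiff.mp hj).1)
    have f2 := (pow_card_le_prod (I \ J) (fun j => Pr (fun _ => (1/2:ℝ)) U (H j)) hc.le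
      (fun j hj => hHc j (Finset.mem_sdiff.mp hj).1)).trans f1
    have f3 : c ^ r ≤ Pr (fun _ => (1/2:ℝ)) U (fun F => ∀ j ∈ I \ J, H j F) :=
      (pow_le_pow_of_le_one hc.le hc1 hr).trans f2
    have f4 := Pr_harris hok (hall (I \ J) Finset.sdiff_subset) (hall J hJ)
    have f5 : Pr (fun _ => (1/2:ℝ)) U (fun F => (∀ j ∈ I \ J, H j F) ∧ ∀ j ∈ J, H j F) ≤
        Pr (fun _ => (1/2:ℝ)) U (fun F => ∀ j ∈ I, H j F) := by
      refine Pr_mono hok ?_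
      rintro F _ ⟨h1, h2⟩ j hj
      by_cases hjJ : j ∈ J
      · exact h2 j hjJ
      · exact h1 j (Finset.mem_sdiff.mpr ⟨hj, hjJ⟩)
    have f6 : c ^ r * Q (fun F => ∀ j ∈ J, H j F) ≤
        Pr (fun _ => (1/2:ℝ)) U (fun F => ∀ j ∈ I \ J, H j F) *
        Pr (fun _ => (1/2:ℝ)) U (fun F => ∀ j ∈ J, H j F) := by
      rw [hQ]
      exact mul_le_mul_of_nonneg_right f3 (Pr_nonneg hok _ _)
    refine f6.trans (f4.trans ?_)
    rw [hQ]
    exact f5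
  have s6 : k * Q E' ≤ Q E := by rw [hQ]; exact hEk
  have hcr : 0 ≤ c ^ r := by positivity
  have goal : k * c ^ r * Q (fun F => A F ∧ (E F ∧ ∀ j ∈ I, H j F)) ≤
      Q A * Q (fun F => E F ∧ ∀ j ∈ I, H j F) := by
    calc k * c ^ r * Q (fun F => A F ∧ (E F ∧ ∀ j ∈ I, H j F))
        ≤ k * c ^ r * (Q A * (Q E' * Q (fun F => ∀ j ∈ J, H j F))) := by
          rw [← s3, ← s2]
          exact mul_le_mul_of_nonneg_left s1 (by positivity)
      _ = Q A * ((k * Q E') * (c ^ r * Q (fun F => ∀ j ∈ J, H j F))) := by ring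
      _ ≤ Q A * (Q E * Q (fun F => ∀ j ∈ I, H j F)) := by
          refine mul_le_mul_of_nonneg_left ?_ (hQ0 _)
          exact mul_le_mul s6 s5 (mul_nonneg hcr (hQ0 _)) (hQ0 _)
      _ = _ := by rw [s4]
  rw [hQ] at goal
  exact goal

end Pool.Agent.X135.PL
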