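import Pool.Agent.X135.PL.Slow
import Pool.Agent.Y985.ME.Top

/-!
Slow interfaces in the box: the bad events of the blocks have small probability (adapted from
`Pool.Agent.Y991.ME.BadPr`).
-/

set_option autoImplicit false

namespace Pool.Agent.X135.PL

open H974 Finset H342P H984P H984N Pool.Agent.Y985.ME
open Pool.Agent.Y991.ME (Lam_sub badB_pr ratio Pr_false)

theorem half_ok : Ok (fun _ : Edg => (1/2:ℝ)) := fun _ => ⟨by norm_num, by norm_num⟩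

/-- The sides of the region of a block. -/
theorem sides {N : ℕ} {W : ℤ} (hW1 : 1 ≤ W) (hr : 8 * W ≤ N) {q : Vtx} (hq : q ∈ Bks (Dn N) W) :
    (2 * W ≤ min (Dn N).r (q.1 * W + 3 * W) - max (Dn N).l (q.1 * W - 2 * W) ∧
      min (Dn N).r (q.1 * W + 3 * W) - max (Dn N).l (q.1 * W - 2 * W) ≤ 5 * W) ∧
    (2 * W ≤ min (Dn N).h (q.2 * W + 3 * W) - max 0 (q.2 * W - 2 * W) ∧
      min (Dn N).h (q.2 * W + 3 * W) - max 0 (q.2 * W - 2 * W) ≤ 5 * W) := by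
  unfold Bks at hq
  rw [mem_product, Finset.mem_Icc, Finset.mem_Icc] at hq
  obtain ⟨⟨q1, q2⟩, q3, q4⟩ := hq
  have e1 : (Dn N).l = 0 := rfl
  have e2 : (Dn N).r = N := rfl
  have e3 : (Dn N).h = N := rfl
  rw [e1, Int.zero_ediv] at q1
  have a1 : q.1 * W ≤ (Dn N).r := (Int.le_ediv_iff_mul_le (by omega)).mp q2
  have a2 : q.2 * W ≤ (Dn N).h := (Int.le_ediv_iff_mul_le (by omega)).mp q4
  have a3 : 0 ≤ q.2 * W := mul_nonneg q3 (by omega)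
  have a4 : 0 ≤ q.1 * W := mul_nonneg q1 (by omega)
  rw [e2] at a1
  rw [e3] at a2
  rw [e1, e2, e3]
  refine ⟨⟨?_, ?_⟩, ?_, ?_⟩ <;> omega

/-- Probability of the open path. -/
theorem badP_pr {N : ℕ} {m : ℕ} {L w W : ℤ} {n0 : ℕ} (hL : 1 ≤ L)
    (hW : W ≤ 2 * n0 * L) (hw : (20 * m + 100) * L ≤ w) (hWw : 4 * w + 1 ≤ W)
    (hr : 8 * W ≤ N) {q : Vtx} (hq : q ∈ Bks (Dn N) W) :
    P (Dn N).edges (BadP L w W (Dn N) q) ≤ 4 * (4 * (n0:ℝ) + 4) * (1/2) ^ m := by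
  have hm : (0:ℤ) ≤ m := by positivity
  have hmL : (0:ℤ) ≤ m * L := by positivity
  have hw' : 20 * ((m:ℤ) * L) + 100 * L ≤ w := by
    have : ((20 * (m:ℤ) + 100) * L) = 20 * ((m:ℤ) * L) + 100 * L := by ring
    omega
  have hmL2 : (m : ℤ) ≤ m * L := by nlinarith
  obtain ⟨⟨s1, s2⟩, s3, s4⟩ := sides (by omega) hr hq
  have e1 : P (Dn N).edges (BadP L w W (Dn N) q) = P (Lam (Dn N) W q) (BadP L w W (Dn N) q) :=
    Pr_local (Lam_sub (Dn N) W q) (fun F _ => by unfold BadP; rw [inter_assoc, inter_self])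
  rw [e1]
  have h2 := layer_rect (a := max (Dn N).l (q.1 * W - 2 * W)) (b := min (Dn N).r (q.1 * W + 3 * W))
    (c := max 0 (q.2 * W - 2 * W)) (d := min (Dn N).h (q.2 * W + 3 * W))
    (ρ := 5 * L + 2) (w := w) (m := m) (by omega) (by omega) (by omega) (by
      have : 2 * ((m:ℤ) + 3) * (5 * L + 2 + 1) + 4 * (5 * L + 2) =
        10 * ((m:ℤ) * L) + 6 * m + 50 * L + 26 := by ring
      rw [this]
      omega)
  have h3 : P (Lam (Dn N) W q) (BadP L w W (Dn N) q) ≤ P (RE (max (Dn N).l (q.1 * W - 2 * W))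
      (min (Dn N).r (q.1 * W + 3 * W)) (max 0 (q.2 * W - 2 * W)) (min (Dn N).h (q.2 * W + 3 * W)))
      (fun F => ∃ u v : Vtx, w ≤ sd u v ∧
      Reach (↑F ∩ {e | bdr (max (Dn N).l (q.1 * W - 2 * W)) (min (Dn N).r (q.1 * W + 3 * W))
        (max 0 (q.2 * W - 2 * W)) (min (Dn N).h (q.2 * W + 3 * W)) (src e) < 5 * L + 2 ∧
        bdr (max (Dn N).l (q.1 * W - 2 * W)) (min (Dn N).r (q.1 * W + 3 * W))
        (max 0 (q.2 * W - 2 * W)) (min (Dn N).h (q.2 * W + 3 * W)) (tgt e) < 5 * L + 2} :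
        Set Edg) u v) := by
    refine Pr_mono half_ok ?_
    rintro F hF ⟨u, v, huv, hr⟩
    rw [inter_eq_left.mpr hF] at hr
    exact ⟨u, v, huv, hr⟩
  refine h3.trans (h2.trans ?_)
  have h4 := ratio (n0 := n0) hL hW s2 s4
  gcongr

/-- The bad event has small probability. -/
theorem badpr {c C : ℝ} (hc : 0 < c) (hC : 0 < C) (hL : LowA c (1/4)) (hU : TwoUp C (1/4)) :
    ∀ η : ℝ, 0 < η → ∃ c s : ℝ, 0 < c ∧ 0 < s ∧
    ∀ W : ℤ, s ≤ W → ∃ R L w : ℤ, Par R L w W ∧ ∀ N : ℕ, 8 * W ≤ N →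
    ∀ q ∈ Bks (Dn N) W, P (RE 0 N 0 N) (BadX ⌈c * (W : ℝ) ^ (7/4 : ℝ)⌉₊ R L w W N q) ≤ η := by
  intro η hη
  obtain ⟨c', δ, hc', hδ, hδ1, hall⟩ := allOk_of hc hC hL hU
  obtain ⟨C1, hC1, hlow⟩ := low_steps
  -- the parameter `m`
  obtain ⟨m, hm⟩ : ∃ m : ℕ, (2560 * (m:ℝ) + 12880) * (1/2 : ℝ) ^ m ≤ η / 2 := by
    have t1 := tendsto_self_mul_const_pow_of_lt_one (r := (1/2:ℝ)) (by norm_num) (by norm_num)
    have t2 := tendsto_pow_atTop_nhds_zero_of_lt_one (r := (1/2:ℝ)) (by norm_num) (by norm_num)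
    have t3 := (t1.const_mul 2560).add (t2.const_mul 12880)
    rw [mul_zero, mul_zero, add_zero] at t3
    have t4 := (t3.eventually (gt_mem_nhds (show (0:ℝ) < η / 2 by positivity))).exists
    obtain ⟨m, hm⟩ := t4
    refine ⟨m, ?_⟩
    have : (2560 * (m:ℝ) + 12880) * (1/2 : ℝ) ^ m = 2560 * ((m:ℝ) * (1/2:ℝ) ^ m) +
      12880 * (1/2:ℝ) ^ m := by ring
    rw [this]
    exact hm.le
  obtain ⟨n0, hn0⟩ : ∃ n0 : ℕ, n0 = 80 * m + 401 := ⟨_, rfl⟩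
  -- the parameter `K`
  obtain ⟨K, hK⟩ : ∃ K : ℕ, (6 * (n0:ℝ) + 2) ^ 2 *
      (C1 * (4 * (372 * ((K + 1 : ℕ):ℝ) + 60) + 1) ^ 2 * (1 - δ) ^ K) ≤ η / 2 := by
    rcases eq_or_lt_of_le hδ1 with h1 | h1
    · refine ⟨1, ?_⟩
      rw [h1]
      simp only [sub_self, pow_one, mul_zero]
      positivity
    · have t1 := tendsto_pow_const_mul_const_pow_of_lt_one 2 (r := 1 - δ) (by linarith) (by linarith)
      have t2 := t1.const_mul ((6 * (n0:ℝ) + 2) ^ 2 * (C1 * 3458 ^ 2))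
      rw [mul_zero] at t2
      obtain ⟨K, hK1, hK2⟩ := ((t2.eventually (gt_mem_nhds
        (show (0:ℝ) < η / 2 by positivity))).and (Filter.eventually_ge_atTop 1)).exists
      refine ⟨K, le_trans ?_ hK1.le⟩
      have hK2' : (1:ℝ) ≤ K := by exact_mod_cast hK2
      have hq0 : 0 ≤ (1 - δ) ^ K := pow_nonneg (by linarith) _
      have h5 : (4 * (372 * ((K + 1 : ℕ):ℝ) + 60) + 1) ^ 2 ≤ (3458 * (K:ℝ)) ^ 2 := by
        refine pow_le_pow_left₀ (by positivity) ?_ 2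
        push_cast
        linarith
      calc (6 * (n0:ℝ) + 2) ^ 2 * (C1 * (4 * (372 * ((K + 1 : ℕ):ℝ) + 60) + 1) ^ 2 * (1 - δ) ^ K)
          ≤ (6 * (n0:ℝ) + 2) ^ 2 * (C1 * (3458 * (K:ℝ)) ^ 2 * (1 - δ) ^ K) := by gcongr
        _ = (6 * (n0:ℝ) + 2) ^ 2 * (C1 * 3458 ^ 2) * ((K:ℝ) ^ 2 * (1 - δ) ^ K) := by ring
  obtain ⟨L1, hL1d⟩ : ∃ L1 : ℕ, L1 = 372 * (K + 1) + 60 := ⟨_, rfl⟩
  obtain ⟨G, hG⟩ : ∃ G : ℕ, G = n0 * L1 := ⟨_, rfl⟩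
  have hL11 : 1 ≤ L1 := by omega
  have hn01 : 1 ≤ n0 := by omega
  have hG1 : 1 ≤ G := by rw [hG]; exact Nat.mul_pos hn01 hL11
  have hGr : (1:ℝ) ≤ G := by exact_mod_cast hG1
  refine ⟨c' / (2 * G : ℝ) ^ (7/4 : ℝ), 5 * G, by positivity, by positivity, fun W hsW => ?_⟩
  have hsW' : 5 * (G : ℤ) ≤ W := by exact_mod_cast hsW
  have hGz : (1:ℤ) ≤ G := by exact_mod_cast hG1
  -- the scale `a`
  obtain ⟨a, ha⟩ : ∃ a : ℕ, (a : ℤ) = W / G := ⟨(W / G).toNat, by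
    rw [Int.toNat_of_nonneg (Int.ediv_nonneg (by omega) (by omega))]⟩
  have haz : (5:ℤ) ≤ a := by
    rw [ha, Int.le_ediv_iff_mul_le (by omega)]
    exact hsW'
  have haW : (a:ℤ) * G ≤ W := by
    rw [ha]
    exact Int.ediv_mul_le _ (by omega)
  have hWa : W < (a:ℤ) * G + G := by
    rw [ha]
    have := Int.lt_mul_ediv_self_add (x := W) (k := (G : ℤ)) (by omega)
    linarith [mul_comm (G : ℤ) (W / G)]
  have hGa : (G : ℤ) ≤ a * G := by nlinarith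
  obtain ⟨R, hR⟩ : ∃ R : ℤ, R = 124 * (a:ℤ) * (K + 1 : ℕ) := ⟨_, rfl⟩
  obtain ⟨L, hLd⟩ : ∃ L : ℤ, L = 3 * R + 60 * a := ⟨_, rfl⟩
  obtain ⟨w, hwd⟩ : ∃ w : ℤ, w = (20 * m + 100) * L := ⟨_, rfl⟩
  have hLa : L = a * L1 := by
    rw [hLd, hR, hL1d]
    push_cast
    ring
  have hn0L : (n0 : ℤ) * L = a * G := by
    rw [hLa, hG]
    push_cast
    ring
  have hW1 : (n0 : ℤ) * L ≤ W := by rw [hn0L]; exact haW
  have hW2 : W ≤ 2 * n0 * L := by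
    have : 2 * (n0 : ℤ) * L = 2 * (n0 * L) := by ring
    rw [this, hn0L]
    linarith
  have haK : (a:ℤ) * 1 ≤ (a:ℤ) * (K + 1 : ℕ) := mul_le_mul_of_nonneg_left (by push_cast; omega) (by omega)
  have hR1 : 121 * (a:ℤ) * (K + 1 : ℕ) + a + 2 ≤ R := by
    have e1 : R = 121 * (a:ℤ) * (K + 1 : ℕ) + 3 * ((a:ℤ) * (K + 1 : ℕ)) := by rw [hR]; ring
    rw [e1]
    omega
  have hR0 : 1 ≤ R := by
    have : (0:ℤ) ≤ 121 * (a:ℤ) * (K + 1 : ℕ) := by positivity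
    omega
  have hL1 : 1 ≤ L := by omega
  have hw2 : w = 20 * ((m:ℤ) * L) + 100 * L := by rw [hwd]; ring
  have hW3 : 80 * ((m:ℤ) * L) + 401 * L ≤ W := by
    have : (n0 : ℤ) * L = 80 * ((m:ℤ) * L) + 401 * L := by rw [hn0]; push_cast; ring
    rw [← this]
    exact hW1
  have hmL : (0:ℤ) ≤ (m:ℤ) * L := by positivity
  have hpar : Par R L w W := ⟨hR0, by omega, by omega, by omega⟩
  refine ⟨R, L, w, hpar, fun N hr q hq => ?_⟩
  have hn : (((4 * L).toNat : ℕ) : ℤ) = 4 * L := by omega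
  have hl' := hlow (4 * L).toNat a (K + 1) _ δ R (by omega) (by omega) hδ.le hδ1
    (hall _ a (by omega)) hR1
  rw [Nat.add_sub_cancel] at hl'
  have hnr : (((4 * L).toNat : ℕ) : ℝ) / a = 4 * (372 * ((K + 1 : ℕ):ℝ) + 60) := by
    have h1 : (((4 * L).toNat : ℕ) : ℝ) = ((4 * L : ℤ) : ℝ) := by exact_mod_cast hn
    rw [h1, hLd, hR]
    have ha0 : (a:ℝ) ≠ 0 := by
      have : a ≠ 0 := by omega
      exact_mod_cast this
    push_cast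
    field_simp
    ring
  rw [hnr] at hl'
  have hB0 : 0 ≤ C1 * (4 * (372 * ((K + 1 : ℕ):ℝ) + 60) + 1) ^ 2 * (1 - δ) ^ K := by
    have : 0 ≤ (1 - δ) ^ K := pow_nonneg (by linarith) _
    positivity
  have hMM : ⌈c' / (2 * G : ℝ) ^ (7/4 : ℝ) * (W : ℝ) ^ (7/4 : ℝ)⌉₊ ≤
      ⌈c' * (a:ℝ) ^ (7/4 : ℝ)⌉₊ := by
    apply Nat.ceil_mono
    have h1 : (W : ℝ) ≤ 2 * G * a := by
      have : W ≤ 2 * G * a := by linarith [mul_comm (a : ℤ) G]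
      exact_mod_cast this
    have hW0 : (0:ℝ) ≤ W := by
      have : 0 ≤ W := by omega
      exact_mod_cast this
    have h2 : (W : ℝ) ^ (7/4 : ℝ) ≤ (2 * G : ℝ) ^ (7/4 : ℝ) * (a : ℝ) ^ (7/4 : ℝ) := by
      rw [← Real.mul_rpow (by positivity) (by positivity)]
      exact Real.rpow_le_rpow hW0 h1 (by norm_num)
    have h3 : 0 < (2 * G : ℝ) ^ (7/4 : ℝ) := by positivity
    calc c' / (2 * G : ℝ) ^ (7/4 : ℝ) * (W : ℝ) ^ (7/4 : ℝ) ≤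
        c' / (2 * G : ℝ) ^ (7/4 : ℝ) * ((2 * G : ℝ) ^ (7/4 : ℝ) * (a : ℝ) ^ (7/4 : ℝ)) := by
          gcongr
      _ = c' * (a:ℝ) ^ (7/4 : ℝ) := by
          field_simp
  have b1 := badB_pr hMM (W := W) (n0 := n0) hB0 (by omega) hR0 hLd hW2 (by omega) hl' (Dn N) q
  have b2 : P (RE 0 N 0 N) (fun F => BadP L w W (Dn N) q F) ≤ η / 2 := by
    have p1 := badP_pr (m := m) hL1 hW2 (by rw [hwd]) hpar.hWw hr hq
    rw [Dn_edges] at p1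
    refine p1.trans (le_trans ?_ hm)
    have h0 : (0:ℝ) ≤ (1/2) ^ m := by positivity
    apply mul_le_mul_of_nonneg_right _ h0
    rw [hn0]
    push_cast
    have : (0:ℝ) ≤ m := Nat.cast_nonneg _
    linarith
  rw [Dn_edges] at b1
  unfold BadX
  refine (Pr_or_le half_ok _ _ _).trans ?_
  have := add_le_add (b1.trans hK) b2
  linarith

/-- The two-arm bounds. -/
theorem bad_all : ∀ η : ℝ, 0 < η → ∃ c s : ℝ, 0 < c ∧ 0 < s ∧
    ∀ W : ℤ, s ≤ W → ∃ R L w : ℤ, Par R L w W ∧ ∀ N : ℕ, 8 * W ≤ N →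
    ∀ q ∈ Bks (Dn N) W, P (RE 0 N 0 N) (BadX ⌈c * (W : ℝ) ^ (7/4 : ℝ)⌉₊ R L w W N q) ≤ η := by
  obtain ⟨⟨c0, hc0, hL⟩, ⟨C0, hC0, hU⟩, -⟩ := inputs
  exact badpr hc0 hC0 hL hU

end Pool.Agent.X135.PL
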