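import Pool.Agent.X135.PL.Tube
import Pool.Agent.TH992.T.Chern

/-!
The probability that all clusters of the box have a small diameter.
-/

set_option autoImplicit false

namespace Pool.Agent.X135.PL

open H974 Finset H342P

theorem hok2 : Ok (fun _ : Edg => (1/2:ℝ)) := fun _ => ⟨by norm_num, by norm_num⟩

/-- Disjoint squares are crossed independently. -/
theorem no_cross2 {n L K : ℕ} (hL : 0 < L) (hK : K * (L + 1) ≤ n + 1) :
    Pr (fun _ => (1/2:ℝ)) (RE 0 n 0 n) (fun F => ∀ q ∈ range K ×ˢ range K,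
      ¬ LRc ((q.1:ℤ) * (L + 1)) ((q.1:ℤ) * (L + 1) + L) ((q.2:ℤ) * (L + 1))
        ((q.2:ℤ) * (L + 1) + L) F) ≤ (1/2) ^ (K ^ 2) := by
  classical
  have hi : ∀ i < K, ((i:ℤ) * (L + 1) + L) ≤ n := by
    intro i hi
    have h5 : ((i:ℤ) + 1) * (L + 1) ≤ (K:ℤ) * (L + 1) := by
      apply mul_le_mul_of_nonneg_right _ (by positivity)
      exact_mod_cast hi
    have h6 : (K:ℤ) * (L + 1) ≤ n + 1 := by exact_mod_cast hK
    have h7 : ((i:ℤ) + 1) * (L + 1) = (i:ℤ) * (L + 1) + L + 1 := by ring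
    omega
  have hi0 : ∀ i : ℕ, 0 ≤ (i:ℤ) * (L + 1) := fun i => by positivity
  obtain ⟨T, hT⟩ : ∃ T : ℕ × ℕ → Finset Edg, T = fun q =>
      RE ((q.1:ℤ) * (L + 1)) ((q.1:ℤ) * (L + 1) + L) ((q.2:ℤ) * (L + 1))
        ((q.2:ℤ) * (L + 1) + L) := ⟨_, rfl⟩
  obtain ⟨A, hA⟩ : ∃ A : ℕ × ℕ → Finset Edg → Prop, A = fun q F =>
      ¬ LRc ((q.1:ℤ) * (L + 1)) ((q.1:ℤ) * (L + 1) + L) ((q.2:ℤ) * (L + 1))
        ((q.2:ℤ) * (L + 1) + L) F := ⟨_, rfl⟩
  have hTS : ∀ q ∈ range K ×ˢ range K, T q ⊆ RE 0 n 0 n := by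
    intro q hq
    rw [Finset.mem_product, Finset.mem_range, Finset.mem_range] at hq
    rw [hT]
    exact RE_subset (hi0 _) (hi _ hq.1) (hi0 _) (hi _ hq.2)
  have hLT : ∀ q : ℕ × ℕ, LRE ((q.1:ℤ) * (L + 1)) ((q.1:ℤ) * (L + 1) + L) ((q.2:ℤ) * (L + 1))
        ((q.2:ℤ) * (L + 1) + L) ⊆ T q := by
    intro q
    rw [hT]
    rintro ⟨x, y, _ | _⟩ h
    · rw [mem_LRE_false] at h
      simp only
      rw [mem_RE_false]; omega
    · rw [mem_LRE_true] at h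
      simp only
      rw [mem_RE_true]; omega
  have hdis : ∀ q ∈ range K ×ˢ range K, ∀ r ∈ range K ×ˢ range K, q ≠ r →
      Disjoint (T q) (T r) := by
    intro q _ r _ hne
    have key : ∀ i j : ℕ, i < j → (i:ℤ) * (L + 1) + L < (j:ℤ) * (L + 1) := by
      intro i j hij
      have h5 : ((i:ℤ) + 1) * (L + 1) ≤ (j:ℤ) * (L + 1) := by
        apply mul_le_mul_of_nonneg_right _ (by positivity)
        exact_mod_cast hij
      have h7 : ((i:ℤ) + 1) * (L + 1) = (i:ℤ) * (L + 1) + L + 1 := by ring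
      omega
    have hor : q.1 < r.1 ∨ r.1 < q.1 ∨ q.2 < r.2 ∨ r.2 < q.2 := by
      by_contra hcon
      push Not at hcon
      apply hne
      ext <;> omega
    rw [Finset.disjoint_left, hT]
    rintro ⟨x, y, _ | _⟩ h1 h2
    · simp only at h1 h2
      rw [mem_RE_false] at h1 h2
      rcases hor with h | h | h | h <;> have := key _ _ h <;> omega
    · simp only at h1 h2
      rw [mem_RE_true] at h1 h2
      rcases hor with h | h | h | h <;> have := key _ _ h <;> omega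
  have h1 : Pr (fun _ => (1/2:ℝ)) (RE 0 n 0 n) (fun F => ∀ q ∈ range K ×ˢ range K, A q F) =
      Ex (fun _ => (1/2:ℝ)) (RE 0 n 0 n) (fun F => ∏ q ∈ range K ×ˢ range K, ind (A q F)) := by
    refine Ex_congr fun F _ => ?_
    by_cases h : ∀ q ∈ range K ×ˢ range K, A q F
    · rw [ind_of h, prod_eq_one fun q hq => ind_of (h q hq)]
    · rw [ind_not_of h]
      push Not at h
      obtain ⟨q, hq, hn⟩ := h
      rw [prod_eq_zero hq (ind_not_of hn)]
  have h2 : Pr (fun _ => (1/2:ℝ)) (RE 0 n 0 n) (fun F => ∀ q ∈ range K ×ˢ range K, A q F) =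
      ∏ q ∈ range K ×ˢ range K, Pr (fun _ => (1/2:ℝ)) (RE 0 n 0 n) (A q) := by
    rw [h1, TH992.T.Ex_prod_indep (range K ×ˢ range K) T hTS hdis (fun q F => ind (A q F))]
    · rfl
    · intro q _ F _
      apply ind_congr
      rw [hA]
      exact not_congr (LRc_local (hLT q))
  rw [hA] at h2
  rw [h2]
  have h3 : ∀ q ∈ range K ×ˢ range K, Pr (fun _ => (1/2:ℝ)) (RE 0 n 0 n) (fun F =>
      ¬ LRc ((q.1:ℤ) * (L + 1)) ((q.1:ℤ) * (L + 1) + L) ((q.2:ℤ) * (L + 1))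
        ((q.2:ℤ) * (L + 1) + L) F) ≤ 1/2 := by
    intro q hq
    rw [Pr_not, pr_LRc _ ((hLT q).trans (hTS q hq))]
    have h3 := hh_square (L:ℤ) (by exact_mod_cast hL)
    have e1 : (q.1:ℤ) * (L + 1) + L - (q.1:ℤ) * (L + 1) = L := by ring
    have e2 : (q.2:ℤ) * (L + 1) + L - (q.2:ℤ) * (L + 1) = L := by ring
    rw [e1, e2]
    linarith
  refine (Finset.prod_le_prod (fun q _ => Pr_nonneg hok2 _ _) h3).trans ?_
  rw [Finset.prod_const, Finset.card_product, Finset.card_range, sq]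

/-- All clusters of the box have diameter less than `D`. -/
def NoDiam (n : ℕ) (D : ℝ) (F : Finset Edg) : Prop :=
  ∀ a b : Vtx, inR 0 n 0 n a → inR 0 n 0 n b → Reach (↑F : Set Edg) a b → (dsq a b : ℝ) < D ^ 2

theorem small_up : ∃ c C : ℝ, 0 < c ∧ 0 < C ∧ ∀ (n : ℕ) (y : ℝ), 0 < y → 1 ≤ y * n →
    Pr (fun _ => (1/2:ℝ)) (RE 0 n 0 n) (NoDiam n (y * n)) ≤ C * Real.exp (-(c / y ^ 2)) := by
  have hlog : 0 < Real.log 2 := Real.log_pos (by norm_num)
  obtain ⟨c, hc⟩ : ∃ c : ℝ, c = Real.log 2 / 36 := ⟨_, rfl⟩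
  have hc0 : 0 < c := by rw [hc]; positivity
  refine ⟨c, Real.exp (36 * c), hc0, Real.exp_pos _, ?_⟩
  intro n y hy hyn
  rw [← Real.exp_add]
  rcases lt_or_ge 1 (6 * y) with h6 | h6
  · refine (Pr_le_one hok2 _ _).trans (Real.one_le_exp ?_)
    have h1 : 1 / y ^ 2 ≤ 36 := by
      rw [div_le_iff₀ (by positivity)]
      nlinarith
    have h2 : c / y ^ 2 = c * (1 / y ^ 2) := by ring
    rw [h2]
    nlinarith
  have hn0 : (0:ℝ) < n := by
    rcases Nat.eq_zero_or_pos n with h | h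
    · rw [h] at hyn
      norm_num at hyn
    · exact_mod_cast h
  obtain ⟨L, hL⟩ : ∃ L : ℕ, L = ⌈y * n⌉₊ := ⟨_, rfl⟩
  have hL1 : y * n ≤ L := by rw [hL]; exact Nat.le_ceil _
  have hL2 : (L:ℝ) < y * n + 1 := by rw [hL]; exact Nat.ceil_lt_add_one (by positivity)
  have hL0 : 0 < L := by
    have : (0:ℝ) < L := by linarith
    exact_mod_cast this
  obtain ⟨K, hK⟩ : ∃ K : ℕ, K = (n + 1) / (L + 1) := ⟨_, rfl⟩
  have hK1 : K * (L + 1) ≤ n + 1 := by rw [hK]; exact Nat.div_mul_le_self _ _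
  have hK2 : n + 1 < (K + 1) * (L + 1) := by
    rw [hK, mul_comm]
    exact Nat.lt_mul_div_succ (n + 1) (by omega)
  have hK3 : 1 / (6 * y) ≤ (K:ℝ) := by
    have h1 : (n:ℝ) + 1 < (K + 1) * (L + 1) := by exact_mod_cast hK2
    have h2 : (L:ℝ) + 1 ≤ 3 * (y * n) := by linarith
    have h3 : (n:ℝ) < (K + 1) * (3 * (y * n)) := by
      have : ((K:ℝ) + 1) * (L + 1) ≤ (K + 1) * (3 * (y * n)) :=
        mul_le_mul_of_nonneg_left h2 (by positivity)
      linarith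
    have h4 : 1 < (K + 1) * (3 * y) := by
      have h5 : (n:ℝ) * 1 < n * ((K + 1) * (3 * y)) := by linarith
      exact lt_of_mul_lt_mul_left h5 hn0.le
    rw [div_le_iff₀ (by positivity)]
    nlinarith
  have hsub : Pr (fun _ => (1/2:ℝ)) (RE 0 n 0 n) (NoDiam n (y * n)) ≤
      Pr (fun _ => (1/2:ℝ)) (RE 0 n 0 n) (fun F => ∀ q ∈ range K ×ˢ range K,
      ¬ LRc ((q.1:ℤ) * (L + 1)) ((q.1:ℤ) * (L + 1) + L) ((q.2:ℤ) * (L + 1))
        ((q.2:ℤ) * (L + 1) + L) F) := by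
    refine Pr_mono hok2 ?_
    intro F _ hF q hq h
    rw [Finset.mem_product, Finset.mem_range, Finset.mem_range] at hq
    have hi : ∀ i < K, ((i:ℤ) * (L + 1) + L) ≤ n := by
      intro i hi
      have h5 : ((i:ℤ) + 1) * (L + 1) ≤ (K:ℤ) * (L + 1) := by
        apply mul_le_mul_of_nonneg_right _ (by positivity)
        exact_mod_cast hi
      have h6 : (K:ℤ) * (L + 1) ≤ n + 1 := by exact_mod_cast hK1
      have h7 : ((i:ℤ) + 1) * (L + 1) = (i:ℤ) * (L + 1) + L + 1 := by ring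
      omega
    have hi0 : ∀ i : ℕ, 0 ≤ (i:ℤ) * (L + 1) := fun i => by positivity
    obtain ⟨y1, y2, k1, k2, k3⟩ := LRc_fst h
    have g1 := hi _ hq.1
    have g2 := hi _ hq.2
    have g3 := hi0 q.1
    have g4 := hi0 q.2
    have h1 := hF _ _ (by unfold inR; simp only; omega) (by unfold inR; simp only; omega) k3
    have h2 : ((L:ℤ)) ^ 2 ≤ dsq ((q.1:ℤ) * (L + 1), y1) ((q.1:ℤ) * (L + 1) + L, y2) := by
      unfold dsq
      simp only
      nlinarith [sq_nonneg (y1 - y2)]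
    have h3 : ((L:ℝ)) ^ 2 ≤ (dsq ((q.1:ℤ) * (L + 1), y1) ((q.1:ℤ) * (L + 1) + L, y2) : ℝ) := by
      exact_mod_cast h2
    have h4 : (y * n) ^ 2 ≤ (L:ℝ) ^ 2 := pow_le_pow_left₀ (by positivity) hL1 2
    linarith
  refine hsub.trans ((no_cross2 hL0 hK1).trans ?_)
  have h3 : ((1/2 : ℝ)) ^ (K ^ 2) = Real.exp (-(((K ^ 2 : ℕ) : ℝ) * Real.log 2)) := by
    rw [Real.exp_neg, Real.exp_nat_mul, Real.exp_log (by norm_num), one_div, inv_pow]
  rw [h3]
  apply Real.exp_le_exp.mpr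
  have h4 : (1 / (6 * y)) ^ 2 ≤ (K:ℝ) ^ 2 := pow_le_pow_left₀ (by positivity) hK3 2
  have h5 : c / y ^ 2 = (1 / (6 * y)) ^ 2 * Real.log 2 := by
    rw [hc]
    field_simp
    norm_num
  push_cast
  rw [h5]
  have h6 := mul_le_mul_of_nonneg_right h4 hlog.le
  linarith [hc0]

end Pool.Agent.X135.PL
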