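import Pool.Agent.X135.PL.Det
import Pool.Agent.X135.PL.BadX

/-!
The upper bound: clusters of large diameter with a small perimeter.
-/

set_option autoImplicit false

namespace Pool.Agent.X135.PL

open H974 Finset H342P H984P H984N Pool.Agent.Y985.ME Pool.Agent.Y884.ME

/-- number of the blocks -/
theorem card_Bks' {n : ℕ} {W : ℤ} (hW : 1 ≤ W) (hn : W ≤ n) :
    ((Bks (Dn n) W).card : ℝ) ≤ (2 * ((n:ℝ) / W)) ^ 2 := by
  have hWr : (0 : ℝ) < W := by exact_mod_cast (show (0:ℤ) < W by omega)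
  have hn' : (W:ℝ) ≤ n := by exact_mod_cast hn
  have e0 : (0:ℤ) / W = 0 := Int.zero_ediv _
  have e2 : 0 ≤ (n:ℤ) / W := Int.ediv_nonneg (by omega) (by omega)
  have hcard : ((Bks (Dn n) W).card : ℝ) = (((n:ℤ) / W + 1 : ℤ) : ℝ) * (((n:ℤ) / W + 1 : ℤ) : ℝ) := by
    unfold Bks Dn
    simp only
    rw [card_product, Int.card_Icc, Int.card_Icc, e0]
    have f1 : ((((n:ℤ) / W + 1 - 0).toNat : ℕ) : ℤ) = (n:ℤ) / W + 1 := by omega
    have f2 : ((((n:ℤ) / W + 1 - 0).toNat : ℕ) : ℝ) = (((n:ℤ) / W + 1 : ℤ) : ℝ) := by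
      exact_mod_cast f1
    push_cast
    rw [f2]
    push_cast
    ring
  have a1 : W * ((n:ℤ) / W) ≤ n := Int.mul_ediv_self_le (by omega)
  have a1' : (W : ℝ) * (((n:ℤ) / W : ℤ) : ℝ) ≤ n := by exact_mod_cast a1
  have g1 : (((n:ℤ) / W + 1 : ℤ) : ℝ) ≤ 2 * ((n:ℝ) / W) := by
    have h1 : (((n:ℤ) / W : ℤ) : ℝ) ≤ n / W := by
      rw [le_div_iff₀ hWr]
      linarith
    have h2 : (1:ℝ) ≤ n / W := by rwa [le_div_iff₀ hWr, one_mul]
    push_cast
    push_cast at h1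
    linarith
  have g0 : (0:ℝ) ≤ (((n:ℤ) / W + 1 : ℤ) : ℝ) := by exact_mod_cast (show (0:ℤ) ≤ (n:ℤ) / W + 1 by omega)
  rw [hcard, sq]
  exact mul_le_mul g1 g1 g0 (by positivity)

/-- The event: some cluster has diameter at least `D` and perimeter at most `p`. -/
def Thin (n : ℕ) (D p : ℝ) (F : Finset Edg) : Prop :=
  ∃ v a b : Vtx, Reach (↑F : Set Edg) v a ∧ Reach (↑F : Set Edg) v b ∧
    D ^ 2 ≤ (dsq a b : ℝ) ∧ (per n (↑F) v : ℝ) ≤ p

theorem thin_up : ∃ c C : ℝ, 0 < c ∧ 0 < C ∧ ∀ (n : ℕ) (x y : ℝ), 1 ≤ n → 0 < x → 0 < y →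
    P (RE 0 n 0 n) (Thin n (y * n) ((n:ℝ) ^ (7/4:ℝ) / x)) ≤
      C * (1 / y ^ 2) * Real.exp (-(c * (x ^ (4/3:ℝ) * y ^ (7/3:ℝ)))) := by
  obtain ⟨c0, s0, hc0, hs0, H⟩ := bad_all ((1/36) ^ 98) (by positivity)
  -- the constant `A`
  obtain ⟨B, hB⟩ : ∃ B : ℝ, B = max (4000 / c0) 1 := ⟨_, rfl⟩
  have hB1 : 1 ≤ B := by rw [hB]; exact le_max_right _ _
  have hB2 : 4000 / c0 ≤ B := by rw [hB]; exact le_max_left _ _
  obtain ⟨A, hA⟩ : ∃ A : ℝ, A = B ^ (4/3 : ℝ) + 128 * (s0 + 1) := ⟨_, rfl⟩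
  have hBA : 1 ≤ B ^ (4/3 : ℝ) := Real.one_le_rpow hB1 (by norm_num)
  have hA1 : 1 ≤ A := by rw [hA]; linarith
  have hA0 : 0 < A := by linarith
  have hAs : 128 * (s0 + 1) ≤ A := by rw [hA]; linarith
  have hA34 : B ≤ A ^ (3/4 : ℝ) := by
    have h1 : (B ^ (4/3 : ℝ)) ^ (3/4 : ℝ) = B := by
      rw [← Real.rpow_mul (by linarith)]
      norm_num
    rw [← h1]
    exact Real.rpow_le_rpow (by linarith) (by rw [hA]; linarith) (by norm_num)
  have hlog : 0 < Real.log 2 := Real.log_pos (by norm_num)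
  obtain ⟨c, hc⟩ : ∃ c : ℝ, c = Real.log 2 / (16 * A) := ⟨_, rfl⟩
  have hc' : 0 < c := by rw [hc]; positivity
  obtain ⟨Z0, hZ0⟩ : ∃ Z0 : ℝ, Z0 = 32 * A + 1728 := ⟨_, rfl⟩
  obtain ⟨C, hC⟩ : ∃ C : ℝ, C = 4 * Real.exp (c * Z0) + 8 / (A ^ 2 * c ^ 2) := ⟨_, rfl⟩
  have hCE : 4 * Real.exp (c * Z0) ≤ C := by
    rw [hC]
    have : 0 < 8 / (A ^ 2 * c ^ 2) := by positivity
    linarith
  have hC8 : 8 / (A ^ 2 * c ^ 2) ≤ C := by
    rw [hC]
    have := Real.exp_pos (c * Z0)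
    linarith
  have hCpos : 0 < C := lt_of_lt_of_le (by positivity) hCE
  refine ⟨c, C, hc', hCpos, ?_⟩
  intro n x y hn hx hy
  have hn0 : (0:ℝ) < n := by exact_mod_cast (show 0 < n by omega)
  obtain ⟨z, hz⟩ : ∃ z : ℝ, z = x ^ (4/3:ℝ) * y ^ (7/3:ℝ) := ⟨_, rfl⟩
  have hz0 : 0 < z := by rw [hz]; positivity
  obtain ⟨p, hp⟩ : ∃ p : ℝ, p = (n:ℝ) ^ (7/4:ℝ) / x := ⟨_, rfl⟩
  have hp0 : 0 < p := by rw [hp]; positivity
  obtain ⟨D, hD⟩ : ∃ D : ℝ, D = y * n := ⟨_, rfl⟩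
  have hD0 : 0 < D := by rw [hD]; positivity
  rw [← hz, ← hp, ← hD]
  have hrhs0 : 0 ≤ C * (1 / y ^ 2) * Real.exp (-(c * z)) := by positivity
  -- `z ^ (3/4)`
  have hz34 : z ^ (3/4:ℝ) = x * y ^ (7/4:ℝ) := by
    rw [hz, Real.mul_rpow (by positivity) (by positivity), ← Real.rpow_mul hx.le,
      ← Real.rpow_mul hy.le]
    norm_num
  have hD74 : D ^ (7/4:ℝ) = y ^ (7/4:ℝ) * (n:ℝ) ^ (7/4:ℝ) := by
    rw [hD, Real.mul_rpow hy.le hn0.le]
  have hDp : D ^ (7/4:ℝ) = z ^ (3/4:ℝ) * p := by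
    rw [hD74, hz34, hp]
    field_simp
  by_cases hev : ∃ F, F ⊆ RE 0 n 0 n ∧ Thin n D p F
  swap
  · have h0 : P (RE 0 n 0 n) (Thin n D p) ≤ P (RE 0 n 0 n) (fun _ => False) :=
      Pr_mono half_ok (fun F hF h => hev ⟨F, hF, h⟩)
    refine h0.trans ?_
    have h1 : P (RE 0 n 0 n) (fun _ => False) = 0 :=
      Pool.Agent.Y991.ME.Pr_false (fun _ h => h)
    rw [h1]
    exact hrhs0
  obtain ⟨F0, hF0, v0, a0, b0, ha0, hb0, hab0, hper0⟩ := hev
  have hab : a0 ≠ b0 := by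
    rintro rfl
    unfold dsq at hab0
    simp only [sub_self] at hab0
    push_cast at hab0
    nlinarith [sq_pos_of_pos hD0]
  have hbb := pb_box hF0 (ha0.symm.trans hb0) hab
  have hba := pb_box hF0 (hb0.symm.trans ha0) hab.symm
  have hy2 : y ≤ 2 := by
    have h1 : (dsq a0 b0 : ℤ) ≤ 2 * (n:ℤ) ^ 2 := by
      unfold inR at hbb hba
      have h2 : |a0.1 - b0.1| ≤ n := by rw [abs_le]; omega
      have h3 : |a0.2 - b0.2| ≤ n := by rw [abs_le]; omega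
      have h4 : (a0.1 - b0.1) ^ 2 ≤ (n:ℤ) ^ 2 := by
        rw [← sq_abs (a0.1 - b0.1)]
        exact pow_le_pow_left₀ (abs_nonneg _) h2 2
      have h5 : (a0.2 - b0.2) ^ 2 ≤ (n:ℤ) ^ 2 := by
        rw [← sq_abs (a0.2 - b0.2)]
        exact pow_le_pow_left₀ (abs_nonneg _) h3 2
      unfold dsq
      linarith
    have h2 : (dsq a0 b0 : ℝ) ≤ 2 * (n:ℝ) ^ 2 := by exact_mod_cast h1
    have h3 : (y * n) ^ 2 ≤ 2 * (n:ℝ) ^ 2 := by rw [← hD]; exact hab0.trans h2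
    by_contra hcon
    push Not at hcon
    have h4 : (2 * (n:ℝ)) ^ 2 < (y * n) ^ 2 := by
      apply pow_lt_pow_left₀ _ (by positivity) (by norm_num)
      nlinarith
    nlinarith
  have hp1 : 1 ≤ p := by
    have h1 := per_pos hF0 ha0 hb0 hab
    have h2 : (1:ℝ) ≤ per n (↑F0) v0 := by exact_mod_cast h1
    exact h2.trans hper0
  have hy2' : 1 / 4 ≤ 1 / y ^ 2 := by
    apply one_div_le_one_div_of_le (by positivity)
    nlinarith
  -- the trivial case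
  have htriv : z ≤ Z0 → P (RE 0 n 0 n) (Thin n D p) ≤ C * (1 / y ^ 2) * Real.exp (-(c * z)) := by
    intro hzZ
    refine (Pr_le_one half_ok _ _).trans ?_
    have h1 : 1 ≤ Real.exp (c * Z0) * Real.exp (-(c * z)) := by
      rw [← Real.exp_add]
      apply Real.one_le_exp
      nlinarith
    have h2 : 1 * Real.exp (c * Z0) ≤ C * (1 / y ^ 2) := by
      have h3 : 4 * Real.exp (c * Z0) * (1 / 4) ≤ C * (1 / y ^ 2) :=
        mul_le_mul hCE hy2' (by norm_num) hCpos.le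
      linarith
    have h4 := mul_le_mul_of_nonneg_right h2 (Real.exp_pos (-(c * z))).le
    linarith
  rcases lt_or_ge D 12 with hDs | hDl
  · apply htriv
    have h1 : z ^ (3/4:ℝ) ≤ D ^ (7/4:ℝ) := by
      rw [hDp]
      have : 0 < z ^ (3/4:ℝ) := by positivity
      nlinarith
    have h2 : z ≤ D ^ (7/3:ℝ) := by
      have h3 : (z ^ (3/4:ℝ)) ^ (4/3:ℝ) ≤ (D ^ (7/4:ℝ)) ^ (4/3:ℝ) :=
        Real.rpow_le_rpow (by positivity) h1 (by norm_num)
      rw [← Real.rpow_mul hz0.le, ← Real.rpow_mul hD0.le] at h3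
      norm_num at h3
      norm_num
      exact h3
    have h4 : D ^ (7/3:ℝ) ≤ 12 ^ (7/3:ℝ) := Real.rpow_le_rpow hD0.le hDs.le (by norm_num)
    have h5 : (12:ℝ) ^ (7/3:ℝ) ≤ 12 ^ (3:ℝ) :=
      Real.rpow_le_rpow_of_exponent_le (by norm_num) (by norm_num)
    have h6 : (12:ℝ) ^ (3:ℝ) = 1728 := by norm_num
    rw [hZ0]
    linarith
  rcases le_or_gt z Z0 with hzs | hzl
  · exact htriv hzs
  clear htriv
  -- the main case
  obtain ⟨m, hm⟩ : ∃ m : ℕ, m = ⌊D / 3⌋₊ := ⟨_, rfl⟩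
  have hm1 : (m:ℝ) ≤ D / 3 := by rw [hm]; exact Nat.floor_le (by positivity)
  have hm2 : D / 3 < m + 1 := by rw [hm]; exact Nat.lt_floor_add_one _
  have hm4 : D / 4 ≤ m := by linarith
  have hmpos : 1 ≤ m := by
    have : (0:ℝ) < m := by linarith
    exact_mod_cast this
  have hfast : ∀ F, F ⊆ RE 0 n 0 n → Thin n D p F → FastO n m ⌊8 * p⌋₊ F := by
    rintro F hF ⟨v, a, b, ha, hb, hab, hper⟩
    have h8 : 8 * (m:ℤ) ^ 2 ≤ dsq a b := by
      have h1 : 8 * (m:ℝ) ^ 2 ≤ (dsq a b : ℝ) := by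
        refine le_trans ?_ hab
        have h2 : (m:ℝ) ^ 2 ≤ (D / 3) ^ 2 := pow_le_pow_left₀ (by positivity) hm1 2
        nlinarith
      exact_mod_cast h1
    have h1 := per_fast hF (m := (m:ℤ)) (by exact_mod_cast hmpos) ha hb h8
    refine fastO_mono ?_ h1
    apply Nat.le_floor
    push_cast
    linarith
  have hmp : (m:ℝ) ≤ 8 * p := by
    have h1 := fastO_le (hfast F0 hF0 ⟨v0, a0, b0, ha0, hb0, hab0, hper0⟩)
    have h2 : (m:ℝ) ≤ (⌊8 * p⌋₊ : ℝ) := by exact_mod_cast h1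
    exact h2.trans (Nat.floor_le (by positivity))
  have hzD : z ≤ 128 * D := by
    have h1 : D ≤ 32 * p := by linarith
    have h2 : z ^ (3/4:ℝ) * D ≤ 32 * (D ^ (3/4:ℝ) * D) := by
      have h3 : D ^ (3/4:ℝ) * D = D ^ (7/4:ℝ) := by
        rw [show (7/4:ℝ) = 3/4 + 1 by norm_num, Real.rpow_add hD0, Real.rpow_one]
      rw [h3, hDp]
      have : 0 < z ^ (3/4:ℝ) := by positivity
      nlinarith
    have h3 : z ^ (3/4:ℝ) ≤ 32 * D ^ (3/4:ℝ) := by
      rw [← mul_assoc] at h2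
      exact le_of_mul_le_mul_right h2 hD0
    have h4 : (32:ℝ) ≤ 128 ^ (3/4:ℝ) := by
      have h5 : ((32:ℝ) ^ (4/3:ℝ)) ^ (3/4:ℝ) = 32 := by
        rw [← Real.rpow_mul (by norm_num)]
        norm_num
      rw [← h5]
      apply Real.rpow_le_rpow (by positivity) _ (by norm_num)
      have h6 : (32:ℝ) ^ (4/3:ℝ) = ((32:ℝ) ^ (4:ℝ)) ^ (1/3:ℝ) := by
        rw [← Real.rpow_mul (by norm_num)]
        norm_num
      have h7 : (128:ℝ) = ((128:ℝ) ^ (3:ℝ)) ^ (1/3:ℝ) := by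
        rw [← Real.rpow_mul (by norm_num)]
        norm_num
      rw [h6, h7]
      apply Real.rpow_le_rpow (by positivity) _ (by norm_num)
      norm_num
    have h5 : z ^ (3/4:ℝ) ≤ (128 * D) ^ (3/4:ℝ) := by
      rw [Real.mul_rpow (by norm_num) hD0.le]
      refine h3.trans ?_
      exact mul_le_mul_of_nonneg_right h4 (by positivity)
    exact (Real.rpow_le_rpow_iff hz0.le (by positivity) (by norm_num)).mp h5
  obtain ⟨T, hT⟩ : ∃ T : ℝ, T = A * D / z := ⟨_, rfl⟩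
  have hTs : s0 + 1 ≤ T := by
    rw [hT, le_div_iff₀ hz0]
    calc (s0 + 1) * z ≤ (s0 + 1) * (128 * D) := mul_le_mul_of_nonneg_left hzD (by linarith)
      _ = (128 * (s0 + 1)) * D := by ring
      _ ≤ A * D := mul_le_mul_of_nonneg_right hAs hD0.le
  have hT1 : 1 ≤ T := by linarith
  obtain ⟨W, hW⟩ : ∃ W : ℤ, W = ⌈T⌉ := ⟨_, rfl⟩
  have hTW : T ≤ W := by rw [hW]; exact Int.le_ceil T
  have hWT : (W : ℝ) ≤ 2 * T := by
    have := Int.ceil_lt_add_one T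
    rw [← hW] at this
    linarith
  have hW1r : (1 : ℝ) ≤ W := by linarith
  have hW1 : 1 ≤ W := by exact_mod_cast hW1r
  have hW0 : (0 : ℝ) < W := by linarith
  obtain ⟨R, L, w, hPar, hbad⟩ := H W (by linarith)
  have hzA : 32 * A ≤ z := by rw [hZ0] at hzl; linarith
  have hWD : 16 * (W:ℝ) ≤ D := by
    have h1 : T * z = A * D := by rw [hT]; field_simp
    have h2 : 32 * A * T ≤ A * D := by
      rw [← h1, mul_comm T z]
      exact mul_le_mul_of_nonneg_right hzA (by linarith)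
    have h3 : 32 * T ≤ D := by
      have h4 : A * (32 * T) ≤ A * D := by linarith
      exact le_of_mul_le_mul_left h4 hA0
    linarith
  have h8W : 8 * W ≤ n := by
    have h1 : 8 * (W:ℝ) ≤ n := by
      have h2 : D ≤ 2 * n := by rw [hD]; exact mul_le_mul_of_nonneg_right hy2 hn0.le
      linarith
    exact_mod_cast h1
  obtain ⟨k, hk⟩ : ∃ k : ℕ, k = ⌊(m:ℝ) / W⌋₊ := ⟨_, rfl⟩
  have hk1 : (k : ℝ) ≤ m / W := by rw [hk]; exact Nat.floor_le (by positivity)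
  have hk2 : (m:ℝ) / W < k + 1 := by rw [hk]; exact Nat.lt_floor_add_one _
  have hkW : (k : ℤ) * W ≤ m := by
    have h1 : (k : ℝ) * W ≤ m := by rwa [le_div_iff₀ hW0] at hk1
    exact_mod_cast h1
  have hk2' : 2 ≤ k := by
    rw [hk]
    apply Nat.le_floor
    rw [le_div_iff₀ hW0]
    push_cast
    linarith
  obtain ⟨M, hM⟩ : ∃ M : ℕ, M = ⌈c0 * (W : ℝ) ^ (7/4 : ℝ)⌉₊ := ⟨_, rfl⟩
  have hMge : c0 * (W : ℝ) ^ (7/4 : ℝ) ≤ M := by rw [hM]; exact Nat.le_ceil _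
  rw [← hM] at hbad
  have hkM : 98 * (⌊8 * p⌋₊ + 1) < (k + 1) * M := by
    have h1 : ((98 * (⌊8 * p⌋₊ + 1) : ℕ) : ℝ) ≤ 882 * p := by
      push_cast
      have := Nat.floor_le (show 0 ≤ 8 * p by positivity)
      linarith
    have hMp : (0 : ℝ) < M := lt_of_lt_of_le (by positivity) hMge
    have h2 : (m:ℝ) / W * M < ((k + 1) * M : ℕ) := by
      push_cast
      exact mul_lt_mul_of_pos_right hk2 hMp
    have h3 : (W : ℝ) ^ (7/4 : ℝ) = W * (W : ℝ) ^ (3/4 : ℝ) := by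
      rw [show (7/4 : ℝ) = 1 + 3/4 by norm_num, Real.rpow_add hW0, Real.rpow_one]
    have h4 : B * (D / z) ^ (3/4:ℝ) ≤ (W : ℝ) ^ (3/4 : ℝ) := by
      have h5 : T = A * (D / z) := by rw [hT]; ring
      calc B * (D / z) ^ (3/4:ℝ) ≤ A ^ (3/4:ℝ) * (D / z) ^ (3/4:ℝ) :=
            mul_le_mul_of_nonneg_right hA34 (by positivity)
        _ = T ^ (3/4:ℝ) := by rw [h5, Real.mul_rpow hA0.le (by positivity)]
        _ ≤ _ := Real.rpow_le_rpow (by linarith) hTW (by norm_num)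
    have h5 : D * (D / z) ^ (3/4:ℝ) = p := by
      have h6 : D * D ^ (3/4:ℝ) = D ^ (7/4:ℝ) := by
        rw [show (7/4:ℝ) = 1 + 3/4 by norm_num, Real.rpow_add hD0, Real.rpow_one]
      rw [Real.div_rpow hD0.le hz0.le, mul_div_assoc', h6, hDp]
      field_simp
    have h6 : 882 * p < (m:ℝ) / W * M := by
      calc 882 * p < 1000 * p := by linarith
        _ = 4000 / 4 * p := by ring
        _ ≤ (c0 * B) / 4 * p := by
            have h7 : 4000 ≤ c0 * B := by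
              rw [div_le_iff₀ hc0] at hB2
              linarith
            gcongr
        _ = c0 * (D / 4) * (B * (D / z) ^ (3/4:ℝ)) := by rw [← h5]; ring
        _ ≤ c0 * m * (W : ℝ) ^ (3/4 : ℝ) := by gcongr
        _ = (m:ℝ) / W * (c0 * (W : ℝ) ^ (7/4 : ℝ)) := by rw [h3]; field_simp
        _ ≤ _ := by gcongr
    have h7 : ((98 * (⌊8 * p⌋₊ + 1) : ℕ) : ℝ) < ((k + 1) * M : ℕ) := by linarith
    exact_mod_cast h7
  refine (Pr_mono half_ok hfast).trans ?_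
  refine (fastO_pr hPar (hbad n h8W) hk2' hkW hkM).trans ?_
  have hcard := card_Bks' hW1 (by omega : W ≤ (n:ℤ))
  have hkz : z / (8 * A) ≤ (k:ℝ) + 1 := by
    refine le_trans ?_ hk2.le
    have h1 : z / (8 * A) = (D / 4) / (2 * T) := by
      rw [hT]
      field_simp
      ring
    rw [h1]
    calc (D / 4) / (2 * T) ≤ (D / 4) / W := div_le_div_of_nonneg_left (by positivity) hW0 hWT
      _ ≤ m / W := div_le_div_of_nonneg_right hm4 hW0.le
  have hhalf : ((1/2 : ℝ)) ^ (k + 1) ≤ Real.exp (-(2 * (c * z))) := by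
    have h3 : ((1/2 : ℝ)) ^ (k + 1) = Real.exp (-(((k + 1 : ℕ) : ℝ) * Real.log 2)) := by
      rw [Real.exp_neg, Real.exp_nat_mul, Real.exp_log (by norm_num), one_div, inv_pow]
    rw [h3]
    apply Real.exp_le_exp.mpr
    push_cast
    have h4 : 2 * (c * z) = z / (8 * A) * Real.log 2 := by
      rw [hc]
      field_simp
      ring
    have h5 := mul_le_mul_of_nonneg_right hkz hlog.le
    linarith
  have hquad : (c * z) ^ 2 ≤ 2 * Real.exp (c * z) := by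
    have := Real.quadratic_le_exp_of_nonneg (show 0 ≤ c * z by positivity)
    have h0 : 0 < c * z := by positivity
    linarith
  have hnW : (n:ℝ) / W ≤ z / (A * y) := by
    have h1 : z / (A * y) = n / T := by
      rw [hT, hD]
      field_simp
    rw [h1]
    exact div_le_div_of_nonneg_left hn0.le (by linarith) hTW
  calc ((Bks (Dn n) W).card : ℝ) * (1/2) ^ (k + 1)
      ≤ (2 * ((n:ℝ) / W)) ^ 2 * Real.exp (-(2 * (c * z))) :=
        mul_le_mul hcard hhalf (by positivity) (by positivity)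
    _ ≤ (2 * (z / (A * y))) ^ 2 * Real.exp (-(2 * (c * z))) := by gcongr
    _ = 4 / (A ^ 2 * c ^ 2) * (1 / y ^ 2) * ((c * z) ^ 2 * Real.exp (-(2 * (c * z)))) := by
        field_simp
        ring
    _ ≤ 4 / (A ^ 2 * c ^ 2) * (1 / y ^ 2) * (2 * Real.exp (c * z) * Real.exp (-(2 * (c * z)))) := by
        gcongr
    _ = 8 / (A ^ 2 * c ^ 2) * (1 / y ^ 2) * (Real.exp (c * z) * Real.exp (-(2 * (c * z)))) := by
        ring
    _ = 8 / (A ^ 2 * c ^ 2) * (1 / y ^ 2) * Real.exp (-(c * z)) := by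
        rw [← Real.exp_add]
        ring_nf
    _ ≤ C * (1 / y ^ 2) * Real.exp (-(c * z)) := by
        gcongr

end Pool.Agent.X135.PL
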