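import Pool.Agent.X135.PL.Low4
import Pool.Agent.X135.PL.Up
import Pool.Agent.X135.PL.NoBig
import Pool.Agent.TH494.PT.Fin2
import Pool.Agent.TH494.PT.UpC

/-!
The lower tail of the perimeter of the largest cluster, in the plain model.
-/

set_option autoImplicit false

namespace Pool.Agent.X135.PL

open H974 Finset H342P

/-- The Euclidean diameter of the cluster of `v` is at least `r`: the cluster contains two vertices
at distance at least `r`. -/
def DiamGe (F : Finset Plain.Edge) (v : ℤ × ℤ) (r : ℝ) : Prop :=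
  ∃ a ∈ Plain.cluster F v, ∃ b ∈ Plain.cluster F v, r ≤ Real.sqrt (Plain.sqDist a b : ℝ)

/-- The Euclidean diameter of the cluster of `v` is at most `r`: any two vertices of the cluster
are at distance at most `r`. -/
def DiamLe (F : Finset Plain.Edge) (v : ℤ × ℤ) (r : ℝ) : Prop :=
  ∀ a ∈ Plain.cluster F v, ∀ b ∈ Plain.cluster F v, Real.sqrt (Plain.sqDist a b : ℝ) ≤ r

/-- The scale, relative to the size `n` of the box, of the diameter of the largest cluster when its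
perimeter is at most `n ^ (7/4) / x`: the minimum of `x ^ (-4/13)` and `n ^ (3/4) / x`. -/
noncomputable def optScale (n : ℕ) (x : ℝ) : ℝ := min (x ^ (-(4/13):ℝ)) ((n:ℝ) ^ (3/4:ℝ) / x)

/-- The rate of the lower tail: `x ^ (8/13) + x ^ 2 / n ^ (3/2)`. -/
noncomputable def tailRate (n : ℕ) (x : ℝ) : ℝ := x ^ (8/13:ℝ) + x ^ 2 / (n:ℝ) ^ (3/2:ℝ)

theorem sc_facts {n : ℕ} {x : ℝ} (hn : 1 ≤ n) (hx : 1 ≤ x) :
    0 < optScale n x ∧ optScale n x ≤ 1 ∧ x * optScale n x ≤ (n:ℝ) ^ (3/4:ℝ) ∧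
    x ^ (4/3:ℝ) * optScale n x ^ (7/3:ℝ) ≤ 1 / optScale n x ^ 2 ∧
    1 / optScale n x ^ 2 ≤ tailRate n x ∧ tailRate n x ≤ 2 * (1 / optScale n x ^ 2) := by
  have hn0 : (0:ℝ) < n := by exact_mod_cast hn
  have hx0 : (0:ℝ) < x := by linarith
  obtain ⟨s1, hs1⟩ : ∃ s1 : ℝ, s1 = x ^ (-(4/13):ℝ) := ⟨_, rfl⟩
  obtain ⟨s2, hs2⟩ : ∃ s2 : ℝ, s2 = (n:ℝ) ^ (3/4:ℝ) / x := ⟨_, rfl⟩
  obtain ⟨s, hs⟩ : ∃ s : ℝ, s = optScale n x := ⟨_, rfl⟩
  have hs' : s = min s1 s2 := by rw [hs, hs1, hs2]; rfl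
  rw [← hs]
  have h10 : 0 < s1 := by rw [hs1]; positivity
  have h20 : 0 < s2 := by rw [hs2]; positivity
  have hs0 : 0 < s := by rw [hs']; exact lt_min h10 h20
  have hss1 : s ≤ s1 := by rw [hs']; exact min_le_left _ _
  have hss2 : s ≤ s2 := by rw [hs']; exact min_le_right _ _
  have h11 : s1 ≤ 1 := by
    rw [hs1]
    exact Real.rpow_le_one_of_one_le_of_nonpos hx (by norm_num)
  have e1 : 1 / s1 ^ 2 = x ^ (8/13:ℝ) := by
    rw [hs1, ← Real.rpow_natCast, ← Real.rpow_mul hx0.le, one_div, ← Real.rpow_neg hx0.le]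
    norm_num
  have e2 : 1 / s2 ^ 2 = x ^ 2 / (n:ℝ) ^ (3/2:ℝ) := by
    rw [hs2, div_pow, one_div, inv_div]
    congr 1
    rw [← Real.rpow_natCast, ← Real.rpow_mul hn0.le]
    norm_num
  have f1 : 1 / s1 ^ 2 ≤ 1 / s ^ 2 := by
    apply one_div_le_one_div_of_le (by positivity)
    exact pow_le_pow_left₀ hs0.le hss1 2
  have f2 : 1 / s2 ^ 2 ≤ 1 / s ^ 2 := by
    apply one_div_le_one_div_of_le (by positivity)
    exact pow_le_pow_left₀ hs0.le hss2 2
  have g1 : 0 < 1 / s1 ^ 2 := by positivity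
  have g2 : 0 < 1 / s2 ^ 2 := by positivity
  refine ⟨hs0, hss1.trans h11, ?_, ?_, ?_, ?_⟩
  · have : s * x ≤ (n:ℝ) ^ (3/4:ℝ) := by
      rw [hs2] at hss2
      rwa [le_div_iff₀ hx0] at hss2
    linarith
  · have h1 : x ^ (4/3:ℝ) * s ^ (13/3:ℝ) ≤ 1 := by
      calc x ^ (4/3:ℝ) * s ^ (13/3:ℝ) ≤ x ^ (4/3:ℝ) * s1 ^ (13/3:ℝ) := by
            apply mul_le_mul_of_nonneg_left _ (by positivity)
            exact Real.rpow_le_rpow hs0.le hss1 (by norm_num)
        _ = 1 := by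
            rw [hs1, ← Real.rpow_mul hx0.le, ← Real.rpow_add hx0]
            norm_num
    have h2 : s ^ (13/3:ℝ) = s ^ (7/3:ℝ) * s ^ 2 := by
      rw [← Real.rpow_natCast, ← Real.rpow_add hs0]
      norm_num
    rw [le_div_iff₀ (by positivity)]
    rw [h2] at h1
    linarith
  · unfold tailRate
    rw [← e1, ← e2, hs']
    rcases min_choice s1 s2 with h | h
    · rw [h]; linarith
    · rw [h]; linarith
  · unfold tailRate
    rw [← e1, ← e2]
    linarith

/-- `n` times the scale is large -/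
theorem sc_big {n : ℕ} {x K : ℝ} (hn : 1 ≤ n) (hx : 1 ≤ x) (hK : 1 ≤ K)
    (hxn : x ≤ (n:ℝ) ^ (7/4:ℝ) / K ^ 4) : K ≤ optScale n x * n := by
  have hn1 : (1:ℝ) ≤ n := by exact_mod_cast hn
  have hn0 : (0:ℝ) < n := by linarith
  have hx0 : (0:ℝ) < x := by linarith
  have hK0 : (0:ℝ) < K := by linarith
  unfold optScale
  rcases min_choice (x ^ (-(4/13):ℝ)) ((n:ℝ) ^ (3/4:ℝ) / x) with h | h
  · rw [h]
    have h1 : x ^ (4/13:ℝ) ≤ ((n:ℝ) ^ (7/4:ℝ) / K ^ 4) ^ (4/13:ℝ) :=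
      Real.rpow_le_rpow hx0.le hxn (by norm_num)
    have h2 : ((n:ℝ) ^ (7/4:ℝ) / K ^ 4) ^ (4/13:ℝ) = (n:ℝ) ^ (7/13:ℝ) / K ^ (16/13:ℝ) := by
      rw [Real.div_rpow (by positivity) (by positivity), ← Real.rpow_mul hn0.le,
        ← Real.rpow_natCast, ← Real.rpow_mul hK0.le]
      norm_num
    have h3 : (n:ℝ) ^ (7/13:ℝ) ≤ n := by
      have := Real.rpow_le_rpow_of_exponent_le hn1 (show (7/13:ℝ) ≤ 1 by norm_num)
      rwa [Real.rpow_one] at this
    have h4 : K ≤ K ^ (16/13:ℝ) := by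
      have := Real.rpow_le_rpow_of_exponent_le hK (show (1:ℝ) ≤ 16/13 by norm_num)
      rwa [Real.rpow_one] at this
    rw [h2, le_div_iff₀ (by positivity)] at h1
    rw [Real.rpow_neg hx0.le, inv_mul_eq_div, le_div_iff₀ (by positivity)]
    have h5 : 0 < x ^ (4/13:ℝ) := by positivity
    nlinarith
  · rw [h, div_mul_eq_mul_div]
    have h1 : (n:ℝ) ^ (3/4:ℝ) * n = (n:ℝ) ^ (7/4:ℝ) := by
      nth_rewrite 2 [← Real.rpow_one (n:ℝ)]
      rw [← Real.rpow_add hn0]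
      norm_num
    rw [h1, le_div_iff₀ hx0]
    rw [le_div_iff₀ (by positivity)] at hxn
    have h2 : K ≤ K ^ 4 := by
      calc K = K ^ 1 := (pow_one K).symm
        _ ≤ K ^ 4 := pow_le_pow_right₀ hK (by norm_num)
    nlinarith

/-! ### The empty configuration -/

theorem empty_low (n : ℕ) (hn : 1 ≤ n) {A : Finset Plain.Edge → Prop} (hA : A ∅) :
    Real.exp (-(8 * (n:ℝ) ^ 2)) ≤ Plain.prob n A := by
  classical
  have h1 : 1 / 2 ^ (Plain.edges n).card ≤ Plain.prob n A := by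
    unfold Plain.prob
    apply div_le_div_of_nonneg_right _ (by positivity)
    rw [Nat.one_le_cast, Nat.succ_le_iff, Finset.card_pos]
    exact ⟨∅, Finset.mem_filter.mpr ⟨Finset.empty_mem_powerset _, hA⟩⟩
  refine le_trans ?_ h1
  have hn1 : (1:ℝ) ≤ n := by exact_mod_cast hn
  have h2 : ((Plain.edges n).card : ℝ) ≤ 8 * (n:ℝ) ^ 2 := by
    rw [Plain.edges_eq]
    refine (TH494.PT.card_RE n).trans ?_
    nlinarith
  rw [one_div, Real.exp_neg]
  apply inv_anti₀ (by positivity)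
  have h3 : (2:ℝ) ^ (Plain.edges n).card = Real.exp (Real.log 2 * (Plain.edges n).card) := by
    rw [mul_comm, Real.exp_nat_mul, Real.exp_log (by norm_num)]
  rw [h3]
  apply Real.exp_le_exp.mpr
  have h4 : Real.log 2 ≤ 1 := by
    have := Real.log_le_sub_one_of_pos (show (0:ℝ) < 2 by norm_num)
    linarith
  have h5 : (0:ℝ) ≤ ((Plain.edges n).card : ℝ) := Nat.cast_nonneg _
  nlinarith

/-! ### Lower bounds -/

theorem plain_joint_low {C0 : ℝ} (hC0 : 0 < C0) (hU : TwoUp C0 (1/4)) : ∃ c C : ℝ, 0 < c ∧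
    c ≤ 1 ∧ 0 < C ∧ ∀ (n : ℕ) (x y : ℝ), 0 < x → 0 < y → y ≤ c → 1 ≤ c * (y * n) →
    x * y ≤ c * (n:ℝ) ^ (3/4:ℝ) →
    Real.exp (-(C * (1 / y ^ 2 + x ^ (4/3:ℝ) * y ^ (7/3:ℝ)))) ≤
      Plain.prob n (fun F => ∀ v, Plain.Largest n F v →
        (Plain.perimeter F v : ℝ) ≤ (n:ℝ) ^ (7/4:ℝ) / x ∧
        DiamGe F v (y * n) ∧ DiamLe F v (4 * (y * n))) := by
  obtain ⟨c, C, hc, hc1, hC, h⟩ := tube_real hC0 hU
  refine ⟨c, C, hc, hc1, hC, ?_⟩
  intro n x y hx hy hyc hcn hxy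
  refine (h n x y hx hy hyc hcn hxy).trans ?_
  rw [Plain.prob_eq]
  refine Pr_mono H984N.two_ok fun F hF hw v hv => ?_
  obtain ⟨h1, h2, a, b, ha, hb, hab⟩ := hw v (Plain.isMax_of_largest hv)
  rw [← Plain.perimeter_eq (by rw [Plain.edges_eq]; exact hF)] at h1
  have hyn : 0 ≤ y * n := by positivity
  refine ⟨h1, ⟨a, (Plain.mem_cluster _ _ _).mpr ha, b, (Plain.mem_cluster _ _ _).mpr hb, ?_⟩, ?_⟩
  · exact Real.le_sqrt_of_sq_le hab
  · intro p hp q hq
    rw [Real.sqrt_le_iff]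
    exact ⟨by positivity, h2 p q ((Plain.mem_cluster _ _ _).mp hp) ((Plain.mem_cluster _ _ _).mp hq)⟩

theorem plain_low {C0 : ℝ} (hC0 : 0 < C0) (hU : TwoUp C0 (1/4)) : ∃ C : ℝ, 0 < C ∧
    ∀ (n : ℕ) (x : ℝ), 1 ≤ n → 1 ≤ x →
    Real.exp (-(C * tailRate n x)) ≤ Plain.prob n (fun F => ∀ v, Plain.Largest n F v →
      (Plain.perimeter F v : ℝ) ≤ (n:ℝ) ^ (7/4:ℝ) / x) := by
  obtain ⟨c, C, hc, hc1, hC, h⟩ := plain_joint_low hC0 hU
  refine ⟨max (C * (1 / c ^ 2 + 1)) (8 / c ^ 4), lt_max_of_lt_right (by positivity), ?_⟩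
  intro n x hn hx
  obtain ⟨h0, h1, h2, h3, h4, h5⟩ := sc_facts hn hx
  obtain ⟨s, hs⟩ : ∃ s : ℝ, s = optScale n x := ⟨_, rfl⟩
  rw [← hs] at h0 h1 h2 h3 h4 h5
  have hn0 : (0:ℝ) < n := by exact_mod_cast hn
  have hx0 : (0:ℝ) < x := by linarith
  have hE0 : 0 < tailRate n x := lt_of_lt_of_le (by positivity) h4
  rcases le_or_gt 1 (c * (c * s * n)) with hb | hb
  · have g1 := h n x (c * s) hx0 (by positivity) (by nlinarith) hb (by nlinarith)
    refine le_trans ?_ (g1.trans ?_)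
    · apply Real.exp_le_exp.mpr
      have g2 : 1 / (c * s) ^ 2 = 1 / c ^ 2 * (1 / s ^ 2) := by
        rw [mul_pow]; field_simp
      have g3 : (c * s) ^ (7/3:ℝ) ≤ s ^ (7/3:ℝ) :=
        Real.rpow_le_rpow (by positivity) (by nlinarith) (by norm_num)
      have g4 : x ^ (4/3:ℝ) * (c * s) ^ (7/3:ℝ) ≤ 1 / s ^ 2 :=
        (mul_le_mul_of_nonneg_left g3 (by positivity)).trans h3
      have g5 : 1 / (c * s) ^ 2 + x ^ (4/3:ℝ) * (c * s) ^ (7/3:ℝ) ≤
          (1 / c ^ 2 + 1) * (1 / s ^ 2) := by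
        rw [g2]; linarith
      have g6 : C * (1 / (c * s) ^ 2 + x ^ (4/3:ℝ) * (c * s) ^ (7/3:ℝ)) ≤
          C * (1 / c ^ 2 + 1) * tailRate n x := by
        rw [mul_assoc]
        apply mul_le_mul_of_nonneg_left _ hC.le
        refine g5.trans ?_
        exact mul_le_mul_of_nonneg_left h4 (by positivity)
      have g7 : C * (1 / c ^ 2 + 1) * tailRate n x ≤
          max (C * (1 / c ^ 2 + 1)) (8 / c ^ 4) * tailRate n x :=
        mul_le_mul_of_nonneg_right (le_max_left _ _) hE0.le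
      linarith
    · exact TH494.PT.prob_mono fun F _ hw v hv => (hw v hv).1
  · refine le_trans ?_ (empty_low n hn ?_)
    · apply Real.exp_le_exp.mpr
      have g1 : c ^ 2 * (s * n) < 1 := by nlinarith
      have g2 : (c ^ 2 * (s * n)) ^ 2 ≤ 1 := by
        apply pow_le_one₀ (by positivity) g1.le
      have g3 : 8 * (n:ℝ) ^ 2 ≤ 8 / c ^ 4 * (1 / s ^ 2) := by
        rw [div_mul_div_comm, le_div_iff₀ (by positivity)]
        nlinarith
      have g4 : 8 / c ^ 4 * (1 / s ^ 2) ≤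
          max (C * (1 / c ^ 2 + 1)) (8 / c ^ 4) * tailRate n x := by
        apply mul_le_mul (le_max_right _ _) h4 (by positivity)
        exact le_trans (by positivity) (le_max_right _ _)
      linarith
    · intro v _
      unfold Plain.perimeter
      simp only [Finset.sum_empty, Nat.cast_zero]
      positivity

/-! ### Upper bounds -/

theorem plain_thin : ∃ c C : ℝ, 0 < c ∧ 0 < C ∧ ∀ (n : ℕ) (x y : ℝ), 1 ≤ n → 0 < x → 0 < y →
    Plain.prob n (fun F => ∃ v, DiamGe F v (y * n) ∧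
      (Plain.perimeter F v : ℝ) ≤ (n:ℝ) ^ (7/4:ℝ) / x) ≤
      C * (1 / y ^ 2) * Real.exp (-(c * (x ^ (4/3:ℝ) * y ^ (7/3:ℝ)))) := by
  obtain ⟨c, C, hc, hC, h⟩ := thin_up
  refine ⟨c, C, hc, hC, fun n x y hn hx hy => le_trans ?_ (h n x y hn hx hy)⟩
  refine Plain.prob_le_of_pr fun F hF => ?_
  rintro ⟨v, ⟨a, ha, b, hb, hab⟩, hp⟩
  refine ⟨v, a, b, (Plain.mem_cluster _ _ _).mp ha, (Plain.mem_cluster _ _ _).mp hb, ?_, ?_⟩
  · have h0 : 0 ≤ y * n := by positivity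
    have h1 : (0:ℝ) ≤ (Plain.sqDist a b : ℝ) := by
      unfold Plain.sqDist; push_cast; positivity
    have h2 := pow_le_pow_left₀ h0 hab 2
    rw [Real.sq_sqrt h1] at h2
    exact h2
  · rwa [← Plain.perimeter_eq hF]

theorem plain_small : ∃ c C : ℝ, 0 < c ∧ 0 < C ∧ ∀ (n : ℕ) (y : ℝ), 0 < y → 1 ≤ y * n →
    Plain.prob n (fun F => ∃ v, Plain.Largest n F v ∧ ¬ DiamGe F v (y * n)) ≤
      C * Real.exp (-(c / y ^ 2)) := by
  obtain ⟨c, C, hc, hC, h⟩ := small_up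
  refine ⟨c, C, hc, hC, fun n y hy hyn => le_trans ?_ (h n y hy hyn)⟩
  refine Plain.prob_le_of_pr fun F hF => ?_
  rintro ⟨v, ⟨-, a, ha, b, hb, hmax⟩, hD⟩ p q hp hq hpq
  unfold DiamGe at hD
  push Not at hD
  have h1 := hD a ha b hb
  have h2 : Plain.sqDist p q ≤ Plain.sqDist a b := by
    refine hmax p ?_ q ?_ ((Plain.mem_cluster _ _ _).mpr hpq)
    · unfold Plain.box; rw [Finset.mem_product, Finset.mem_Icc, Finset.mem_Icc]; unfold inR at hp; omega
    · unfold Plain.box; rw [Finset.mem_product, Finset.mem_Icc, Finset.mem_Icc]; unfold inR at hq; omega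
  have h3 : (dsq p q : ℝ) ≤ (Plain.sqDist a b : ℝ) := by exact_mod_cast h2
  have h4 : (Plain.sqDist a b : ℝ) < (y * n) ^ 2 := by
    rw [Real.sqrt_lt' (by positivity)] at h1
    exact h1
  linarith

/-- a cluster of small perimeter has a small diameter -/
theorem det_diam {n : ℕ} {F : Finset Edg} (hF : F ⊆ RE 0 n 0 n) {v a b : Vtx} {p : ℝ}
    (hp1 : 1 ≤ p) (ha : Reach (↑F : Set Edg) v a) (hb : Reach (↑F : Set Edg) v b)
    (hp : (per n (↑F) v : ℝ) ≤ p) : (dsq a b : ℝ) ≤ (28 * p) ^ 2 := by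
  by_contra hcon
  push Not at hcon
  obtain ⟨m, hm⟩ : ∃ m : ℤ, m = ⌊8 * p⌋ + 1 := ⟨_, rfl⟩
  have h1 : (m:ℝ) ≤ 8 * p + 1 := by
    rw [hm]; push_cast
    have := Int.floor_le (8 * p)
    linarith
  have h2 : 8 * p < m := by
    rw [hm]; push_cast
    exact Int.lt_floor_add_one _
  have hm0 : (1:ℤ) ≤ m := by
    have : (0:ℝ) < m := by linarith
    have : (0:ℤ) < m := by exact_mod_cast this
    omega
  have h8 : 8 * m ^ 2 ≤ dsq a b := by
    have : (8 * (m:ℝ) ^ 2) ≤ (dsq a b : ℝ) := by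
      have h9 : (m:ℝ) ≤ 9 * p := by linarith
      have h10 : (m:ℝ) ^ 2 ≤ (9 * p) ^ 2 := pow_le_pow_left₀ (by linarith) h9 2
      nlinarith
    exact_mod_cast this
  have h3 := fastO_le (per_fast hF hm0 ha hb h8)
  have h4 : (m:ℝ) ≤ 8 * (per n (↑F) v : ℝ) := by exact_mod_cast h3
  linarith

theorem exp_t {a t : ℝ} (ha : 0 < a) : t * Real.exp (-(a * t)) ≤ 2 / a * Real.exp (-(a / 2 * t)) := by
  have h1 : a / 2 * t ≤ Real.exp (a / 2 * t) := by
    have := Real.add_one_le_exp (a / 2 * t)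
    linarith
  have h2 : Real.exp (-(a * t)) = Real.exp (-(a / 2 * t)) * Real.exp (-(a / 2 * t)) := by
    rw [← Real.exp_add]; congr 1; ring
  have h3 : Real.exp (a / 2 * t) * Real.exp (-(a / 2 * t)) = 1 := by
    rw [← Real.exp_add, add_neg_cancel, Real.exp_zero]
  have h4 := Real.exp_pos (-(a / 2 * t))
  have h5 : a / 2 * t * Real.exp (-(a / 2 * t)) ≤ 1 := by
    rw [← h3]
    exact mul_le_mul_of_nonneg_right h1 h4.le
  have h6 : t * Real.exp (-(a / 2 * t)) ≤ 2 / a := by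
    rw [le_div_iff₀ ha]
    linarith
  calc t * Real.exp (-(a * t)) = (t * Real.exp (-(a / 2 * t))) * Real.exp (-(a / 2 * t)) := by
        rw [h2]; ring
    _ ≤ 2 / a * Real.exp (-(a / 2 * t)) := mul_le_mul_of_nonneg_right h6 h4.le

/-- the exponent in the two regimes -/
theorem sc_regime {n : ℕ} {x : ℝ} (hn : 1 ≤ n) (hx : 1 ≤ x) :
    (x ^ (4/3:ℝ) * optScale n x ^ (7/3:ℝ) = 1 / optScale n x ^ 2) ∨
      (n:ℝ) ^ (7/4:ℝ) / x = optScale n x * n := by
  have hn0 : (0:ℝ) < n := by exact_mod_cast hn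
  have hx0 : (0:ℝ) < x := by linarith
  unfold optScale
  rcases min_choice (x ^ (-(4/13):ℝ)) ((n:ℝ) ^ (3/4:ℝ) / x) with h | h
  · left
    rw [h, one_div, ← Real.rpow_natCast, ← Real.rpow_mul hx0.le, ← Real.rpow_mul hx0.le,
      ← Real.rpow_neg hx0.le, ← Real.rpow_add hx0]
    norm_num
  · right
    rw [h, div_mul_eq_mul_div]
    congr 1
    nth_rewrite 3 [← Real.rpow_one (n:ℝ)]
    rw [← Real.rpow_add hn0]
    norm_num

theorem plain_up : ∃ c C : ℝ, 0 < c ∧ 0 < C ∧ ∀ (n : ℕ) (x : ℝ), 1 ≤ n → 1 ≤ x →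
    x ≤ (n:ℝ) ^ (7/4:ℝ) →
    Plain.prob n (fun F => ∃ v, Plain.Largest n F v ∧
      (Plain.perimeter F v : ℝ) ≤ (n:ℝ) ^ (7/4:ℝ) / x) ≤ C * Real.exp (-(c * tailRate n x)) := by
  obtain ⟨c1, C1, hc1, hC1, hsm⟩ := plain_small
  obtain ⟨c2, C2, hc2, hC2, hth⟩ := plain_thin
  obtain ⟨c, hc⟩ : ∃ c : ℝ, c = min (c1 / 841) (c2 / 2) / 2 := ⟨_, rfl⟩
  have hc0 : 0 < c := by
    rw [hc]
    have : 0 < min (c1 / 841) (c2 / 2) := lt_min (by positivity) (by positivity)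
    linarith
  have hca : 2 * c ≤ c1 / 841 := by
    rw [hc]; have := min_le_left (c1 / 841) (c2 / 2); linarith
  have hcb : 2 * c ≤ c2 / 2 := by
    rw [hc]; have := min_le_right (c1 / 841) (c2 / 2); linarith
  refine ⟨c, C1 + C2 * (2 / c2), hc0, by positivity, ?_⟩
  intro n x hn hx hxn
  obtain ⟨h0, h1, h2, h3, h4, h5⟩ := sc_facts hn hx
  have hbig := sc_big (K := 1) hn hx le_rfl (by simpa using hxn)
  have hreg := sc_regime hn hx
  obtain ⟨s, hs⟩ : ∃ s : ℝ, s = optScale n x := ⟨_, rfl⟩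
  rw [← hs] at h0 h1 h2 h3 h4 h5 hbig hreg
  obtain ⟨t, ht⟩ : ∃ t : ℝ, t = 1 / s ^ 2 := ⟨_, rfl⟩
  have ht0 : 0 < t := by rw [ht]; positivity
  rw [← ht] at h4 h5 hreg
  have hn0 : (0:ℝ) < n := by exact_mod_cast hn
  have hx0 : (0:ℝ) < x := by linarith
  have hexp : ∀ {u : ℝ}, 2 * c ≤ u → Real.exp (-(u * t)) ≤ Real.exp (-(c * tailRate n x)) := by
    intro u hu
    apply Real.exp_le_exp.mpr
    have k1 : c * tailRate n x ≤ c * (2 * t) := mul_le_mul_of_nonneg_left h5 hc0.le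
    have k2 : 2 * c * t ≤ u * t := mul_le_mul_of_nonneg_right hu ht0.le
    linarith
  have hE := Real.exp_pos (-(c * tailRate n x))
  rcases hreg with hr | hr
  · have k1 : Plain.prob n (fun F => ∃ v, Plain.Largest n F v ∧
        (Plain.perimeter F v : ℝ) ≤ (n:ℝ) ^ (7/4:ℝ) / x) ≤
        Plain.prob n (fun F => ∃ v, Plain.Largest n F v ∧ ¬ DiamGe F v (s * n)) +
        Plain.prob n (fun F => ∃ v, DiamGe F v (s * n) ∧
          (Plain.perimeter F v : ℝ) ≤ (n:ℝ) ^ (7/4:ℝ) / x) := by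
      rw [Plain.prob_eq, Plain.prob_eq, Plain.prob_eq]
      refine le_trans ?_ (Pr_or_le H984N.two_ok _ _ _)
      refine Pr_mono H984N.two_ok fun F _ hF => ?_
      obtain ⟨v, hv, hp⟩ := hF
      by_cases hd : DiamGe F v (s * n)
      · exact Or.inr ⟨v, hd, hp⟩
      · exact Or.inl ⟨v, hv, hd⟩
    have k2 := hsm n s h0 hbig
    have k3 := hth n x s hn hx0 h0
    rw [hr] at k3
    have k4 : c1 / s ^ 2 = c1 * t := by rw [ht]; ring
    rw [k4] at k2
    rw [← ht] at k3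
    have k5 : C2 * t * Real.exp (-(c2 * t)) ≤ C2 * (2 / c2) * Real.exp (-(c * tailRate n x)) := by
      rw [mul_assoc, mul_assoc]
      apply mul_le_mul_of_nonneg_left _ hC2.le
      refine (exp_t hc2).trans ?_
      apply mul_le_mul_of_nonneg_left _ (by positivity)
      exact hexp hcb
    have k6 : C1 * Real.exp (-(c1 * t)) ≤ C1 * Real.exp (-(c * tailRate n x)) := by
      apply mul_le_mul_of_nonneg_left _ hC1.le
      apply hexp
      have : c1 / 841 ≤ c1 := div_le_self hc1.le (by norm_num)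
      linarith
    linarith
  · have k1 : Plain.prob n (fun F => ∃ v, Plain.Largest n F v ∧
        (Plain.perimeter F v : ℝ) ≤ (n:ℝ) ^ (7/4:ℝ) / x) ≤
        Plain.prob n (fun F => ∃ v, Plain.Largest n F v ∧ ¬ DiamGe F v (29 * s * n)) := by
      refine TH494.PT.prob_mono fun F hF hw => ?_
      obtain ⟨v, hv, hp⟩ := hw
      refine ⟨v, hv, ?_⟩
      rintro ⟨a, ha, b, hb, hab⟩
      rw [hr, Plain.perimeter_eq hF] at hp
      have k2 := det_diam (by rw [← Plain.edges_eq]; exact hF) hbig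
        ((Plain.mem_cluster _ _ _).mp ha) ((Plain.mem_cluster _ _ _).mp hb) hp
      have k3 : Real.sqrt (Plain.sqDist a b : ℝ) ≤ 28 * (s * n) := by
        rw [Real.sqrt_le_iff]
        exact ⟨by positivity, k2⟩
      nlinarith
    have k2 := hsm n (29 * s) (by positivity) (by nlinarith)
    have k4 : c1 / (29 * s) ^ 2 = c1 / 841 * t := by rw [ht]; field_simp; norm_num
    rw [k4] at k2
    have k5 : C1 * Real.exp (-(c1 / 841 * t)) ≤ C1 * Real.exp (-(c * tailRate n x)) :=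
      mul_le_mul_of_nonneg_left (hexp hca) hC1.le
    have k6 : 0 ≤ C2 * (2 / c2) * Real.exp (-(c * tailRate n x)) := by positivity
    linarith

/-- the scale of the diameter of a largest cluster of small perimeter -/
theorem plain_scale {A : ℝ} (hA : 0 < A) : ∃ K : ℝ, 1 ≤ K ∧ ∀ (n : ℕ) (x : ℝ), 1 ≤ n → 1 ≤ x →
    x ≤ (n:ℝ) ^ (7/4:ℝ) / K ^ 4 →
    Plain.prob n (fun F => ∃ v, Plain.Largest n F v ∧
      (Plain.perimeter F v : ℝ) ≤ (n:ℝ) ^ (7/4:ℝ) / x ∧
      ¬ (DiamGe F v (optScale n x * n / K) ∧ DiamLe F v (K * (optScale n x * n)))) ≤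
      Real.exp (-(A * tailRate n x)) := by
  obtain ⟨c1, C1, hc1, hC1, hsm⟩ := plain_small
  obtain ⟨c2, C2, hc2, hC2, hth⟩ := plain_thin
  obtain ⟨K, hK⟩ : ∃ K : ℝ, K = 29 + (2 * A + 2 * C1) / c1 + (2 * A + 2 * C2) / c2 := ⟨_, rfl⟩
  have q1 : 0 < (2 * A + 2 * C1) / c1 := by positivity
  have q2 : 0 < (2 * A + 2 * C2) / c2 := by positivity
  have hK1 : 1 ≤ K := by rw [hK]; linarith
  have hK29 : 29 ≤ K := by rw [hK]; linarith
  have hK0 : 0 < K := by linarith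
  have hKK : K ≤ K ^ 2 := by nlinarith
  have hKa : 2 * A + 2 * C1 ≤ c1 * K ^ 2 := by
    have : (2 * A + 2 * C1) / c1 ≤ K ^ 2 := by
      have : (2 * A + 2 * C1) / c1 ≤ K := by rw [hK]; linarith
      linarith
    rw [div_le_iff₀ hc1] at this
    linarith
  have hKb : 2 * A + 2 * C2 ≤ c2 * K ^ 2 := by
    have : (2 * A + 2 * C2) / c2 ≤ K ^ 2 := by
      have : (2 * A + 2 * C2) / c2 ≤ K := by rw [hK]; linarith
      linarith
    rw [div_le_iff₀ hc2] at this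
    linarith
  refine ⟨K, hK1, ?_⟩
  intro n x hn hx hxn
  obtain ⟨h0, h1, h2, h3, h4, h5⟩ := sc_facts hn hx
  have hbig := sc_big hn hx hK1 hxn
  have hreg := sc_regime hn hx
  obtain ⟨s, hs⟩ : ∃ s : ℝ, s = optScale n x := ⟨_, rfl⟩
  rw [← hs] at h0 h1 h2 h3 h4 h5 hbig hreg ⊢
  obtain ⟨t, ht⟩ : ∃ t : ℝ, t = 1 / s ^ 2 := ⟨_, rfl⟩
  have ht1 : 1 ≤ t := by
    rw [ht, le_div_iff₀ (by positivity), one_mul]
    exact pow_le_one₀ h0.le h1
  have ht0 : 0 < t := by linarith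
  rw [← ht] at h4 h5 hreg
  have hn0 : (0:ℝ) < n := by exact_mod_cast hn
  have hx0 : (0:ℝ) < x := by linarith
  -- the first bound
  have b1 : C1 * Real.exp (-(c1 / (s / K) ^ 2)) ≤ 1/2 * Real.exp (-(2 * A * t)) := by
    have k1 : c1 / (s / K) ^ 2 = c1 * K ^ 2 * t := by rw [ht]; field_simp
    rw [k1]
    have k2 : (2 * A + 2 * C1) * t ≤ c1 * K ^ 2 * t := mul_le_mul_of_nonneg_right hKa ht0.le
    have k3 : Real.exp (-(c1 * K ^ 2 * t)) ≤
        Real.exp (-(2 * C1 * t)) * Real.exp (-(2 * A * t)) := by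
      rw [← Real.exp_add]
      apply Real.exp_le_exp.mpr
      linarith
    have k4 : 2 * C1 * Real.exp (-(2 * C1 * t)) ≤ 1 := by
      have k5 : 2 * C1 ≤ Real.exp (2 * C1 * t) := by
        have := Real.add_one_le_exp (2 * C1 * t)
        nlinarith
      rw [Real.exp_neg, ← div_eq_mul_inv, div_le_one (Real.exp_pos _)]
      exact k5
    have k6 := Real.exp_pos (-(2 * A * t))
    calc C1 * Real.exp (-(c1 * K ^ 2 * t)) ≤
          C1 * (Real.exp (-(2 * C1 * t)) * Real.exp (-(2 * A * t))) :=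
            mul_le_mul_of_nonneg_left k3 hC1.le
      _ = 1/2 * (2 * C1 * Real.exp (-(2 * C1 * t))) * Real.exp (-(2 * A * t)) := by ring
      _ ≤ 1/2 * 1 * Real.exp (-(2 * A * t)) := by gcongr
      _ = _ := by ring
  have hfin : Real.exp (-(2 * A * t)) ≤ Real.exp (-(A * tailRate n x)) := by
    apply Real.exp_le_exp.mpr
    have : A * tailRate n x ≤ A * (2 * t) := mul_le_mul_of_nonneg_left h5 hA.le
    linarith
  have hs1 := hsm n (s / K) (by positivity) (by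
    rw [div_mul_eq_mul_div, le_div_iff₀ hK0]; linarith)
  have hsplit : Plain.prob n (fun F => ∃ v, Plain.Largest n F v ∧
      (Plain.perimeter F v : ℝ) ≤ (n:ℝ) ^ (7/4:ℝ) / x ∧
      ¬ (DiamGe F v (s * n / K) ∧ DiamLe F v (K * (s * n)))) ≤
      Plain.prob n (fun F => ∃ v, Plain.Largest n F v ∧ ¬ DiamGe F v (s / K * n)) +
      Plain.prob n (fun F => ∃ v, (Plain.perimeter F v : ℝ) ≤ (n:ℝ) ^ (7/4:ℝ) / x ∧
        ¬ DiamLe F v (K * (s * n))) := by
    rw [Plain.prob_eq, Plain.prob_eq, Plain.prob_eq]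
    refine le_trans ?_ (Pr_or_le H984N.two_ok _ _ _)
    refine Pr_mono H984N.two_ok fun F _ hF => ?_
    obtain ⟨v, hv, hp, hnot⟩ := hF
    by_cases hd : DiamGe F v (s * n / K)
    · right
      refine ⟨v, hp, fun h => hnot ⟨hd, h⟩⟩
    · left
      refine ⟨v, hv, ?_⟩
      rwa [div_mul_eq_mul_div]
  have b2 : Plain.prob n (fun F => ∃ v, (Plain.perimeter F v : ℝ) ≤ (n:ℝ) ^ (7/4:ℝ) / x ∧
        ¬ DiamLe F v (K * (s * n))) ≤ 1/2 * Real.exp (-(2 * A * t)) := by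
    rcases hreg with hr | hr
    · have k1 : Plain.prob n (fun F => ∃ v, (Plain.perimeter F v : ℝ) ≤ (n:ℝ) ^ (7/4:ℝ) / x ∧
          ¬ DiamLe F v (K * (s * n))) ≤
          Plain.prob n (fun F => ∃ v, DiamGe F v (K * s * n) ∧
            (Plain.perimeter F v : ℝ) ≤ (n:ℝ) ^ (7/4:ℝ) / x) := by
        refine TH494.PT.prob_mono fun F _ hw => ?_
        obtain ⟨v, hp, hd⟩ := hw
        unfold DiamLe at hd
        push Not at hd
        obtain ⟨a, ha, b, hb, hab⟩ := hd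
        refine ⟨v, ⟨a, ha, b, hb, ?_⟩, hp⟩
        rw [mul_assoc]
        exact hab.le
      refine k1.trans ((hth n x (K * s) hn hx0 (by positivity)).trans ?_)
      have k2 : x ^ (4/3:ℝ) * (K * s) ^ (7/3:ℝ) = K ^ (7/3:ℝ) * t := by
        rw [Real.mul_rpow hK0.le h0.le, ← hr]
        ring
      have k3 : K ^ 2 ≤ K ^ (7/3:ℝ) := by
        rw [← Real.rpow_natCast]
        exact Real.rpow_le_rpow_of_exponent_le hK1 (by norm_num)
      have k4 : 1 / (K * s) ^ 2 ≤ t := by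
        rw [ht]
        apply one_div_le_one_div_of_le (by positivity)
        apply pow_le_pow_left₀ h0.le
        nlinarith
      rw [k2]
      have k5 : Real.exp (-(c2 * (K ^ (7/3:ℝ) * t))) ≤
          Real.exp (-(2 * C2 * t)) * Real.exp (-(2 * A * t)) := by
        rw [← Real.exp_add]
        apply Real.exp_le_exp.mpr
        have k6 : (2 * A + 2 * C2) * t ≤ c2 * K ^ 2 * t := mul_le_mul_of_nonneg_right hKb ht0.le
        have k7 : c2 * K ^ 2 * t ≤ c2 * (K ^ (7/3:ℝ) * t) := by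
          rw [mul_assoc]
          apply mul_le_mul_of_nonneg_left _ hc2.le
          exact mul_le_mul_of_nonneg_right k3 ht0.le
        linarith
      have k8 : 2 * C2 * t * Real.exp (-(2 * C2 * t)) ≤ 1 := by
        have k9 : 2 * C2 * t ≤ Real.exp (2 * C2 * t) := by
          have := Real.add_one_le_exp (2 * C2 * t)
          linarith
        rw [Real.exp_neg, ← div_eq_mul_inv, div_le_one (Real.exp_pos _)]
        exact k9
      have k10 := Real.exp_pos (-(2 * A * t))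
      calc C2 * (1 / (K * s) ^ 2) * Real.exp (-(c2 * (K ^ (7/3:ℝ) * t))) ≤
            C2 * t * (Real.exp (-(2 * C2 * t)) * Real.exp (-(2 * A * t))) := by
              apply mul_le_mul _ k5 (Real.exp_nonneg _) (by positivity)
              exact mul_le_mul_of_nonneg_left k4 hC2.le
        _ = 1/2 * (2 * C2 * t * Real.exp (-(2 * C2 * t))) * Real.exp (-(2 * A * t)) := by ring
        _ ≤ 1/2 * 1 * Real.exp (-(2 * A * t)) := by gcongr
        _ = _ := by ring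
    · have k1 : Plain.prob n (fun F => ∃ v, (Plain.perimeter F v : ℝ) ≤ (n:ℝ) ^ (7/4:ℝ) / x ∧
          ¬ DiamLe F v (K * (s * n))) ≤ Plain.prob n (fun _ => False) := by
        refine TH494.PT.prob_mono fun F hF hw => ?_
        obtain ⟨v, hp, hd⟩ := hw
        apply hd
        intro a ha b hb
        rw [hr, Plain.perimeter_eq hF] at hp
        have k2 := det_diam (by rw [← Plain.edges_eq]; exact hF) (by linarith)
          ((Plain.mem_cluster _ _ _).mp ha) ((Plain.mem_cluster _ _ _).mp hb) hp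
        have k3 : Real.sqrt (Plain.sqDist a b : ℝ) ≤ 28 * (s * n) := by
          rw [Real.sqrt_le_iff]
          exact ⟨by positivity, k2⟩
        nlinarith
      refine k1.trans ?_
      have k4 : Plain.prob n (fun _ => False) = 0 := by
        unfold Plain.prob
        simp
      rw [k4]
      positivity
  linarith

end Pool.Agent.X135.PL
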