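import Pool.Agent.X135.PL.Final

/-!
The lower tail of the perimeter of the largest cluster: limits, and the rate in the weak form of
the dimension statement.
-/

set_option autoImplicit false

namespace Pool.Agent.X135.PL

open H342P H342P.Plain H342L MeasureTheory Filter Topology

/-- The lower tail passes to the limit. -/
theorem lim_low_tail {c C K : ℝ} (hc : 0 < c) (hC : 0 < C) (hK : 0 < K)
    (hup : ∀ (n : ℕ) (x : ℝ), 1 ≤ n → 1 ≤ x → x ≤ (n:ℝ) ^ (7/4:ℝ) →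
      Plain.prob n (fun F => ∃ v, Plain.Largest n F v ∧
        (Plain.perimeter F v : ℝ) ≤ (n:ℝ) ^ (7/4:ℝ) / x) ≤ C * Real.exp (-(c * tailRate n x)))
    (hlow : ∀ (n : ℕ) (x : ℝ), 1 ≤ n → 1 ≤ x →
      Real.exp (-(K * tailRate n x)) ≤ Plain.prob n (fun F => ∀ v, Plain.Largest n F v →
        (Plain.perimeter F v : ℝ) ≤ (n:ℝ) ^ (7/4:ℝ) / x))
    {sel : ℕ → Finset Plain.Edge → ℤ × ℤ} (hsel : ∀ n F, Plain.Largest n F (sel n F))
    {φ : ℕ → ℕ} (hφ : Tendsto φ atTop atTop) {μ : ProbabilityMeasure ℝ}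
    (hμ : Tendsto (fun i => lawOf (φ i) fun F =>
      (Plain.perimeter F (sel (φ i) F) : ℝ) / (φ i : ℝ) ^ (7/4 : ℝ)) atTop (𝓝 μ))
    {x : ℝ} (hx : 1 ≤ x) :
    ENNReal.ofReal (Real.exp (-(2 * K * x ^ (8/13:ℝ)))) ≤ (μ : Measure ℝ) {y | y ≤ 1 / x} ∧
      (μ : Measure ℝ) {y | y ≤ 1 / x} ≤
        ENNReal.ofReal (max C (Real.exp c) * Real.exp (-(c / 2 * x ^ (8/13:ℝ)))) := by
  have hpos : ∀ᶠ i in atTop, 1 ≤ φ i := hφ.eventually_ge_atTop 1
  have hx0 : 0 < x := by linarith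
  constructor
  · have hG : IsClosed {y : ℝ | y ≤ 1 / x} := isClosed_le continuous_id continuous_const
    have h1 := ProbabilityMeasure.limsup_measure_closed_le_of_tendsto hμ hG
    refine le_trans ?_ h1
    have hev : ∀ᶠ i in atTop, x ^ 2 / x ^ (8/13:ℝ) ≤ (φ i : ℝ) ^ (3/2 : ℝ) := by
      have ht : Tendsto (fun i => (φ i : ℝ) ^ (3/2 : ℝ)) atTop atTop :=
        (tendsto_rpow_atTop (by norm_num)).comp (tendsto_natCast_atTop_atTop.comp hφ)
      exact ht.eventually_ge_atTop _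
    have h2 : ∀ᶠ i in atTop, ENNReal.ofReal (Real.exp (-(2 * K * x ^ (8/13:ℝ)))) ≤
        ((lawOf (φ i) fun F => (Plain.perimeter F (sel (φ i) F) : ℝ) /
          (φ i : ℝ) ^ (7/4 : ℝ) : ProbabilityMeasure ℝ) : Measure ℝ) {y : ℝ | y ≤ 1 / x} := by
      filter_upwards [hpos, hev] with i hi hi2
      rw [lawOf_apply _ _ hG.measurableSet]
      have hi0 : (0:ℝ) < φ i := by exact_mod_cast hi
      have hrate : tailRate (φ i) x ≤ 2 * x ^ (8/13:ℝ) := by
        unfold tailRate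
        have : x ^ 2 / (φ i : ℝ) ^ (3/2:ℝ) ≤ x ^ (8/13:ℝ) := by
          rw [div_le_iff₀ (by positivity)]
          rw [div_le_iff₀ (by positivity)] at hi2
          linarith
        linarith
      refine ENNReal.ofReal_le_ofReal (le_trans ?_ ((hlow (φ i) x hi hx).trans ?_))
      · apply Real.exp_le_exp.mpr
        have := mul_le_mul_of_nonneg_left hrate hK.le
        linarith
      refine TH494.PT.prob_mono fun F _ hF => ?_
      have h3 : (0 : ℝ) < (φ i : ℝ) ^ (7/4 : ℝ) := by positivity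
      simp only [Set.mem_ofPred_eq]
      rw [div_le_iff₀ h3]
      refine (hF _ (hsel _ F)).trans (le_of_eq ?_)
      ring
    calc ENNReal.ofReal (Real.exp (-(2 * K * x ^ (8/13:ℝ)))) =
          limsup (fun _ : ℕ => ENNReal.ofReal (Real.exp (-(2 * K * x ^ (8/13:ℝ))))) atTop :=
            (limsup_const _).symm
      _ ≤ _ := limsup_le_limsup h2
  · rcases lt_or_ge x 2 with hx2 | hx2
    · refine (prob_le_one (μ := (μ : Measure ℝ))).trans ?_
      rw [← ENNReal.ofReal_one]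
      apply ENNReal.ofReal_le_ofReal
      have h1 : x ^ (8/13:ℝ) ≤ 2 := by
        have h2 : x ^ (8/13:ℝ) ≤ x ^ (1:ℝ) :=
          Real.rpow_le_rpow_of_exponent_le hx (by norm_num)
        rw [Real.rpow_one] at h2
        linarith
      have h3 : Real.exp (-c) ≤ Real.exp (-(c / 2 * x ^ (8/13:ℝ))) := by
        apply Real.exp_le_exp.mpr
        nlinarith
      calc (1:ℝ) = Real.exp c * Real.exp (-c) := by
            rw [← Real.exp_add, add_neg_cancel, Real.exp_zero]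
        _ ≤ max C (Real.exp c) * Real.exp (-(c / 2 * x ^ (8/13:ℝ))) :=
            mul_le_mul (le_max_right _ _) h3 (Real.exp_nonneg _)
              (le_trans (Real.exp_nonneg _) (le_max_right _ _))
    · have hG : IsOpen {y : ℝ | y < 2 / x} := isOpen_lt continuous_id continuous_const
      have h1 := ProbabilityMeasure.le_liminf_measure_open_of_tendsto hμ hG
      have h3 : (μ : Measure ℝ) {y | y ≤ 1 / x} ≤ (μ : Measure ℝ) {y | y < 2 / x} :=
        measure_mono fun p hp => by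
          simp only [Set.mem_ofPred_eq] at hp ⊢
          have : 1 / x < 2 / x := div_lt_div_of_pos_right (by norm_num) hx0
          linarith
      refine h3.trans (h1.trans ?_)
      have hev : ∀ᶠ i in atTop, x / 2 ≤ (φ i : ℝ) ^ (7/4 : ℝ) := by
        have ht : Tendsto (fun i => (φ i : ℝ) ^ (7/4 : ℝ)) atTop atTop :=
          (tendsto_rpow_atTop (by norm_num)).comp (tendsto_natCast_atTop_atTop.comp hφ)
        exact ht.eventually_ge_atTop _
      have h2 : ∀ᶠ i in atTop, ((lawOf (φ i) fun F => (Plain.perimeter F (sel (φ i) F) : ℝ) /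
            (φ i : ℝ) ^ (7/4 : ℝ) : ProbabilityMeasure ℝ) : Measure ℝ) {y : ℝ | y < 2 / x} ≤
          ENNReal.ofReal (max C (Real.exp c) * Real.exp (-(c / 2 * x ^ (8/13:ℝ)))) := by
        filter_upwards [hpos, hev] with i hi hi2
        rw [lawOf_apply _ _ hG.measurableSet]
        refine ENNReal.ofReal_le_ofReal ?_
        have h4 := hup (φ i) (x / 2) hi (by linarith) hi2
        have h5 : 1/2 * x ^ (8/13:ℝ) ≤ tailRate (φ i) (x / 2) := by
          unfold tailRate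
          have h6 : 1/2 * x ^ (8/13:ℝ) ≤ (x / 2) ^ (8/13:ℝ) := by
            rw [div_eq_mul_one_div x 2, Real.mul_rpow hx0.le (by norm_num), mul_comm]
            apply mul_le_mul_of_nonneg_left _ (by positivity)
            have := Real.rpow_le_rpow_of_exponent_ge (show (0:ℝ) < 1/2 by norm_num)
              (by norm_num) (show (8/13:ℝ) ≤ 1 by norm_num)
            rwa [Real.rpow_one] at this
          have h7 : 0 ≤ (x / 2) ^ 2 / (φ i : ℝ) ^ (3/2:ℝ) := by positivity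
          linarith
        refine le_trans (le_trans ?_ h4) ?_
        · refine TH494.PT.prob_mono fun F _ hF => ⟨_, hsel _ F, ?_⟩
          have h3 : (0 : ℝ) < (φ i : ℝ) ^ (7/4 : ℝ) :=
            Real.rpow_pos_of_pos (by exact_mod_cast hi) _
          simp only [Set.mem_ofPred_eq] at hF
          rw [div_lt_iff₀ h3] at hF
          refine hF.le.trans (le_of_eq ?_)
          field_simp
        · apply mul_le_mul (le_max_left _ _) _ (Real.exp_nonneg _)
            (hC.le.trans (le_max_left _ _))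
          apply Real.exp_le_exp.mpr
          have := mul_le_mul_of_nonneg_left h5 hc.le
          linarith
      calc liminf (fun i => ((lawOf (φ i) fun F => (Plain.perimeter F (sel (φ i) F) : ℝ) /
            (φ i : ℝ) ^ (7/4 : ℝ) : ProbabilityMeasure ℝ) : Measure ℝ) {y : ℝ | y < 2 / x}) atTop ≤
            liminf (fun _ : ℕ => ENNReal.ofReal (max C (Real.exp c) *
              Real.exp (-(c / 2 * x ^ (8/13:ℝ))))) atTop := liminf_le_liminf h2
        _ = _ := liminf_const _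

/-- The rate in the weak form of the dimension statement. -/
theorem weak_rate {c C K c1 C1 : ℝ} (hC : 0 < C) (hc1 : 0 < c1) (hC1 : 0 < C1)
    (hup : ∀ (n : ℕ) (x : ℝ), 1 ≤ n → 1 ≤ x → x ≤ (n:ℝ) ^ (7/4:ℝ) →
      Plain.prob n (fun F => ∃ v, Plain.Largest n F v ∧
        (Plain.perimeter F v : ℝ) ≤ (n:ℝ) ^ (7/4:ℝ) / x) ≤ C * Real.exp (-(c * tailRate n x)))
    (hlow : ∀ (n : ℕ) (x : ℝ), 1 ≤ n → 1 ≤ x →
      Real.exp (-(K * tailRate n x)) ≤ Plain.prob n (fun F => ∀ v, Plain.Largest n F v →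
        (Plain.perimeter F v : ℝ) ≤ (n:ℝ) ^ (7/4:ℝ) / x))
    (htop : ∀ n : ℕ, 1 ≤ n → ∀ x : ℝ, 0 ≤ x → Plain.prob n (fun F => ∃ v, Plain.Largest n F v ∧
        x * (n : ℝ) ^ (7/4 : ℝ) ≤ (Plain.perimeter F v : ℝ)) ≤ C1 * Real.exp (-(c1 * x ^ 8)))
    (n : ℕ) (ε : ℝ) (hn : 1 ≤ n) (hε : 0 ≤ ε) (hε2 : ε ≤ 7/4) :
    Real.exp (-(K * ((n:ℝ) ^ (8/13 * ε) + (n:ℝ) ^ (2 * ε - 3/2)))) ≤
      Plain.prob n (fun F => ∀ v, Plain.Largest n F v → ¬ ((n:ℝ) ^ (7/4 - ε) <
        (Plain.perimeter F v : ℝ) ∧ (Plain.perimeter F v : ℝ) < (n:ℝ) ^ (7/4 + ε))) ∧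
    Plain.prob n (fun F => ∃ v, Plain.Largest n F v ∧ ¬ ((n:ℝ) ^ (7/4 - ε) <
        (Plain.perimeter F v : ℝ) ∧ (Plain.perimeter F v : ℝ) < (n:ℝ) ^ (7/4 + ε))) ≤
      (C + C1) * Real.exp (-(min c (c1 / 2) * ((n:ℝ) ^ (8/13 * ε) + (n:ℝ) ^ (2 * ε - 3/2)))) := by
  have hn1 : (1:ℝ) ≤ n := by exact_mod_cast hn
  have hn0 : (0:ℝ) < n := by linarith
  have hx1 : 1 ≤ (n:ℝ) ^ ε := Real.one_le_rpow hn1 hε
  have hx2 : (n:ℝ) ^ ε ≤ (n:ℝ) ^ (7/4:ℝ) := Real.rpow_le_rpow_of_exponent_le hn1 hε2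
  have e1 : tailRate n ((n:ℝ) ^ ε) = (n:ℝ) ^ (8/13 * ε) + (n:ℝ) ^ (2 * ε - 3/2) := by
    unfold tailRate
    rw [← Real.rpow_mul hn0.le, ← Real.rpow_natCast, ← Real.rpow_mul hn0.le,
      ← Real.rpow_sub hn0]
    congr 2
    · ring
    · push_cast; ring
  have e2 : (n:ℝ) ^ (7/4:ℝ) / (n:ℝ) ^ ε = (n:ℝ) ^ (7/4 - ε) := by rw [← Real.rpow_sub hn0]
  have e3 : (n:ℝ) ^ ε * (n:ℝ) ^ (7/4:ℝ) = (n:ℝ) ^ (7/4 + ε) := by
    rw [← Real.rpow_add hn0]; congr 1; ring
  have l1 := hlow n _ hn hx1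
  have u1 := hup n _ hn hx1 hx2
  have t1 := htop n hn _ (by positivity : (0:ℝ) ≤ (n:ℝ) ^ ε)
  rw [e1, e2] at l1 u1
  rw [e3] at t1
  obtain ⟨W, hW⟩ : ∃ W : ℝ, W = (n:ℝ) ^ (8/13 * ε) + (n:ℝ) ^ (2 * ε - 3/2) := ⟨_, rfl⟩
  rw [← hW] at l1 u1 ⊢
  have hW0 : 0 < W := by rw [hW]; positivity
  have hW2 : W ≤ 2 * ((n:ℝ) ^ ε) ^ 8 := by
    have h1 : ((n:ℝ) ^ ε) ^ 8 = (n:ℝ) ^ (8 * ε) := by
      rw [← Real.rpow_natCast, ← Real.rpow_mul hn0.le]
      congr 1
      push_cast; ring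
    have h2 : (n:ℝ) ^ (8/13 * ε) ≤ (n:ℝ) ^ (8 * ε) :=
      Real.rpow_le_rpow_of_exponent_le hn1 (by linarith)
    have h3 : (n:ℝ) ^ (2 * ε - 3/2) ≤ (n:ℝ) ^ (8 * ε) :=
      Real.rpow_le_rpow_of_exponent_le hn1 (by linarith)
    rw [h1, hW]
    linarith
  constructor
  · refine l1.trans (TH494.PT.prob_mono fun F _ hF v hv h => ?_)
    have := hF v hv
    linarith [h.1]
  · have k1 : Plain.prob n (fun F => ∃ v, Plain.Largest n F v ∧ ¬ ((n:ℝ) ^ (7/4 - ε) <
        (Plain.perimeter F v : ℝ) ∧ (Plain.perimeter F v : ℝ) < (n:ℝ) ^ (7/4 + ε))) ≤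
        Plain.prob n (fun F => ∃ v, Plain.Largest n F v ∧
          (Plain.perimeter F v : ℝ) ≤ (n:ℝ) ^ (7/4 - ε)) +
        Plain.prob n (fun F => ∃ v, Plain.Largest n F v ∧
          (n:ℝ) ^ (7/4 + ε) ≤ (Plain.perimeter F v : ℝ)) := by
      rw [Plain.prob_eq, Plain.prob_eq, Plain.prob_eq]
      refine le_trans ?_ (H974.Pr_or_le H984N.two_ok _ _ _)
      refine H974.Pr_mono H984N.two_ok fun F _ hF => ?_
      obtain ⟨v, hv, hp⟩ := hF
      rcases le_or_gt (Plain.perimeter F v : ℝ) ((n:ℝ) ^ (7/4 - ε)) with h | h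
      · exact Or.inl ⟨v, hv, h⟩
      · right
        refine ⟨v, hv, ?_⟩
        by_contra hcon
        exact hp ⟨h, not_le.mp hcon⟩
    have hm1 : min c (c1 / 2) ≤ c := min_le_left _ _
    have hm2 : min c (c1 / 2) ≤ c1 / 2 := min_le_right _ _
    have k2 : C * Real.exp (-(c * W)) ≤ C * Real.exp (-(min c (c1 / 2) * W)) := by
      apply mul_le_mul_of_nonneg_left _ hC.le
      apply Real.exp_le_exp.mpr
      have := mul_le_mul_of_nonneg_right hm1 hW0.le
      linarith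
    have k3 : C1 * Real.exp (-(c1 * ((n:ℝ) ^ ε) ^ 8)) ≤
        C1 * Real.exp (-(min c (c1 / 2) * W)) := by
      apply mul_le_mul_of_nonneg_left _ hC1.le
      apply Real.exp_le_exp.mpr
      have q1 := mul_le_mul_of_nonneg_right hm2 hW0.le
      have q2 := mul_le_mul_of_nonneg_left hW2 hc1.le
      linarith
    have k4 : (C + C1) * Real.exp (-(min c (c1 / 2) * W)) =
        C * Real.exp (-(min c (c1 / 2) * W)) + C1 * Real.exp (-(min c (c1 / 2) * W)) := by ring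
    rw [k4]
    linarith

end Pool.Agent.X135.PL
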