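import Pool.Agent.X135.PL.Tube

/-!
The lower bound: events of the thin tube, deterministic part and probabilities.
-/

set_option autoImplicit false

namespace Pool.Agent.X135.PL

open H974 Finset H342P Pool.Agent.Y244.PC

/-- the parameters: the box, the strips of width `3 m`, the tube of width `a` and length
`a (J + 1)` with the lower left corner `(8 a, 8 a)` -/
structure Pm (n m a J : ℕ) : Prop where
  ha : 3 ≤ a
  hJ : 1 ≤ J
  ham : 4 * a < 3 * m
  hm : 9 * m ≤ a * (J + 1)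
  hn : a * (J + 1) + 20 * a ≤ n

/-- the edges of the tube -/
noncomputable def Tb (a J : ℕ) : Finset Edg := RE (8 * a) (8 * a + a * (J + 1)) (8 * a) (9 * a)

/-- the larger tube -/
noncomputable def Tb2 (a J : ℕ) : Finset Edg :=
  RE (3 * a) (8 * a + a * (J + 1) + 5 * a) (3 * a) (14 * a)

/-- the strips are not crossed -/
def Str (n m : ℕ) (G : Finset Edg) : Prop :=
  (∀ i ∈ range (n / (3 * m)), ¬ LRc (3 * m * i) (3 * m * (i + 1)) 0 n G) ∧
  ∀ i ∈ range (n / (3 * m)), ¬ TBc 0 n (3 * m * i) (3 * m * (i + 1)) G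

/-- the tube is not connected to the outside of the larger tube -/
def Iso (a J : ℕ) (G : Finset Edg) : Prop :=
  ∀ z w : Vtx, inR (8 * a) (8 * a + a * (J + 1)) (8 * a) (9 * a) z → Reach (↑G : Set Edg) z w →
    inR (3 * a) (8 * a + a * (J + 1) + 5 * a) (3 * a) (14 * a) w

/-- the decreasing event -/
def Ev (n m a J : ℕ) (F : Finset Edg) : Prop := Str n m (F \ Tb a J) ∧ Iso a J (F \ Tb a J)

/-- the increasing events -/
def Hj (a j : ℕ) (F : Finset Edg) : Prop :=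
  LRc (8 * a + a * j) (8 * a + a * (j + 2)) (8 * a) (9 * a) F ∧
  TBc (8 * a + a * j) (8 * a + a * (j + 1)) (8 * a) (9 * a) F

theorem str_mono {n m : ℕ} {F G : Finset Edg} (h : F ⊆ G) (hG : Str n m G) : Str n m F :=
  ⟨fun i hi k => hG.1 i hi (k.mono h), fun i hi k => hG.2 i hi (k.mono h)⟩

theorem iso_mono {a J : ℕ} {F G : Finset Edg} (h : F ⊆ G) (hG : Iso a J G) : Iso a J F :=
  fun z w hz hr => hG z w hz (hr.mono (by exact_mod_cast h))

theorem ev_decr (S : Finset Edg) (n m a J : ℕ) : DecrE S (Ev n m a J) := by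
  intro F G hFG _ h h'
  exact h ⟨str_mono (Finset.sdiff_subset_sdiff hFG le_rfl) h'.1,
    iso_mono (Finset.sdiff_subset_sdiff hFG le_rfl) h'.2⟩

theorem hj_incr (S : Finset Edg) (a j : ℕ) : IncrE S (Hj a j) :=
  fun _ _ hFG _ h => ⟨h.1.mono hFG, h.2.mono hFG⟩

/-- crossing a strip -/
theorem cross_x {n m : ℕ} (hm : 1 ≤ m) {G : Finset Edg} (hG : G ⊆ RE 0 n 0 n) (hS : Str n m G)
    {u v : Vtx} (hu : inR 0 n 0 n u) (hv : inR 0 n 0 n v) (h : Reach (↑G : Set Edg) u v) :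
    v.1 - u.1 < 6 * m ∧ v.2 - u.2 < 6 * m := by
  have hm' : (1:ℤ) ≤ m := by exact_mod_cast hm
  have hH : ∀ x y : ℤ, ((x, y, true) : Edg) ∈ (↑G : Set Edg) → (0 ≤ x ∧ x < n) ∧ 0 ≤ y ∧ y ≤ n := by
    intro x y hxy
    have := hG (Finset.mem_coe.mp hxy)
    rw [mem_RE_true] at this
    omega
  have hV : ∀ x y : ℤ, ((x, y, false) : Edg) ∈ (↑G : Set Edg) →
      (0 ≤ x ∧ x ≤ n) ∧ 0 ≤ y ∧ y < n := by
    intro x y hxy
    have := hG (Finset.mem_coe.mp hxy)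
    rw [mem_RE_false] at this
    omega
  have key : ∀ s t : ℤ, 0 ≤ s → t ≤ n → 6 * m ≤ t - s → ∃ i ∈ range (n / (3 * m)),
      s ≤ 3 * m * (i : ℤ) ∧ 3 * m * ((i : ℤ) + 1) ≤ t := by
    intro s t hs ht hst
    have h3 : (0:ℤ) < 3 * m := by omega
    have q1 : 3 * (m:ℤ) * (s / (3 * m)) ≤ s := Int.mul_ediv_self_le h3.ne'
    have q2 : s < 3 * m * (s / (3 * m)) + 3 * m := Int.lt_mul_ediv_self_add h3
    have q0 : 0 ≤ s / (3 * m) := Int.ediv_nonneg hs h3.le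
    obtain ⟨i, hi⟩ : ∃ i : ℕ, (i : ℤ) = s / (3 * m) + 1 := ⟨(s / (3 * m) + 1).toNat, by omega⟩
    have e1 : 3 * (m:ℤ) * (i : ℤ) = 3 * m * (s / (3 * m)) + 3 * m := by rw [hi]; ring
    have e2 : 3 * (m:ℤ) * ((i : ℤ) + 1) = 3 * m * (i : ℤ) + 3 * m := by ring
    refine ⟨i, ?_, by omega, by omega⟩
    rw [Finset.mem_range, Nat.lt_iff_add_one_le, Nat.le_div_iff_mul_le (by omega)]
    have : (((i + 1) * (3 * m) : ℕ) : ℤ) ≤ n := by
      push_cast
      have e3 : ((i:ℤ) + 1) * (3 * m) = 3 * m * ((i : ℤ) + 1) := by ring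
      rw [e3]
      omega
    exact_mod_cast this
  unfold inR at hu hv
  constructor
  · by_contra hcon
    push Not at hcon
    obtain ⟨i, hi, h1, h2⟩ := key u.1 v.1 (by omega) (by omega) hcon
    obtain ⟨y1, y2, k1, k2, k3, -⟩ := sub_LR (a := 3 * (m:ℤ) * i) (b := 3 * (m:ℤ) * (i + 1))
      (c := 0) (d := n) (by nlinarith)
      (fun x y hxy _ _ => (hH x y hxy).2) (fun x y hxy _ _ => (hV x y hxy).2) h h1 h2
    exact hS.1 i hi ⟨y1, y2, k1, k2, k3⟩
  · by_contra hcon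
    push Not at hcon
    obtain ⟨i, hi, h1, h2⟩ := key u.2 v.2 (by omega) (by omega) hcon
    obtain ⟨y1, y2, k1, k2, k3, -⟩ := sub_TB (a := 0) (b := n) (c := 3 * (m:ℤ) * i)
      (d := 3 * (m:ℤ) * (i + 1)) (by nlinarith)
      (fun x y hxy _ _ => (hV x y hxy).1) (fun x y hxy _ _ => (hH x y hxy).1) h h1 h2
    exact hS.2 i hi ⟨y1, y2, k1, k2, k3⟩

/-- surgery in a ball -/
theorem surgery {n m a J : ℕ} (hp : Pm n m a J) {G F B : Finset Edg} (hGF : G ⊆ F) {u : Vtx}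
    (hB : B = RE (u.1 - a) (u.1 + a) (u.2 - a) (u.2 + a)) (hN : NC u a F)
    (h1 : Str n m (G \ B)) (h2 : Iso a J (G \ B)) : Str n m G ∧ Iso a J G := by
  obtain ⟨ha, hJ, ham, hm, hn⟩ := hp
  have hball : ∀ (X : Set Edg), X ⊆ ↑G → ∀ z w : Vtx, Reach X z w →
      Reach (X \ ↑B) z w ∨ (inR (u.1 - 2 * a) (u.1 + 2 * a) (u.2 - 2 * a) (u.2 + 2 * a) z ∧
        inR (u.1 - 2 * a) (u.1 + 2 * a) (u.2 - 2 * a) (u.2 + 2 * a) w) := by
    intro X hX z w hr
    rcases path_ball (B := (↑B : Set Edg)) hr with h | ⟨e, ⟨heX, heB⟩, hez⟩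
    · exact Or.inl h
    · right
      have hXF : X ⊆ (↑F : Set Edg) := hX.trans (by exact_mod_cast hGF)
      have hse : inR (u.1 - a) (u.1 + a) (u.2 - a) (u.2 + a) (src e) := by
        rw [hB, Finset.mem_coe] at heB
        obtain ⟨x, y, _ | _⟩ := e
        · rw [mem_RE_false] at heB
          simp only [inR, src_mk]; omega
        · rw [mem_RE_true] at heB
          simp only [inR, src_mk]; omega
      exact ⟨nc_det (by omega) hN hse (hez.symm.mono hXF),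
        nc_det (by omega) hN hse ((hez.symm.trans hr).mono hXF)⟩
  refine ⟨⟨fun i hi hc => ?_, fun i hi hc => ?_⟩, fun z w hz hr => ?_⟩
  · obtain ⟨y, y', k1, k2, k3⟩ := hc
    rcases hball _ Set.inter_subset_left _ _ k3 with h | ⟨h3, h4⟩
    · refine h1.1 i hi ⟨y, y', k1, k2, h.mono ?_⟩
      rintro e ⟨⟨e1, e2⟩, e3⟩
      rw [Finset.coe_sdiff]
      exact ⟨⟨e1, e3⟩, e2⟩
    · unfold inR at h3 h4
      have e2 : 3 * (m:ℤ) * ((i : ℤ) + 1) = 3 * m * (i : ℤ) + 3 * m := by ring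
      simp only at h3 h4
      omega
  · obtain ⟨y, y', k1, k2, k3⟩ := hc
    rcases hball _ Set.inter_subset_left _ _ k3 with h | ⟨h3, h4⟩
    · refine h1.2 i hi ⟨y, y', k1, k2, h.mono ?_⟩
      rintro e ⟨⟨e1, e2⟩, e3⟩
      rw [Finset.coe_sdiff]
      exact ⟨⟨e1, e3⟩, e2⟩
    · unfold inR at h3 h4
      have e2 : 3 * (m:ℤ) * ((i : ℤ) + 1) = 3 * m * (i : ℤ) + 3 * m := by ring
      simp only at h3 h4
      omega
  · rcases hball _ le_rfl _ _ hr with h | ⟨h3, h4⟩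
    · refine h2 z w hz (h.mono ?_)
      rw [Finset.coe_sdiff]
    · unfold inR at h3 h4 hz ⊢
      omega

/-- the ball around `u` -/
noncomputable def Ba (u : Vtx) (a : ℕ) : Finset Edg := RE (u.1 - a) (u.1 + a) (u.2 - a) (u.2 + a)

/-- the decreasing event if the ball is closed -/
def Ev' (n m a J : ℕ) (u : Vtx) (F : Finset Edg) : Prop :=
  Str n m ((F \ Tb a J) \ Ba u a) ∧ Iso a J ((F \ Tb a J) \ Ba u a)

theorem ev'_decr (S : Finset Edg) (n m a J : ℕ) (u : Vtx) : DecrE S (Ev' n m a J u) := by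
  intro F G hFG _ h h'
  have hs : (F \ Tb a J) \ Ba u a ⊆ (G \ Tb a J) \ Ba u a :=
    Finset.sdiff_subset_sdiff (Finset.sdiff_subset_sdiff hFG le_rfl) le_rfl
  exact h ⟨str_mono hs h'.1, iso_mono hs h'.2⟩

theorem ev_ev' {n m a J : ℕ} {u : Vtx} {F : Finset Edg} (h : Ev n m a J F) : Ev' n m a J u F :=
  ⟨str_mono Finset.sdiff_subset h.1, iso_mono Finset.sdiff_subset h.2⟩

theorem ev'_local {n m a J : ℕ} {u : Vtx} {U F : Finset Edg} (hF : F ⊆ U) :
    Ev' n m a J u F ↔ Ev' n m a J u (F ∩ ((U \ Tb a J) \ Ba u a)) := by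
  unfold Ev'
  have e : ((F ∩ ((U \ Tb a J) \ Ba u a)) \ Tb a J) \ Ba u a = (F \ Tb a J) \ Ba u a := by
    ext x
    simp only [Finset.mem_inter, Finset.mem_sdiff]
    constructor
    · rintro ⟨⟨⟨h1, -⟩, h2⟩, h3⟩; exact ⟨⟨h1, h2⟩, h3⟩
    · rintro ⟨⟨h1, h2⟩, h3⟩; exact ⟨⟨⟨h1, ⟨hF h1, h2⟩, h3⟩, h2⟩, h3⟩
  rw [e]

theorem ev_local {n m a J : ℕ} {U F : Finset Edg} (hF : F ⊆ U) :
    Ev n m a J F ↔ Ev n m a J (F ∩ (U \ Tb a J)) := by
  unfold Ev
  have e : (F ∩ (U \ Tb a J)) \ Tb a J = F \ Tb a J := by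
    ext x
    simp only [Finset.mem_inter, Finset.mem_sdiff]
    constructor
    · rintro ⟨⟨h1, -⟩, h2⟩; exact ⟨h1, h2⟩
    · rintro ⟨h1, h2⟩; exact ⟨⟨h1, hF h1, h2⟩, h2⟩
  rw [e]

theorem hj_local {a j : ℕ} {F S : Finset Edg}
    (hS : RE (8 * a + a * j) (8 * a + a * (j + 2)) (8 * a) (9 * a) ⊆ S) :
    Hj a j F ↔ Hj a j (F ∩ S) := by
  have h0 : (0:ℤ) ≤ a := by positivity
  have e2 : (a:ℤ) * ((j:ℤ) + 2) = a * ((j:ℤ) + 1) + a := by ring
  unfold Hj
  refine and_congr (LRc_local (Finset.Subset.trans ?_ hS)) (TBc_local (Finset.Subset.trans ?_ hS))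
  · rintro ⟨x, y, _ | _⟩ h
    · rw [mem_LRE_false] at h
      rw [mem_RE_false]; omega
    · rw [mem_LRE_true] at h
      rw [mem_RE_true]; omega
  · rintro ⟨x, y, _ | _⟩ h
    · rw [mem_TBE_false] at h
      rw [mem_RE_false]; omega
    · rw [mem_TBE_true] at h
      rw [mem_RE_true]; omega

theorem hj_pr {a j : ℕ} (ha : 3 ≤ a) {S : Finset Edg}
    (hS : RE (8 * a + a * j) (8 * a + a * (j + 2)) (8 * a) (9 * a) ⊆ S) :
    (1 / 2 : ℝ) ^ 48 ≤ Pr (fun _ => (1/2:ℝ)) S (Hj a j) := by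
  have h0 : (3:ℤ) ≤ a := by exact_mod_cast ha
  have e2 : (a:ℤ) * ((j:ℤ) + 2) = a * ((j:ℤ) + 1) + a := by ring
  have e3 : (a:ℤ) * ((j:ℤ) + 1) = a * (j:ℤ) + a := by ring
  have p1 : (1 / 2 : ℝ) ^ 47 ≤ Pr (fun _ => (1/2:ℝ)) S
      (LRc (8 * a + a * j) (8 * a + a * (j + 2)) (8 * a) (9 * a)) := by
    rw [pr_LRc]
    · have e4 : 8 * (a:ℤ) + a * (j + 2) - (8 * a + a * j) = 2 * a := by rw [e2, e3]; ring
      have e5 : 9 * (a:ℤ) - 8 * a = a := by ring
      rw [e4, e5]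
      have h := hh_long (m := (a:ℤ) / 2) (by omega) 0 (w := 2 * a) (h := a) (by omega)
        (by push_cast; omega) (by omega)
      simpa using h
    · refine Finset.Subset.trans ?_ hS
      rintro ⟨x, y, _ | _⟩ h
      · rw [mem_LRE_false] at h
        rw [mem_RE_false]; omega
      · rw [mem_LRE_true] at h
        rw [mem_RE_true]; omega
  have p2 : (1 / 2 : ℝ) ≤ Pr (fun _ => (1/2:ℝ)) S
      (TBc (8 * a + a * j) (8 * a + a * (j + 1)) (8 * a) (9 * a)) := by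
    rw [pr_TBc]
    · have e4 : 8 * (a:ℤ) + a * (j + 1) - (8 * a + a * j) = a := by rw [e3]; ring
      have e5 : 9 * (a:ℤ) - 8 * a = a := by ring
      rw [e4, e5]
      exact hh_square a (by omega)
    · refine Finset.Subset.trans ?_ hS
      rintro ⟨x, y, _ | _⟩ h
      · rw [mem_TBE_false] at h
        rw [mem_RE_false]; omega
      · rw [mem_TBE_true] at h
        rw [mem_RE_true]; omega
  have h := Pr_harris hok
    (LRc_incr S (8 * a + a * j) (8 * a + a * (j + 2)) (8 * a) (9 * a))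
    (TBc_incr S (8 * a + a * j) (8 * a + a * (j + 1)) (8 * a) (9 * a))
  refine le_trans ?_ h
  calc (1 / 2 : ℝ) ^ 48 = (1 / 2) ^ 47 * (1 / 2) := by norm_num
    _ ≤ _ := mul_le_mul p1 p2 (by norm_num) (le_trans (by positivity) p1)

/-- the crossing of the tube -/
theorem tube_cross {a J : ℕ} (ha : 3 ≤ a) (hJ : 1 ≤ J) {F : Finset Edg}
    (h : ∀ j ∈ range J, Hj a j F) :
    LRc (8 * a) (8 * a + a * (J + 1)) (8 * a) (9 * a) F := by
  have h0 : (3:ℤ) ≤ a := by exact_mod_cast ha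
  induction J with
  | zero => omega
  | succ J ih =>
    by_cases hJ0 : J = 0
    · subst hJ0
      have := (h 0 (by simp)).1
      have e1 : 8 * (a:ℤ) + a * ((0:ℕ):ℤ) = 8 * a := by push_cast; ring
      have e2 : 8 * (a:ℤ) + a * (((0 + 1 : ℕ):ℤ) + 1) = 8 * a + a * (((0:ℕ):ℤ) + 2) := by
        push_cast; ring
      rw [e1] at this
      rw [e2]
      exact this
    · have ih' := ih (by omega) (fun j hj => h j (by rw [Finset.mem_range] at hj ⊢; omega))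
      have hl := h J (by rw [Finset.mem_range]; omega)
      have hg := glue (a := 8 * (a:ℤ)) (b := 8 * a + a * (J + 1)) (a' := 8 * a + a * J)
        (b' := 8 * a + a * (J + 2)) (c := 8 * a) (d := 9 * a) (by nlinarith)
        (by nlinarith) (by nlinarith) (by omega) ih' hl.1 hl.2
      have e2 : 8 * (a:ℤ) + a * (((J + 1 : ℕ):ℤ) + 1) = 8 * a + a * ((J:ℤ) + 2) := by
        push_cast; ring
      rw [e2]
      exact hg

end Pool.Agent.X135.PL
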