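import Pool.Agent.X135.PL.Low1

/-!
The lower bound: probabilities of the events of the thin tube.
-/

set_option autoImplicit false

namespace Pool.Agent.X135.PL

open H974 Finset H342P Pool.Agent.Y244.PC

/-- the constant of the strips -/
noncomputable def qs (n m : ℕ) : ℝ := (1 / 2) ^ (141 * (n / (3 * m)) + 47)

theorem decr_and {S : Finset Edg} {A B : Finset Edg → Prop} (hA : DecrE S A) (hB : DecrE S B) :
    DecrE S (fun F => A F ∧ B F) := by
  intro F G hFG hG h h'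
  apply h
  constructor
  · by_contra h4
    exact hA F G hFG hG h4 h'.1
  · by_contra h4
    exact hB F G hFG hG h4 h'.2

theorem decr_all {S : Finset Edg} {ι : Type} (I : Finset ι) (A : ι → Finset Edg → Prop)
    (hA : ∀ i, DecrE S (A i)) : DecrE S (fun F => ∀ i ∈ I, A i F) := by
  intro F G hFG hG h h'
  apply h
  intro i hi
  by_contra h4
  exact hA i F G hFG hG h4 (h' i hi)

theorem Ba_sub {n m a J : ℕ} (hp : Pm n m a J) {u : Vtx} {r : ℤ} (hr : r ≤ 2 * a)
    (hu : inR (3 * a) (8 * a + a * (J + 1) + 5 * a) (3 * a) (14 * a) u) :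
    RE (u.1 - r) (u.1 + r) (u.2 - r) (u.2 + r) ⊆ RE 0 n 0 n := by
  obtain ⟨ha, hJ, ham, hm, hn⟩ := hp
  have hn' : (a:ℤ) * (J + 1) + 20 * a ≤ n := by exact_mod_cast hn
  have ha' : (3:ℤ) ≤ a := by exact_mod_cast ha
  have hJ0 : (0:ℤ) ≤ a * (J + 1) := by positivity
  unfold inR at hu
  exact RE_subset (by omega) (by omega) (by omega) (by omega)

theorem strip_pr {n m i : ℕ} (hm : 1 ≤ m) (hi : i ∈ range (n / (3 * m))) :
    qs n m ≤ Pr (fun _ => (1/2:ℝ)) (RE 0 n 0 n)
      (fun F => ¬ LRc (3 * m * i) (3 * m * (i + 1)) 0 n F) ∧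
    qs n m ≤ Pr (fun _ => (1/2:ℝ)) (RE 0 n 0 n)
      (fun F => ¬ TBc 0 n (3 * m * i) (3 * m * (i + 1)) F) := by
  have hm' : (1:ℤ) ≤ m := by exact_mod_cast hm
  rw [Finset.mem_range, Nat.lt_iff_add_one_le, Nat.le_div_iff_mul_le (by omega)] at hi
  have hi' : 3 * (m:ℤ) * (i + 1) ≤ n := by
    have : (((i + 1) * (3 * m) : ℕ) : ℤ) ≤ n := by exact_mod_cast hi
    push_cast at this
    linarith
  have hi0 : (0:ℤ) ≤ 3 * m * i := by positivity
  have e1 : 3 * (m:ℤ) * (i + 1) = 3 * m * i + 3 * m := by ring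
  have hcr : qs n m ≤ 1 - hh (1 / 2) (3 * (m:ℤ)) n := by
    unfold qs
    apply no_cross (m := m) (by omega) (n / (3 * m)) (by omega) (by omega)
    have h1 : n < 3 * m * (n / (3 * m) + 1) := Nat.lt_mul_div_succ n (by omega)
    have h2 : (n:ℤ) < 3 * m * ((n / (3 * m) : ℕ) + 1) := by exact_mod_cast h1
    have h3 : (0:ℤ) ≤ m * ((n / (3 * m) : ℕ) : ℤ) := by positivity
    nlinarith
  constructor
  · rw [Pr_not, pr_LRc]
    · have e2 : 3 * (m:ℤ) * (i + 1) - 3 * m * i = 3 * m := by ring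
      rw [e2, sub_zero]
      exact hcr
    · rintro ⟨x, y, _ | _⟩ h
      · rw [mem_LRE_false] at h
        rw [mem_RE_false]; omega
      · rw [mem_LRE_true] at h
        rw [mem_RE_true]; omega
  · rw [Pr_not, pr_TBc]
    · have e2 : 3 * (m:ℤ) * (i + 1) - 3 * m * i = 3 * m := by ring
      rw [e2, sub_zero]
      exact hcr
    · rintro ⟨x, y, _ | _⟩ h
      · rw [mem_TBE_false] at h
        rw [mem_RE_false]; omega
      · rw [mem_TBE_true] at h
        rw [mem_RE_true]; omega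

/-- the isolation of the tube by balls -/
theorem iso_of_nc {n m a J : ℕ} (hp : Pm n m a J) {F : Finset Edg}
    (h : ∀ k ∈ range (J + 2), NC (8 * (a:ℤ) + a * k, 8 * (a:ℤ)) a F) : Iso a J F := by
  obtain ⟨ha, hJ, ham, hm, hn⟩ := hp
  have ha' : (3:ℤ) ≤ a := by exact_mod_cast ha
  intro z w hz hr
  unfold inR at hz
  obtain ⟨q, hq⟩ : ∃ q : ℕ, (q : ℤ) = (z.1 - 8 * a) / a :=
    ⟨((z.1 - 8 * a) / a).toNat, by
      have : 0 ≤ (z.1 - 8 * a) / a := Int.ediv_nonneg (by omega) (by omega)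
      omega⟩
  have q1 : (a:ℤ) * ((z.1 - 8 * a) / a) ≤ z.1 - 8 * a := Int.mul_ediv_self_le (by omega)
  have q2 : z.1 - 8 * a < a * ((z.1 - 8 * a) / a) + a := Int.lt_mul_ediv_self_add (by omega)
  rw [← hq] at q1 q2
  have hqJ : q < J + 2 := by
    have h1 : (a:ℤ) * q < a * (J + 2) := by nlinarith
    have h2 : (q:ℤ) < J + 2 := lt_of_mul_lt_mul_left h1 (by omega)
    omega
  have h3 := nc_det (by omega) (h q (Finset.mem_range.mpr hqJ)) (z := z) (w := w)
    (by unfold inR; simp only; omega) hr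
  unfold inR at h3 ⊢
  simp only at h3
  have h5 : (a:ℤ) * q ≤ a * (J + 1) + a := by nlinarith
  have h6 : (0:ℤ) ≤ a * q := by positivity
  -- the vertex is at most `2 a` away
  omega

/-- the probability of the decreasing event -/
theorem ev_pr {n m a J : ℕ} (hp : Pm n m a J) :
    (qs n m ^ (n / (3 * m)) * qs n m ^ (n / (3 * m))) * kN ^ (J + 2) ≤
      Pr (fun _ => (1/2:ℝ)) (RE 0 n 0 n) (Ev n m a J) := by
  have hp' := hp
  obtain ⟨ha, hJ, ham, hm, hn⟩ := hp'
  have hm1 : 1 ≤ m := by omega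
  have hq0 : 0 ≤ qs n m := by unfold qs; positivity
  set S : Finset Edg := RE 0 n 0 n with hS
  have d1 : ∀ i : ℕ, DecrE S (fun F => ¬ LRc (3 * m * i) (3 * m * (i + 1)) 0 n F) :=
    fun i => decr_not (LRc_incr _ _ _ _ _)
  have d2 : ∀ i : ℕ, DecrE S (fun F => ¬ TBc 0 n (3 * m * i) (3 * m * (i + 1)) F) :=
    fun i => decr_not (TBc_incr _ _ _ _ _)
  have d3 : ∀ k : ℕ, DecrE S (NC (8 * (a:ℤ) + a * k, 8 * (a:ℤ)) a) := fun k => nc_decr _ _ _
  have f1 := fkg_decr hok (S := S) (range (n / (3 * m)))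
    (fun i F => ¬ LRc (3 * m * i) (3 * m * (i + 1)) 0 n F) (fun i _ => d1 i)
  have f2 := fkg_decr hok (S := S) (range (n / (3 * m)))
    (fun i F => ¬ TBc 0 n (3 * m * i) (3 * m * (i + 1)) F) (fun i _ => d2 i)
  have f3 := fkg_decr hok (S := S) (range (J + 2))
    (fun k F => NC (8 * (a:ℤ) + a * k, 8 * (a:ℤ)) a F) (fun i _ => d3 i)
  have g1 := (pow_card_le_prod (range (n / (3 * m))) _ hq0
    (fun i hi => (strip_pr hm1 hi).1)).trans f1
  have g2 := (pow_card_le_prod (range (n / (3 * m))) _ hq0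
    (fun i hi => (strip_pr hm1 hi).2)).trans f2
  have g3 := (pow_card_le_prod (range (J + 2)) _ kN_pos.le
    (fun k hk => nc_pr (S := S) (u := (8 * (a:ℤ) + a * k, 8 * (a:ℤ))) (a := a)
      (by exact_mod_cast ha) (by
        have hn' : (a:ℤ) * (J + 1) + 20 * a ≤ n := by exact_mod_cast hn
        have ha' : (3:ℤ) ≤ a := by exact_mod_cast ha
        rw [Finset.mem_range] at hk
        have h1 : (a:ℤ) * k ≤ a * (J + 1) := by
          apply mul_le_mul_of_nonneg_left _ (by omega)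
          omega
        have h2 : (0:ℤ) ≤ a * k := by positivity
        exact RE_subset (by simp only; omega) (by simp only; omega) (by simp only; omega)
          (by simp only; omega)))).trans f3
  rw [Finset.card_range] at g1 g2 g3
  have i1 := decr_all (range (n / (3 * m)))
    (fun i F => ¬ LRc (3 * m * i) (3 * m * (i + 1)) 0 n F) d1
  have i2 := decr_all (range (n / (3 * m)))
    (fun i F => ¬ TBc 0 n (3 * m * i) (3 * m * (i + 1)) F) d2
  have i3 := decr_all (range (J + 2))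
    (fun k F => NC (8 * (a:ℤ) + a * k, 8 * (a:ℤ)) a F) d3
  have j1 := harris_dec2 hok i1 i2
  have j2 := harris_dec2 hok (decr_and i1 i2) i3
  have p1 : 0 ≤ qs n m ^ (n / (3 * m)) := pow_nonneg hq0 _
  have p3 : 0 ≤ kN ^ (J + 2) := pow_nonneg kN_pos.le _
  have k1 := (mul_le_mul g1 g2 p1 (p1.trans g1)).trans j1
  have k2 := (mul_le_mul k1 g3 p3 ((mul_nonneg p1 p1).trans k1)).trans j2
  refine k2.trans (Pr_mono hok ?_)
  rintro F _ ⟨⟨h1, h2⟩, h3⟩
  have hsub : F \ Tb a J ⊆ F := Finset.sdiff_subset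
  exact ⟨str_mono hsub ⟨h1, h2⟩, iso_mono hsub (iso_of_nc hp h3)⟩

/-- closing a ball -/
theorem ev'_pr {n m a J : ℕ} (hp : Pm n m a J) {u : Vtx}
    (hu : inR (3 * a) (8 * a + a * (J + 1) + 5 * a) (3 * a) (14 * a) u) :
    kN * Pr (fun _ => (1/2:ℝ)) (RE 0 n 0 n) (Ev' n m a J u) ≤
      Pr (fun _ => (1/2:ℝ)) (RE 0 n 0 n) (Ev n m a J) := by
  have h1 := nc_pr (u := u) (a := a) (by exact_mod_cast hp.ha) (S := RE 0 n 0 n)
    (Ba_sub hp le_rfl hu)
  have h2 := harris_dec2 hok (ev'_decr (RE 0 n 0 n) n m a J u) (nc_decr (RE 0 n 0 n) u a)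
  have h3 : Pr (fun _ => (1/2:ℝ)) (RE 0 n 0 n) (fun F => Ev' n m a J u F ∧ NC u a F) ≤
      Pr (fun _ => (1/2:ℝ)) (RE 0 n 0 n) (Ev n m a J) := by
    refine Pr_mono hok ?_
    rintro F _ ⟨⟨k1, k2⟩, k3⟩
    exact surgery hp Finset.sdiff_subset rfl k3 k1 k2
  have h4 := mul_le_mul_of_nonneg_right h1
    (Pr_nonneg hok (RE 0 n 0 n) (Ev' n m a J u))
  rw [mul_comm (Pr (fun _ => (1/2:ℝ)) (RE 0 n 0 n) (NC u a))] at h4
  linarith

/-- the two-arm event of a vertex and the events of the tube -/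
theorem two_tube {C : ℝ} (hU : TwoUp C (1/4)) {n m a J : ℕ} (hp : Pm n m a J) {u f : Vtx}
    (hf : Inc u f) (hu : inR (3 * a) (8 * a + a * (J + 1) + 5 * a) (3 * a) (14 * a) u) :
    kN * ((1 / 2) ^ 48) ^ 5 * Pr (fun _ => (1/2:ℝ)) (RE 0 n 0 n)
      (fun F => Two u f a (↑F) ∧ (Ev n m a J F ∧ ∀ j ∈ range J, Hj a j F)) ≤
    C * (a:ℝ) ^ (-(1/4:ℝ)) * Pr (fun _ => (1/2:ℝ)) (RE 0 n 0 n)
      (fun F => Ev n m a J F ∧ ∀ j ∈ range J, Hj a j F) := by
  classical
  have hp' := hp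
  obtain ⟨ha, hJ, ham, hm, hn⟩ := hp'
  have ha' : (3:ℤ) ≤ a := by exact_mod_cast ha
  have hn' : (a:ℤ) * (J + 1) + 20 * a ≤ n := by exact_mod_cast hn
  have hTU : Tb a J ⊆ RE 0 n 0 n := RE_subset (by positivity) (by omega) (by positivity) (by
    have : (0:ℤ) ≤ a * (J + 1) := by positivity
    omega)
  have hBU : Ba u a ⊆ RE 0 n 0 n := Ba_sub hp (by omega) hu
  obtain ⟨Jf, hJf⟩ : ∃ Jf : Finset ℕ, Jf = (range J).filter (fun j : ℕ =>
      u.1 + a < 8 * (a:ℤ) + a * j ∨ 8 * (a:ℤ) + a * (j + 2) < u.1 - a) := ⟨_, rfl⟩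
  have hJs : Jf ⊆ range J := by rw [hJf]; exact Finset.filter_subset _ _
  have hrect : ∀ j ∈ range J, RE (8 * a + a * j) (8 * a + a * (j + 2)) (8 * a) (9 * a) ⊆
      Tb a J := by
    intro j hj
    rw [Finset.mem_range] at hj
    have h1 : (a:ℤ) * (j + 2) ≤ a * (J + 1) := by
      apply mul_le_mul_of_nonneg_left _ (by omega)
      omega
    have h2 : (0:ℤ) ≤ a * j := by positivity
    exact RE_subset (by omega) (by omega) (by omega) (by omega)
  have hcard : (range J \ Jf).card ≤ 5 := by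
    have q1 : (a:ℤ) * ((u.1 - 8 * a) / a) ≤ u.1 - 8 * a := Int.mul_ediv_self_le (by omega)
    have q2 : u.1 - 8 * a < a * ((u.1 - 8 * a) / a) + a := Int.lt_mul_ediv_self_add (by omega)
    set q := (u.1 - 8 * a) / (a:ℤ) with hq
    have hsub : (range J \ Jf).image (fun j : ℕ => (j : ℤ)) ⊆ Finset.Icc (q - 3) (q + 1) := by
      intro x hx
      rw [Finset.mem_image] at hx
      obtain ⟨j, hj, rfl⟩ := hx
      rw [Finset.mem_sdiff, hJf, Finset.mem_filter, not_and] at hj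
      have h1 := hj.2 hj.1
      push Not at h1
      obtain ⟨h2, h3⟩ := h1
      have h4 : (a:ℤ) * j < a * (q + 2) := by
        have : (a:ℤ) * (q + 2) = a * q + 2 * a := by ring
        omega
      have h5 : (a:ℤ) * (q - 3) ≤ a * j := by
        have e1 : (a:ℤ) * (q - 3) = a * q - 3 * a := by ring
        have e2 : (a:ℤ) * ((j:ℤ) + 2) = a * j + 2 * a := by ring
        omega
      have h6 := lt_of_mul_lt_mul_left h4 (by omega)
      have h7 := le_of_mul_le_mul_left h5 (by omega)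
      rw [Finset.mem_Icc]
      omega
    have h8 := Finset.card_le_card hsub
    rw [Finset.card_image_of_injective _ Nat.cast_injective, Int.card_Icc] at h8
    omega
  have hmain := decouple (U := RE 0 n 0 n) (T := Tb a J) (B := Ba u a) hTU hBU
    (A := fun F => Two u f a (↑F)) (E := Ev n m a J) (E' := Ev' n m a J u)
    (I := range J) (J := Jf) hJs (H := fun j F => Hj a j F) (k := kN)
    (c := (1 / 2) ^ 48) kN_pos (by positivity) (by norm_num) (r := 5) hcard
    (fun F _ => two_inter (by omega) F (by unfold Ba; exact Finset.Subset.refl _))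
    (fun F _ h => ev_ev' h) (fun F hF => ev'_local hF) (fun F hF => ev_local hF)
    (ev'_pr hp hu) (fun j _ => hj_incr _ _ _)
    (fun j hj F _ => hj_local (hrect j hj))
    (fun j hj F _ => hj_local (by
      intro e he
      rw [Finset.mem_sdiff]
      refine ⟨hrect j (hJs hj) he, ?_⟩
      rw [hJf, Finset.mem_filter] at hj
      intro heB
      unfold Ba at heB
      obtain ⟨x, y, _ | _⟩ := e
      · rw [mem_RE_false] at he heB; omega
      · rw [mem_RE_true] at he heB; omega))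
    (fun j hj => hj_pr ha ((hrect j hj).trans hTU))
  refine hmain.trans ?_
  refine mul_le_mul_of_nonneg_right ?_ (Pr_nonneg hok _ _)
  have h1 := hU a u f (by omega) hf
  have h2 := pr_two (q := 1/2) (u := u) (f := f) (m := (a:ℤ)) (by omega) hBU
  rw [h2]
  exact_mod_cast h1

end Pool.Agent.X135.PL
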