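import Pool.Agent.X135.PL.Low2
import Pool.Agent.H984R3.Per.PerBig
import Pool.Agent.Y655.ME.Slow

/-!
The lower bound: the largest cluster is in the tube and has a small perimeter.
-/

set_option autoImplicit false

namespace Pool.Agent.X135.PL

open H974 Finset H342P Pool.Agent.Y244.PC

/-- the number of the two-arm pairs in the larger tube -/
noncomputable def NT (a J : ℕ) (F : Finset Edg) : ℝ :=
  ∑ e ∈ Tb2 a J, (ind (Two (src e) (dsrc e) a (↑F)) + ind (Two (src e) (dtgt e) a (↑F)))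

theorem NT_nonneg (a J : ℕ) (F : Finset Edg) : 0 ≤ NT a J F :=
  Finset.sum_nonneg fun _ _ => add_nonneg (ind_nonneg _) (ind_nonneg _)

theorem last_T {F : Finset Edg} {x1 x2 y1 y2 : ℤ} {z w : Vtx} (hz : inR x1 x2 y1 y2 z)
    (h : Reach (↑F : Set Edg) z w) :
    ∃ z', inR x1 x2 y1 y2 z' ∧ Reach (↑(F \ RE x1 x2 y1 y2) : Set Edg) z' w := by
  induction h with
  | refl => exact ⟨z, hz, Reach.refl _ _⟩
  | @tail w0 w1 h0 hs ih =>
    obtain ⟨z', h1, h2⟩ := ih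
    by_cases hw : inR x1 x2 y1 y2 w1
    · exact ⟨w1, hw, Reach.refl _ _⟩
    · obtain ⟨e, he, hc⟩ := hs
      refine ⟨z', h1, Relation.ReflTransGen.tail h2 ⟨e, ?_, hc⟩⟩
      rw [Finset.coe_sdiff]
      refine ⟨he, fun heR => hw ?_⟩
      have := Pool.Agent.Y655.ME.ends_of_RE (Finset.mem_coe.mp heR)
      rcases hc with ⟨-, h4⟩ | ⟨h4, -⟩
      · rw [← h4]; exact this.2
      · rw [← h4]; exact this.1

/-- The deterministic part. -/
theorem det_low {n m a J : ℕ} (hp : Pm n m a J) {F : Finset Edg} (hF : F ⊆ RE 0 n 0 n)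
    (hE : Ev n m a J F) (hH : ∀ j ∈ range J, Hj a j F) {v : Vtx} (hv : IsMax n (↑F) v) :
    (per n (↑F) v : ℝ) ≤ NT a J F ∧
    (∀ w, Reach (↑F : Set Edg) v w →
      inR (3 * a) (8 * a + a * (J + 1) + 5 * a) (3 * a) (14 * a) w) ∧
    ∃ c d : Vtx, Reach (↑F : Set Edg) v c ∧ Reach (↑F : Set Edg) v d ∧
      ((a:ℤ) * (J + 1)) ^ 2 ≤ dsq c d := by
  classical
  obtain ⟨ha, hJ, ham, hm, hn⟩ := hp
  have ha' : (3:ℤ) ≤ a := by exact_mod_cast ha
  have hn' : (a:ℤ) * (J + 1) + 20 * a ≤ n := by exact_mod_cast hn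
  have hm' : 9 * (m:ℤ) ≤ a * (J + 1) := by exact_mod_cast hm
  have hm1 : 1 ≤ m := by omega
  obtain ⟨p, q, hpv, hqv, hmax⟩ := hv
  obtain ⟨y, y', k1, k2, k3⟩ := tube_cross ha hJ hH
  have hJ0 : (0:ℤ) ≤ a * (J + 1) := by positivity
  have hbig : ((a:ℤ) * (J + 1)) ^ 2 ≤ dsq p q := by
    have h1 := hmax (8 * a, y) (8 * a + a * (J + 1), y') (by unfold inR; simp only; omega)
      (by unfold inR; simp only; omega) (k3.mono Set.inter_subset_left)
    refine le_trans ?_ h1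
    unfold dsq
    simp only
    nlinarith [sq_nonneg (y - y')]
  have h81 : 81 * (m:ℤ) ^ 2 ≤ dsq p q := by
    refine le_trans ?_ hbig
    nlinarith
  have hm1' : (1:ℤ) ≤ m := by exact_mod_cast hm1
  have hpq : Reach (↑F : Set Edg) p q := hpv.symm.trans hqv
  have hpne : p ≠ q := by
    rintro rfl
    unfold dsq at h81
    simp only [sub_self] at h81
    nlinarith
  have hqb : inR 0 n 0 n q := H984P.pb_box hF hpq hpne
  have hpb : inR 0 n 0 n p := H984P.pb_box hF hpq.symm hpne.symm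
  -- a vertex of the tube
  obtain ⟨z, hzT, hz⟩ : ∃ z, inR (8 * a) (8 * a + a * (J + 1)) (8 * a) (9 * a) z ∧
      Reach (↑F : Set Edg) v z := by
    rcases path_ball (B := (↑(Tb a J) : Set Edg)) hpq with h | ⟨e, ⟨-, heT⟩, hez⟩
    · exfalso
      have hFT : F \ Tb a J ⊆ RE 0 n 0 n := Finset.sdiff_subset.trans hF
      have h' : Reach (↑(F \ Tb a J) : Set Edg) p q := by
        rw [Finset.coe_sdiff]; exact h
      have c1 := cross_x hm1 hFT hE.1 hpb hqb h'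
      have c2 := cross_x hm1 hFT hE.1 hqb hpb h'.symm
      have h1 : |p.1 - q.1| ≤ 6 * m := by rw [abs_le]; omega
      have h2 : |p.2 - q.2| ≤ 6 * m := by rw [abs_le]; omega
      have h3 : (p.1 - q.1) ^ 2 ≤ (6 * m) ^ 2 := by
        rw [← sq_abs (p.1 - q.1)]
        exact pow_le_pow_left₀ (abs_nonneg _) h1 2
      have h4 : (p.2 - q.2) ^ 2 ≤ (6 * m) ^ 2 := by
        rw [← sq_abs (p.2 - q.2)]
        exact pow_le_pow_left₀ (abs_nonneg _) h2 2
      unfold dsq at h81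
      nlinarith
    · exact ⟨src e, (Pool.Agent.Y655.ME.ends_of_RE (Finset.mem_coe.mp heT)).1, hpv.trans hez⟩
  have hin : ∀ w, Reach (↑F : Set Edg) v w →
      inR (3 * a) (8 * a + a * (J + 1) + 5 * a) (3 * a) (14 * a) w := by
    intro w hw
    obtain ⟨z', h1, h2⟩ := last_T hzT (hz.symm.trans hw)
    exact hE.2 z' w h1 h2
  refine ⟨?_, hin, p, q, hpv, hqv, hbig⟩
  -- the perimeter
  have hsub : Tb2 a J ⊆ RE 0 n 0 n :=
    RE_subset (by positivity) (by omega) (by positivity) (by omega)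
  have hEC : ∀ e ∈ EC (↑F : Set Edg) v, e ∈ Tb2 a J := by
    rintro e ⟨heF, her⟩
    refine Pool.Agent.Y655.ME.mem_RE_ends (hin _ her) (hin _ (her.trans ?_))
    exact Adj.reach ⟨e, heF, Or.inl ⟨rfl, rfl⟩⟩
  have h8 : 8 * (a:ℤ) ^ 2 ≤ dsq p q := by
    refine le_trans ?_ h81
    have : 4 * (a:ℤ) < 3 * m := by exact_mod_cast ham
    nlinarith
  have hfar : ∀ u : Vtx, ∃ w, Reach (↑F : Set Edg) v w ∧ FarF u a w := by
    intro u
    by_contra hcon
    push Not at hcon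
    have h3 := dsq_lt (hcon p hpv) (hcon q hqv)
    omega
  have e1 : per n (↑F) v = ∑ e ∈ Tb2 a J, if e ∈ EC (↑F : Set Edg) v then
      ((if Outer (↑F) v (dsrc e) then 1 else 0) + (if Outer (↑F) v (dtgt e) then 1 else 0))
      else 0 := by
    unfold per
    symm
    apply Finset.sum_subset hsub
    intro e _ he
    rw [if_neg (fun h => he (hEC e h))]
  rw [e1]
  unfold NT
  push_cast
  apply Finset.sum_le_sum
  intro e _
  have hone : ∀ f, Inc (src e) f → e ∈ EC (↑F : Set Edg) v → Outer (↑F) v f →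
      Two (src e) f a (↑F) := by
    intro f hf he ho
    obtain ⟨w, hw, hw2⟩ := hfar (src e)
    have h3 := hin _ he.2
    unfold inR at h3
    exact two_of_outer he hf ho (by omega) hw hw2
  split_ifs with h1 h2 h3 h3
  · rw [ind_of (hone _ (inc_dsrc e) h1 h2), ind_of (hone _ (inc_dtgt e) h1 h3)]
  · rw [ind_of (hone _ (inc_dsrc e) h1 h2)]
    linarith [ind_nonneg (Two (src e) (dtgt e) a (↑F : Set Edg))]
  · rw [ind_of (hone _ (inc_dtgt e) h1 h3)]
    linarith [ind_nonneg (Two (src e) (dsrc e) a (↑F : Set Edg))]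
  · linarith [ind_nonneg (Two (src e) (dtgt e) a (↑F : Set Edg)),
      ind_nonneg (Two (src e) (dsrc e) a (↑F : Set Edg))]
  · linarith [ind_nonneg (Two (src e) (dtgt e) a (↑F : Set Edg)),
      ind_nonneg (Two (src e) (dsrc e) a (↑F : Set Edg))]

/-- the number of the edges of the larger tube -/
theorem card_Tb2 {a J : ℕ} (ha : 3 ≤ a) (hJ : 1 ≤ J) : (Tb2 a J).card ≤ 312 * (J * a ^ 2) := by
  unfold Tb2 RE
  refine (Finset.card_filter_le _ _).trans ?_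
  rw [Finset.card_product, Finset.card_product, Int.card_Icc, Int.card_Icc]
  simp only [Finset.card_univ, Fintype.card_bool]
  have e1 : (8 * (a:ℤ) + a * (J + 1) + 5 * a + 1 - 3 * a).toNat = a * (J + 1) + 10 * a + 1 := by
    zify
    rw [Int.toNat_of_nonneg (by
      have : (0:ℤ) ≤ a * (J + 1) := by positivity
      omega)]
    ring
  have e2 : (14 * (a:ℤ) + 1 - 3 * a).toNat = 11 * a + 1 := by omega
  rw [e1, e2]
  have h1 : a * (J + 1) + 10 * a + 1 ≤ 13 * (J * a) := by nlinarith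
  have h2 : (11 * a + 1) * 2 ≤ 24 * a := by omega
  calc (a * (J + 1) + 10 * a + 1) * ((11 * a + 1) * 2) ≤ (13 * (J * a)) * (24 * a) :=
        Nat.mul_le_mul h1 h2
    _ = 312 * (J * a ^ 2) := by ring

/-- the event of the tube has conditionally a small number of two-arm pairs -/
theorem tube_few {C : ℝ} (hC : 0 < C) (hU : TwoUp C (1/4)) : ∃ K : ℝ, 0 < K ∧
    ∀ n m a J : ℕ, Pm n m a J →
    (1 / 2) * Pr (fun _ => (1/2:ℝ)) (RE 0 n 0 n)
      (fun F => Ev n m a J F ∧ ∀ j ∈ range J, Hj a j F) ≤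
    Pr (fun _ => (1/2:ℝ)) (RE 0 n 0 n)
      (fun F => (Ev n m a J F ∧ ∀ j ∈ range J, Hj a j F) ∧
        NT a J F ≤ K * (J * (a:ℝ) ^ (7/4:ℝ))) := by
  obtain ⟨κ, hκ⟩ : ∃ κ : ℝ, κ = kN * ((1 / 2) ^ 48) ^ 5 := ⟨_, rfl⟩
  have hκ0 : 0 < κ := by rw [hκ]; exact mul_pos kN_pos (by positivity)
  refine ⟨1248 * (C / κ), by positivity, ?_⟩
  intro n m a J hp
  have hp' := hp
  obtain ⟨ha, hJ, ham, hm, hn⟩ := hp'
  have ha0 : (0:ℝ) < a := by exact_mod_cast (show 0 < a by omega)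
  have hJ0 : (0:ℝ) < J := by exact_mod_cast (show 0 < J by omega)
  set S : Finset Edg := RE 0 n 0 n with hS
  obtain ⟨G, hG⟩ : ∃ G : Finset Edg → Prop,
      G = fun F => Ev n m a J F ∧ ∀ j ∈ range J, Hj a j F := ⟨_, rfl⟩
  obtain ⟨π0, hπ0⟩ : ∃ π0 : ℝ, π0 = Pr (fun _ => (1/2:ℝ)) S G := ⟨_, rfl⟩
  have hπn : 0 ≤ π0 := by rw [hπ0]; exact Pr_nonneg hok _ _
  have hone : ∀ e ∈ Tb2 a J, ∀ f, Inc (src e) f →
      Ex (fun _ => (1/2:ℝ)) S (fun F => ind (Two (src e) f a (↑F)) * ind (G F)) ≤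
        C / κ * ((a:ℝ) ^ (-(1/4:ℝ)) * π0) := by
    intro e he f hf
    have h1 := two_tube hU hp hf (Pool.Agent.Y655.ME.ends_of_RE he).1
    have h2 : Ex (fun _ => (1/2:ℝ)) S (fun F => ind (Two (src e) f a (↑F)) * ind (G F)) =
        Pr (fun _ => (1/2:ℝ)) S (fun F => Two (src e) f a (↑F) ∧ G F) := by
      unfold Pr
      exact Ex_congr fun F _ => (ind_and _ _).symm
    rw [h2, div_mul_eq_mul_div, le_div_iff₀ hκ0]
    rw [← hκ] at h1
    have h3 : Pr (fun _ => (1/2:ℝ)) S (fun F => Two (src e) f a (↑F) ∧ G F) =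
      Pr (fun _ => (1/2:ℝ)) (RE 0 n 0 n)
      (fun F => Two (src e) f a (↑F) ∧ (Ev n m a J F ∧ ∀ j ∈ range J, Hj a j F)) := by
      rw [hG]
    have h4 : π0 = Pr (fun _ => (1/2:ℝ)) (RE 0 n 0 n)
      (fun F => Ev n m a J F ∧ ∀ j ∈ range J, Hj a j F) := by rw [hπ0, hG]
    rw [h3, h4]
    linarith
  have hEx : Ex (fun _ => (1/2:ℝ)) S (fun F => NT a J F * ind (G F)) ≤
      624 * (C / κ) * (J * (a:ℝ) ^ (7/4:ℝ)) * π0 := by
    have h1 : Ex (fun _ => (1/2:ℝ)) S (fun F => NT a J F * ind (G F)) =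
        ∑ e ∈ Tb2 a J, (Ex (fun _ => (1/2:ℝ)) S
          (fun F => ind (Two (src e) (dsrc e) a (↑F)) * ind (G F)) +
          Ex (fun _ => (1/2:ℝ)) S
          (fun F => ind (Two (src e) (dtgt e) a (↑F)) * ind (G F))) := by
      simp_rw [← Ex_add]
      rw [← Ex_sum]
      refine Ex_congr fun F _ => ?_
      unfold NT
      rw [Finset.sum_mul]
      exact Finset.sum_congr rfl fun e _ => by ring
    rw [h1]
    refine (Finset.sum_le_card_nsmul _ _ (2 * (C / κ * ((a:ℝ) ^ (-(1/4:ℝ)) * π0)))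
      fun e he => ?_).trans ?_
    · have h2 := hone e he _ (inc_dsrc e)
      have h3 := hone e he _ (inc_dtgt e)
      linarith
    · rw [nsmul_eq_mul]
      have h4 : ((Tb2 a J).card : ℝ) ≤ 312 * (J * (a:ℝ) ^ 2) := by
        exact_mod_cast card_Tb2 ha hJ
      have h5 : (a:ℝ) ^ 2 * (a:ℝ) ^ (-(1/4:ℝ)) = (a:ℝ) ^ (7/4:ℝ) := by
        rw [← Real.rpow_natCast, ← Real.rpow_add ha0]
        norm_num
      calc ((Tb2 a J).card : ℝ) * (2 * (C / κ * ((a:ℝ) ^ (-(1/4:ℝ)) * π0)))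
          ≤ 312 * (J * (a:ℝ) ^ 2) * (2 * (C / κ * ((a:ℝ) ^ (-(1/4:ℝ)) * π0))) :=
            mul_le_mul_of_nonneg_right h4 (by positivity)
        _ = 624 * (C / κ) * (J * ((a:ℝ) ^ 2 * (a:ℝ) ^ (-(1/4:ℝ)))) * π0 := by ring
        _ = _ := by rw [h5]
  obtain ⟨M, hM⟩ : ∃ M : ℝ, M = 1248 * (C / κ) * (J * (a:ℝ) ^ (7/4:ℝ)) := ⟨_, rfl⟩
  have hM0 : 0 < M := by rw [hM]; positivity
  have hbad : M * Pr (fun _ => (1/2:ℝ)) S (fun F => G F ∧ ¬ NT a J F ≤ M) ≤ M / 2 * π0 := by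
    have h1 : M * Pr (fun _ => (1/2:ℝ)) S (fun F => G F ∧ ¬ NT a J F ≤ M) ≤
        Ex (fun _ => (1/2:ℝ)) S (fun F => NT a J F * ind (G F)) := by
      unfold Pr
      rw [← Ex_mul_left]
      refine Ex_mono hok fun F _ => ?_
      by_cases h2 : G F
      · by_cases h3 : NT a J F ≤ M
        · rw [ind_not_of (fun h => h.2 h3), mul_zero]
          exact mul_nonneg (NT_nonneg _ _ _) (ind_nonneg _)
        · rw [ind_of (show G F ∧ ¬ NT a J F ≤ M from ⟨h2, h3⟩), ind_of h2, mul_one, mul_one]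
          exact (not_le.mp h3).le
      · rw [ind_not_of (fun h => h2 h.1), mul_zero]
        exact mul_nonneg (NT_nonneg _ _ _) (ind_nonneg _)
    refine h1.trans (hEx.trans (le_of_eq ?_))
    rw [hM]
    ring
  have hbad' : Pr (fun _ => (1/2:ℝ)) S (fun F => G F ∧ ¬ NT a J F ≤ M) ≤ π0 / 2 := by
    by_contra hcon
    have hcon' := lt_of_not_ge hcon
    nlinarith
  have hsplit : π0 = Pr (fun _ => (1/2:ℝ)) S (fun F => G F ∧ NT a J F ≤ M) +
      Pr (fun _ => (1/2:ℝ)) S (fun F => G F ∧ ¬ NT a J F ≤ M) := by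
    rw [hπ0]
    unfold Pr
    rw [← Ex_add]
    refine Ex_congr fun F _ => ?_
    rw [ind_and, ind_and, ind_not]
    ring
  rw [hM] at hsplit hbad'
  rw [hG] at hsplit hbad' hπ0
  rw [hπ0] at hsplit hbad'
  linarith

/-- **Lower bound, two parameters.** -/
theorem low_main {C : ℝ} (hC : 0 < C) (hU : TwoUp C (1/4)) : ∃ d K : ℝ, 0 < d ∧ d < 1 ∧ 0 < K ∧
    ∀ n m a J : ℕ, Pm n m a J → d ^ ((n / (3 * m) + 1) ^ 2 + J) ≤
    Pr (fun _ => (1/2:ℝ)) (RE 0 n 0 n) (fun F => ∀ v, IsMax n (↑F) v →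
      (per n (↑F) v : ℝ) ≤ K * (J * (a:ℝ) ^ (7/4:ℝ)) ∧
      (∀ w, Reach (↑F : Set Edg) v w →
        inR (3 * a) (8 * a + a * (J + 1) + 5 * a) (3 * a) (14 * a) w) ∧
      ∃ c d : Vtx, Reach (↑F : Set Edg) v c ∧ Reach (↑F : Set Edg) v d ∧
        ((a:ℤ) * (J + 1)) ^ 2 ≤ dsq c d) := by
  obtain ⟨K, hK, hfew⟩ := tube_few hC hU
  refine ⟨(1 / 2) ^ 4400, K, by positivity, pow_lt_one₀ (by norm_num) (by norm_num) (by norm_num),
    hK, ?_⟩
  intro n m a J hp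
  have hp' := hp
  obtain ⟨ha, hJ, ham, hm, hn⟩ := hp'
  have ha' : (3:ℤ) ≤ a := by exact_mod_cast ha
  have hn' : (a:ℤ) * (J + 1) + 20 * a ≤ n := by exact_mod_cast hn
  have hfew' := hfew n m a J hp
  have hdet : Pr (fun _ => (1/2:ℝ)) (RE 0 n 0 n)
      (fun F => (Ev n m a J F ∧ ∀ j ∈ range J, Hj a j F) ∧
        NT a J F ≤ K * (J * (a:ℝ) ^ (7/4:ℝ))) ≤
      Pr (fun _ => (1/2:ℝ)) (RE 0 n 0 n) (fun F => ∀ v, IsMax n (↑F) v →
      (per n (↑F) v : ℝ) ≤ K * (J * (a:ℝ) ^ (7/4:ℝ)) ∧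
      (∀ w, Reach (↑F : Set Edg) v w →
        inR (3 * a) (8 * a + a * (J + 1) + 5 * a) (3 * a) (14 * a) w) ∧
      ∃ c d : Vtx, Reach (↑F : Set Edg) v c ∧ Reach (↑F : Set Edg) v d ∧
        ((a:ℤ) * (J + 1)) ^ 2 ≤ dsq c d) := by
    refine Pr_mono hok ?_
    rintro F hF ⟨⟨h1, h2⟩, h3⟩ v hv
    obtain ⟨g1, g2, g3⟩ := det_low hp hF h1 h2 hv
    exact ⟨g1.trans h3, g2, g3⟩
  refine le_trans ?_ hdet
  refine le_trans ?_ hfew'
  have hTU : Tb a J ⊆ RE 0 n 0 n := RE_subset (by positivity) (by omega) (by positivity) (by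
    have : (0:ℤ) ≤ a * (J + 1) := by positivity
    omega)
  have hrect : ∀ j ∈ range J, RE (8 * a + a * j) (8 * a + a * (j + 2)) (8 * a) (9 * a) ⊆
      Tb a J := by
    intro j hj
    rw [Finset.mem_range] at hj
    have h1 : (a:ℤ) * (j + 2) ≤ a * (J + 1) := by
      apply mul_le_mul_of_nonneg_left _ (by omega)
      omega
    have h2 : (0:ℤ) ≤ a * j := by positivity
    exact RE_subset (by omega) (by omega) (by omega) (by omega)
  have hind : Pr (fun _ => (1/2:ℝ)) (RE 0 n 0 n)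
      (fun F => Ev n m a J F ∧ ∀ j ∈ range J, Hj a j F) =
      Pr (fun _ => (1/2:ℝ)) (RE 0 n 0 n) (Ev n m a J) *
      Pr (fun _ => (1/2:ℝ)) (RE 0 n 0 n) (fun F => ∀ j ∈ range J, Hj a j F) := by
    refine Pr_indep (S := RE 0 n 0 n \ Tb a J) (T := Tb a J) Finset.sdiff_subset hTU
      Finset.sdiff_disjoint (fun F hF => ev_local hF) ?_
    intro F _
    exact forall₂_congr fun j hj => hj_local (hrect j hj)
  rw [hind]
  have h1 := ev_pr hp
  have h2 : ((1 / 2 : ℝ) ^ 48) ^ J ≤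
      Pr (fun _ => (1/2:ℝ)) (RE 0 n 0 n) (fun F => ∀ j ∈ range J, Hj a j F) := by
    have f1 := fkg_incr hok (S := RE 0 n 0 n) (range J) (fun j F => Hj a j F)
      (fun j _ => hj_incr _ _ _)
    have f2 := (pow_card_le_prod (range J)
      (fun j => Pr (fun _ => (1/2:ℝ)) (RE 0 n 0 n) (fun F => Hj a j F))
      (show (0:ℝ) ≤ (1 / 2) ^ 48 by positivity)
      (fun j hj => hj_pr ha ((hrect j hj).trans hTU))).trans f1
    rw [Finset.card_range] at f2
    exact f2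
  have h3 := mul_le_mul h1 h2 (by positivity) (Pr_nonneg hok _ _)
  have h4 := mul_le_mul_of_nonneg_left h3 (show (0:ℝ) ≤ 1 / 2 by norm_num)
  refine le_trans ?_ h4
  unfold qs kN
  simp only [← pow_mul, ← pow_add]
  rw [show ((1:ℝ) / 2) * (1 / 2) ^ ((141 * (n / (3 * m)) + 47) * (n / (3 * m)) +
      (141 * (n / (3 * m)) + 47) * (n / (3 * m)) + 1316 * (J + 2) + 48 * J) =
      (1 / 2) ^ ((141 * (n / (3 * m)) + 47) * (n / (3 * m)) +
      (141 * (n / (3 * m)) + 47) * (n / (3 * m)) + 1316 * (J + 2) + 48 * J + 1) by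
    rw [pow_succ]; ring]
  apply pow_le_pow_of_le_one (by norm_num) (by norm_num)
  generalize n / (3 * m) = k
  nlinarith

end Pool.Agent.X135.PL
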