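import Pool.Agent.X135.PL.Low3

/-!
The lower bound with real parameters.
-/

set_option autoImplicit false

namespace Pool.Agent.X135.PL

open H974 Finset H342P Pool.Agent.Y244.PC

theorem tube_real {C0 : ℝ} (hC0 : 0 < C0) (hU : TwoUp C0 (1/4)) : ∃ c C : ℝ, 0 < c ∧ c ≤ 1 ∧
    0 < C ∧ ∀ (n : ℕ) (x y : ℝ), 0 < x → 0 < y → y ≤ c → 1 ≤ c * (y * n) →
    x * y ≤ c * (n:ℝ) ^ (3/4:ℝ) →
    Real.exp (-(C * (1 / y ^ 2 + x ^ (4/3:ℝ) * y ^ (7/3:ℝ)))) ≤
      Pr (fun _ => (1/2:ℝ)) (RE 0 n 0 n) (fun F => ∀ v, IsMax n (↑F) v →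
        (per n (↑F) v : ℝ) ≤ (n:ℝ) ^ (7/4:ℝ) / x ∧
        (∀ a b : Vtx, Reach (↑F : Set Edg) v a → Reach (↑F : Set Edg) v b →
          (dsq a b : ℝ) ≤ (4 * (y * n)) ^ 2) ∧
        ∃ a b : Vtx, Reach (↑F : Set Edg) v a ∧ Reach (↑F : Set Edg) v b ∧
          (y * n) ^ 2 ≤ (dsq a b : ℝ)) := by
  obtain ⟨d, K, hd0, hd1, hK, hlow⟩ := low_main hC0 hU
  -- `η`
  obtain ⟨η, hη⟩ : ∃ η : ℝ, η = min (1/48) ((1 / (2 * K)) ^ (4/3:ℝ)) := ⟨_, rfl⟩
  have hη0 : 0 < η := by rw [hη]; exact lt_min (by norm_num) (by positivity)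
  have hη1 : η ≤ 1/48 := by rw [hη]; exact min_le_left _ _
  have hηK : 2 * K * η ^ (3/4:ℝ) ≤ 1 := by
    have h1 : η ^ (3/4:ℝ) ≤ ((1 / (2 * K)) ^ (4/3:ℝ)) ^ (3/4:ℝ) :=
      Real.rpow_le_rpow hη0.le (by rw [hη]; exact min_le_right _ _) (by norm_num)
    rw [← Real.rpow_mul (by positivity)] at h1
    norm_num at h1
    calc 2 * K * η ^ (3/4:ℝ) ≤ 2 * K * (K⁻¹ * (1/2)) := by
          apply mul_le_mul_of_nonneg_left _ (by positivity)
          exact h1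
      _ = 1 := by field_simp
  obtain ⟨l, hl⟩ : ∃ l : ℝ, l = -Real.log d := ⟨_, rfl⟩
  have hl0 : 0 < l := by rw [hl]; have := Real.log_neg hd0 hd1; linarith
  obtain ⟨c, hc⟩ : ∃ c : ℝ, c = η / 4 := ⟨_, rfl⟩
  have hc0 : 0 < c := by rw [hc]; positivity
  have hc1 : c ≤ 1/192 := by rw [hc]; linarith
  refine ⟨c, l * (16 + 8 / η), hc0, by linarith, by positivity, ?_⟩
  intro n x y hx hy hyc hcn hxy
  obtain ⟨z, hz⟩ : ∃ z : ℝ, z = x ^ (4/3:ℝ) * y ^ (7/3:ℝ) := ⟨_, rfl⟩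
  have hz0 : 0 < z := by rw [hz]; positivity
  rw [← hz]
  have hn0 : (0:ℝ) < n := by
    rcases Nat.eq_zero_or_pos n with h | h
    · rw [h] at hcn
      norm_num at hcn
    · exact_mod_cast h
  obtain ⟨D, hD⟩ : ∃ D : ℝ, D = y * n := ⟨_, rfl⟩
  rw [← hD] at hcn ⊢
  have hD0 : 0 < D := by rw [hD]; positivity
  have hDc : 4 / η ≤ D := by
    rw [hc] at hcn
    rw [div_le_iff₀ hη0]
    linarith
  obtain ⟨Z, hZ⟩ : ∃ Z : ℝ, Z = max z 1 := ⟨_, rfl⟩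
  have hZ1 : 1 ≤ Z := by rw [hZ]; exact le_max_right _ _
  have hZz : z ≤ Z := by rw [hZ]; exact le_max_left _ _
  have hZ0 : 0 < Z := by linarith
  -- `4 z ≤ η D`
  have hzD : 4 * z ≤ η * D := by
    have h1 : (x * y) ^ (4/3:ℝ) ≤ (c * (n:ℝ) ^ (3/4:ℝ)) ^ (4/3:ℝ) :=
      Real.rpow_le_rpow (by positivity) hxy (by norm_num)
    rw [Real.mul_rpow hx.le hy.le, Real.mul_rpow hc0.le (by positivity),
      ← Real.rpow_mul hn0.le] at h1
    norm_num at h1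
    have h2 : c ^ (4/3:ℝ) ≤ c := by
      have h3 := Real.rpow_le_rpow_of_exponent_ge hc0 (by linarith : c ≤ 1)
        (show (1:ℝ) ≤ 4/3 by norm_num)
      rwa [Real.rpow_one] at h3
    have h3 : z = x ^ (4/3:ℝ) * y ^ (4/3:ℝ) * y := by
      rw [hz, show (7/3:ℝ) = 4/3 + 1 by norm_num, Real.rpow_add hy, Real.rpow_one]
      ring
    have h4 : z ≤ c * n * y := by
      rw [h3]
      apply mul_le_mul_of_nonneg_right _ hy.le
      refine h1.trans ?_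
      exact mul_le_mul_of_nonneg_right h2 hn0.le
    calc 4 * z ≤ 4 * (c * n * y) := by linarith
      _ = η * D := by rw [hc, hD]; ring
  have hZD : 4 * Z ≤ η * D := by
    rw [hZ]
    rcases max_choice z 1 with h | h
    · rw [h]; exact hzD
    · rw [h]
      rw [div_le_iff₀ hη0] at hDc
      linarith
  -- `a`
  obtain ⟨a, ha⟩ : ∃ a : ℕ, a = ⌊η * D / Z⌋₊ := ⟨_, rfl⟩
  have hT : 4 ≤ η * D / Z := by rw [le_div_iff₀ hZ0]; exact hZD
  have ha1 : (a:ℝ) ≤ η * D / Z := by rw [ha]; exact Nat.floor_le (by positivity)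
  have ha2 : η * D / Z < a + 1 := by rw [ha]; exact Nat.lt_floor_add_one _
  have ha3 : 3 ≤ a := by
    rw [ha]
    apply Nat.le_floor
    push_cast
    linarith
  have ha3r : (3:ℝ) ≤ a := by exact_mod_cast ha3
  have ha0 : (0:ℝ) < a := by linarith
  have haD : (a:ℝ) ≤ η * D := by
    refine ha1.trans (div_le_self (by positivity) hZ1)
  have haD48 : 48 * (a:ℝ) ≤ D := by nlinarith
  -- `J`
  obtain ⟨J, hJ⟩ : ∃ J : ℕ, J = ⌈D / a⌉₊ := ⟨_, rfl⟩
  have hJ1 : D / a ≤ J := by rw [hJ]; exact Nat.le_ceil _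
  have hJ2 : (J:ℝ) < D / a + 1 := by rw [hJ]; exact Nat.ceil_lt_add_one (by positivity)
  have hDa1 : 1 ≤ D / a := by rw [le_div_iff₀ ha0]; linarith
  have hJpos : 1 ≤ J := by
    have : (0:ℝ) < J := by linarith
    exact_mod_cast this
  have hJD : D ≤ a * J := by rwa [div_le_iff₀' ha0] at hJ1
  have hJD2 : (a:ℝ) * J ≤ D + a := by
    have h1 : (a:ℝ) * J < a * (D / a + 1) := mul_lt_mul_of_pos_left hJ2 ha0
    have h2 : (a:ℝ) * (D / a + 1) = D + a := by field_simp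
    linarith
  -- `m`
  obtain ⟨m, hm⟩ : ∃ m : ℕ, m = a * (J + 1) / 9 := ⟨_, rfl⟩
  have hm1 : 9 * m ≤ a * (J + 1) := by rw [hm]; exact Nat.mul_div_le _ _
  have hm2 : a * (J + 1) < 9 * m + 9 := by
    have := Nat.lt_mul_div_succ (a * (J + 1)) (show 0 < 9 by norm_num)
    rw [← hm] at this
    linarith
  have hm2r : (a:ℝ) * (J + 1) < 9 * m + 9 := by exact_mod_cast hm2
  have hD192 : 192 ≤ D := by
    refine le_trans ?_ hDc
    rw [le_div_iff₀ hη0]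
    linarith
  have hmD : D / 10 ≤ m := by
    have : (a:ℝ) * (J + 1) = a * J + a := by ring
    linarith
  have hp : Pm n m a J := by
    refine ⟨ha3, hJpos, ?_, hm1, ?_⟩
    · have : (4:ℝ) * a < 3 * m := by linarith
      exact_mod_cast this
    · have h1 : (a:ℝ) * (J + 1) + 20 * a ≤ n := by
        have h2 : D ≤ n / 192 := by
          rw [hD]
          have : y * n ≤ (1/192) * n := mul_le_mul_of_nonneg_right (hyc.trans hc1) hn0.le
          linarith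
        have h3 : (a:ℝ) * (J + 1) = a * J + a := by ring
        linarith
      exact_mod_cast h1
  have hmain := hlow n m a J hp
  -- the event
  have hperK : K * (J * (a:ℝ) ^ (7/4:ℝ)) ≤ (n:ℝ) ^ (7/4:ℝ) / x := by
    have h1 : (J:ℝ) * (a:ℝ) ^ (7/4:ℝ) = (a * J) * (a:ℝ) ^ (3/4:ℝ) := by
      rw [show (7/4:ℝ) = 1 + 3/4 by norm_num, Real.rpow_add ha0, Real.rpow_one]
      ring
    have h2 : (a:ℝ) ^ (3/4:ℝ) ≤ η ^ (3/4:ℝ) * (D ^ (3/4:ℝ) / z ^ (3/4:ℝ)) := by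
      have h3 : (a:ℝ) ≤ η * (D / z) := by
        refine ha1.trans ?_
        rw [← mul_div_assoc]
        exact div_le_div_of_nonneg_left (by positivity) hz0 hZz
      rw [← Real.div_rpow hD0.le hz0.le, ← Real.mul_rpow hη0.le (by positivity)]
      exact Real.rpow_le_rpow ha0.le h3 (by norm_num)
    have h3 : (a:ℝ) * J ≤ 2 * D := by linarith
    have hz34 : z ^ (3/4:ℝ) = x * y ^ (7/4:ℝ) := by
      rw [hz, Real.mul_rpow (by positivity) (by positivity), ← Real.rpow_mul hx.le,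
        ← Real.rpow_mul hy.le]
      norm_num
    have h4 : D * (D ^ (3/4:ℝ) / z ^ (3/4:ℝ)) = (n:ℝ) ^ (7/4:ℝ) / x := by
      have h5 : D * D ^ (3/4:ℝ) = D ^ (7/4:ℝ) := by
        rw [show (7/4:ℝ) = 1 + 3/4 by norm_num, Real.rpow_add hD0, Real.rpow_one]
      rw [mul_div_assoc', h5, hz34, hD, Real.mul_rpow hy.le hn0.le]
      have : 0 < y ^ (7/4:ℝ) := by positivity
      field_simp
    calc K * (J * (a:ℝ) ^ (7/4:ℝ)) = K * ((a * J) * (a:ℝ) ^ (3/4:ℝ)) := by rw [h1]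
      _ ≤ K * ((2 * D) * (η ^ (3/4:ℝ) * (D ^ (3/4:ℝ) / z ^ (3/4:ℝ)))) := by gcongr
      _ = (2 * K * η ^ (3/4:ℝ)) * (D * (D ^ (3/4:ℝ) / z ^ (3/4:ℝ))) := by ring
      _ ≤ 1 * (D * (D ^ (3/4:ℝ) / z ^ (3/4:ℝ))) := by
          apply mul_le_mul_of_nonneg_right hηK (by positivity)
      _ = _ := by rw [one_mul, h4]
  have hdet : Pr (fun _ => (1/2:ℝ)) (RE 0 n 0 n) (fun F => ∀ v, IsMax n (↑F) v →
      (per n (↑F) v : ℝ) ≤ K * (J * (a:ℝ) ^ (7/4:ℝ)) ∧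
      (∀ w, Reach (↑F : Set Edg) v w →
        inR (3 * a) (8 * a + a * (J + 1) + 5 * a) (3 * a) (14 * a) w) ∧
      ∃ c d : Vtx, Reach (↑F : Set Edg) v c ∧ Reach (↑F : Set Edg) v d ∧
        ((a:ℤ) * (J + 1)) ^ 2 ≤ dsq c d) ≤
      Pr (fun _ => (1/2:ℝ)) (RE 0 n 0 n) (fun F => ∀ v, IsMax n (↑F) v →
        (per n (↑F) v : ℝ) ≤ (n:ℝ) ^ (7/4:ℝ) / x ∧
        (∀ a b : Vtx, Reach (↑F : Set Edg) v a → Reach (↑F : Set Edg) v b →
          (dsq a b : ℝ) ≤ (4 * D) ^ 2) ∧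
        ∃ a b : Vtx, Reach (↑F : Set Edg) v a ∧ Reach (↑F : Set Edg) v b ∧
          D ^ 2 ≤ (dsq a b : ℝ)) := by
    refine Pr_mono hok ?_
    intro F _ hF v hv
    obtain ⟨g1, g2, p, q, g3, g4, g5⟩ := hF v hv
    refine ⟨g1.trans hperK, ?_, p, q, g3, g4, ?_⟩
    · intro u w hu hw
      have k1 := g2 u hu
      have k2 := g2 w hw
      unfold inR at k1 k2
      obtain ⟨⟨k1a, k1b⟩, k1c, k1d⟩ := k1
      obtain ⟨⟨k2a, k2b⟩, k2c, k2d⟩ := k2
      have e1 : |(u.1 : ℝ) - w.1| ≤ a * J + 11 * a := by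
        rw [abs_le]
        have a1 : (3 * (a:ℝ)) ≤ u.1 := by exact_mod_cast k1a
        have a2 : (u.1:ℝ) ≤ 8 * a + a * (J + 1) + 5 * a := by exact_mod_cast k1b
        have a3 : (3 * (a:ℝ)) ≤ w.1 := by exact_mod_cast k2a
        have a4 : (w.1:ℝ) ≤ 8 * a + a * (J + 1) + 5 * a := by exact_mod_cast k2b
        constructor <;> nlinarith
      have e2 : |(u.2 : ℝ) - w.2| ≤ 11 * a := by
        rw [abs_le]
        have a1 : (3 * (a:ℝ)) ≤ u.2 := by exact_mod_cast k1c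
        have a2 : (u.2:ℝ) ≤ 14 * a := by exact_mod_cast k1d
        have a3 : (3 * (a:ℝ)) ≤ w.2 := by exact_mod_cast k2c
        have a4 : (w.2:ℝ) ≤ 14 * a := by exact_mod_cast k2d
        constructor <;> linarith
      have e3 : |(u.1 : ℝ) - w.1| ≤ 2 * D := by linarith
      have e4 : |(u.2 : ℝ) - w.2| ≤ D := by linarith
      have e5 : ((u.1 : ℝ) - w.1) ^ 2 ≤ (2 * D) ^ 2 := by
        rw [← sq_abs ((u.1:ℝ) - w.1)]
        exact pow_le_pow_left₀ (abs_nonneg _) e3 2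
      have e6 : ((u.2 : ℝ) - w.2) ^ 2 ≤ D ^ 2 := by
        rw [← sq_abs ((u.2:ℝ) - w.2)]
        exact pow_le_pow_left₀ (abs_nonneg _) e4 2
      unfold dsq
      push_cast
      nlinarith
    · have h1 : (((a:ℝ)) * (J + 1)) ^ 2 ≤ (dsq p q : ℝ) := by exact_mod_cast g5
      refine le_trans ?_ h1
      apply pow_le_pow_left₀ hD0.le
      have : (a:ℝ) * (J + 1) = a * J + a := by ring
      linarith
  refine le_trans ?_ (hmain.trans hdet)
  -- the exponent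
  have he : d ^ ((n / (3 * m) + 1) ^ 2 + J) =
      Real.exp (-(l * (((n / (3 * m) + 1) ^ 2 + J : ℕ) : ℝ))) := by
    rw [hl, neg_mul, neg_neg, mul_comm (Real.log d), Real.exp_nat_mul, Real.exp_log hd0]
  rw [he]
  apply Real.exp_le_exp.mpr
  have hm0 : (0:ℝ) < m := by linarith
  have hq : (((n / (3 * m) : ℕ) : ℝ)) ≤ 10 / (3 * y) := by
    have h1 : (((n / (3 * m) : ℕ) : ℝ)) ≤ (n:ℝ) / ((3 * m : ℕ) : ℝ) := Nat.cast_div_le
    refine h1.trans ?_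
    push_cast
    rw [div_le_div_iff₀ (by positivity) (by positivity)]
    have h2 : n * (3 * y) = 3 * D := by rw [hD]; ring
    rw [h2]
    linarith
  have hy4 : 1 ≤ (1/4) * (1 / y) := by
    have h1 : 192 ≤ 1 / y := by
      rw [le_div_iff₀ hy]
      linarith
    linarith
  have hq2 : (((n / (3 * m) : ℕ) : ℝ) + 1) ^ 2 ≤ 16 * (1 / y ^ 2) := by
    have h1 : ((n / (3 * m) : ℕ) : ℝ) + 1 ≤ 4 * (1 / y) := by
      have h2 : 10 / (3 * y) = (10/3) * (1 / y) := by field_simp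
      rw [h2] at hq
      have : 0 < 1 / y := by positivity
      linarith
    have h2 := pow_le_pow_left₀ (by positivity) h1 2
    refine h2.trans (le_of_eq ?_)
    field_simp
    norm_num
  have hJz : (J:ℝ) ≤ 8 / η * (1 / y ^ 2 + z) := by
    have h1 : η * D / Z ≤ 2 * a := by linarith
    have h2 : (J:ℝ) ≤ 2 * (D / a) := by linarith
    have h3 : D / a ≤ 2 * Z / η := by
      rw [div_le_div_iff₀ ha0 hη0]
      rw [div_le_iff₀ hZ0] at h1
      linarith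
    have h4 : Z ≤ z + 1 := by rw [hZ]; exact max_le (by linarith) (by linarith)
    have h5 : 1 ≤ 1 / y ^ 2 := by
      rw [le_div_iff₀ (by positivity)]
      nlinarith
    calc (J:ℝ) ≤ 2 * (2 * Z / η) := by linarith
      _ = 4 / η * Z := by ring
      _ ≤ 4 / η * (1 / y ^ 2 + z) := by gcongr; linarith
      _ ≤ 8 / η * (1 / y ^ 2 + z) := by
          apply mul_le_mul_of_nonneg_right _ (by positivity)
          exact div_le_div_of_nonneg_right (by norm_num) hη0.le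
  push_cast
  have h6 : (((n / (3 * m) : ℕ) : ℝ) + 1) ^ 2 + J ≤ (16 + 8 / η) * (1 / y ^ 2 + z) := by
    have h7 : 0 < 1 / y ^ 2 := by positivity
    have h8 : (16 + 8 / η) * (1 / y ^ 2 + z) = 16 * (1 / y ^ 2) + 16 * z +
        8 / η * (1 / y ^ 2 + z) := by ring
    rw [h8]
    linarith
  have h9 := mul_le_mul_of_nonneg_left h6 hl0.le
  linarith

end Pool.Agent.X135.PL
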