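import Pool.Agent.Y991.ME.BadPr
import Pool.Agent.Y884.ME.Fast
import Pool.Agent.Y655.ME.Slow
import Pool.Agent.H984R3.Per.PerBig

/-!
Slow interfaces in the box `{0, …, n}²` (free boundary conditions): deterministic part.
-/

set_option autoImplicit false

namespace Pool.Agent.X135.PL

open H974 Finset H342P H984P H984N Pool.Agent.Y985.ME Pool.Agent.Y884.ME

/-- the box as a rectangle -/
def Dn (n : ℕ) : Dm := ⟨0, n, n, 0⟩

theorem Dn_edges (n : ℕ) : (Dn n).edges = RE 0 n 0 n := rfl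

/-- the bad event of a block, free boundary conditions -/
def BadX (M : ℕ) (R L w W : ℤ) (n : ℕ) (q : Vtx) (F : Finset Edg) : Prop :=
  BadB M R L W (Dn n) q F ∨ BadP L w W (Dn n) q F

theorem badX_local {M : ℕ} {R L w W : ℤ} (hp : Par R L w W) (n : ℕ) (q : Vtx) (F : Finset Edg) :
    BadX M R L w W n q F ↔ BadX M R L w W n q (F ∩ Lam (Dn n) W q) := by
  have hWL : 3 * L ≤ W := by
    have := hp.hR
    have := hp.hRL
    have := hp.hw
    have := hp.hWw
    omega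
  unfold BadX
  refine or_congr ?_ ?_
  · unfold BadB
    constructor
    · rintro ⟨p, p', h1, h2, h3, h4, h⟩
      exact ⟨p, p', h1, h2, h3, h4, (Pool.Agent.Y991.ME.bulk_sq_inter
        (Pool.Agent.Y991.ME.sq_sub hWL h1 h2 h3 h4)).mp h⟩
    · rintro ⟨p, p', h1, h2, h3, h4, h⟩
      exact ⟨p, p', h1, h2, h3, h4, (Pool.Agent.Y991.ME.bulk_sq_inter
        (Pool.Agent.Y991.ME.sq_sub hWL h1 h2 h3 h4)).mpr h⟩
  · unfold BadP
    rw [inter_assoc, inter_self]

theorem orb_step (F : Set Edg) (σ : St) (s : ℕ) :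
    sd (orb F σ s).1 (orb F σ (s + 1)).1 ≤ 1 := by
  rw [orb_succ]
  have h := nxt_fst F (orb F σ s)
  unfold sd
  rw [abs_sub_comm, abs_sub_comm (orb F σ s).1.2]
  exact max_le h.1 h.2

theorem orb_shift (F : Set Edg) (σ : St) (k t : ℕ) :
    orb F σ (k + t) = orb F (orb F σ k) t := by
  rw [add_comm, orb_add]

/-- A fast piece of an interface in the bulk is a fast piece in a square. -/
theorem bulk_loc {n : ℕ} {R L : ℤ} {M : ℕ} (hR : 1 ≤ R) (hRL : 3 * R ≤ L)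
    {F : Finset Edg} {σ : St} {t : ℕ}
    (hfar : Far σ.1 R (orb (↑F) σ t).1) (htM : t < M) :
    bulk_sq M R L (L * (σ.1.1 / L) - 2 * L) (L * (σ.1.2 / L) - 2 * L) F := by
  classical
  have hL : 0 < L := by omega
  have q1 : L * (σ.1.1 / L) ≤ σ.1.1 := Int.mul_ediv_self_le hL.ne'
  have q2 : σ.1.1 < L * (σ.1.1 / L) + L := Int.lt_mul_ediv_self_add hL
  have q3 : L * (σ.1.2 / L) ≤ σ.1.2 := Int.mul_ediv_self_le hL.ne'
  have q4 : σ.1.2 < L * (σ.1.2 / L) + L := Int.lt_mul_ediv_self_add hL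
  set v := σ.1 with hv
  set b := L * (v.1 / L) - 2 * L with hb
  set c := L * (v.2 / L) - 2 * L with hc
  have hex : ∃ t, Far v R (orb (↑F : Set Edg) σ t).1 := ⟨t, hfar⟩
  have ht0 : Nat.find hex ≤ t := Nat.find_min' hex hfar
  have hcong : orb (↑(F ∩ RE b (b + 4 * L) c (c + 4 * L)) : Set Edg) σ
      (Nat.find hex) = orb (↑F : Set Edg) σ (Nat.find hex) := by
    refine orb_congr (T := Nat.find hex) ?_ le_rfl
    intro e he
    rw [mem_Exm] at he
    obtain ⟨s, hs, rfl⟩ := he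
    have hnf := Nat.find_min hex hs
    generalize orb (↑F : Set Edg) σ s = w at hnf ⊢
    unfold Far at hnf
    push Not at hnf
    have hin : ae w ∈ RE b (b + 4 * L) c (c + 4 * L) := by
      obtain ⟨⟨x, y⟩, q⟩ := w
      cases q
      · rw [ae_ne, mem_RE_true]; simp only at hnf; omega
      · rw [ae_nw, mem_RE_false]; simp only at hnf; omega
      · rw [ae_sw, mem_RE_true]; simp only at hnf; omega
      · rw [ae_se, mem_RE_false]; simp only at hnf; omega
    rw [Finset.coe_inter]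
    constructor
    · intro h
      exact ⟨h, hin⟩
    · rintro ⟨h, -⟩
      exact h
  refine ⟨σ, Nat.find hex, ?_, ?_, by omega⟩
  · unfold inR
    rw [← hv]
    omega
  · rw [hcong, ← hv]
    exact Nat.find_spec hex

/-- A fast piece with a vertex in the bulk. -/
theorem bad_bulk {n : ℕ} {W R L : ℤ} {M : ℕ} (hR : 1 ≤ R) (hRL : 3 * R ≤ L) {q : Vtx}
    {F : Finset Edg} {σ : St} {t : ℕ} (htM : t < M)
    (hin : q.1 * W - W ≤ σ.1.1 ∧ σ.1.1 < q.1 * W + 2 * W ∧
      q.2 * W - W ≤ σ.1.2 ∧ σ.1.2 < q.2 * W + 2 * W)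
    (hbd : 4 * L ≤ (Dn n).bd σ.1) (hf : R ≤ sd σ.1 (orb (↑F) σ t).1) :
    BadB M R L W (Dn n) q F := by
  have hL : 0 < L := by omega
  have hb := bulk_loc (n := n) (M := M) hR hRL (det_far hf) htM
  have q1 : L * (σ.1.1 / L) ≤ σ.1.1 := Int.mul_ediv_self_le hL.ne'
  have q2 : σ.1.1 < L * (σ.1.1 / L) + L := Int.lt_mul_ediv_self_add hL
  have q3 : L * (σ.1.2 / L) ≤ σ.1.2 := Int.mul_ediv_self_le hL.ne'
  have q4 : σ.1.2 < L * (σ.1.2 / L) + L := Int.lt_mul_ediv_self_add hL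
  unfold Dm.bd at hbd
  rw [le_min_iff, le_min_iff, le_min_iff] at hbd
  obtain ⟨⟨b1, b2⟩, b3, b4⟩ := hbd
  obtain ⟨x1, x2, x3, x4⟩ := hin
  refine ⟨σ.1.1 / L, σ.1.2 / L, ⟨?_, ?_⟩, ⟨?_, ?_⟩, ⟨?_, ?_⟩, ⟨?_, ?_⟩, hb⟩ <;>
    linarith

/-- A piece near the boundary. -/
theorem bad_bdry {n : ℕ} {W L w : ℤ} (hwW : w ≤ W) {q : Vtx}
    {F : Finset Edg} {σ : St} (hbox : ∀ s, inR 0 n 0 n (orb (↑F) σ s).1) {k l : ℕ} (hkl : k ≤ l)
    (hin : ∀ s, k ≤ s → s ≤ l → (q.1 * W - W ≤ (orb (↑F) σ s).1.1 ∧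
      (orb (↑F) σ s).1.1 < q.1 * W + 2 * W ∧ q.2 * W - W ≤ (orb (↑F) σ s).1.2 ∧
      (orb (↑F) σ s).1.2 < q.2 * W + 2 * W) ∧ (Dn n).bd (orb (↑F) σ s).1 < 5 * L)
    (hW0 : 0 ≤ W)
    (hd : W ≤ sd (orb (↑F) σ k).1 (orb (↑F) σ l).1) : BadP L w W (Dn n) q F := by
  refine ⟨(orb (↑F) σ k).1, (orb (↑F) σ l).1, hwW.trans hd, ?_⟩
  have hreach : ∀ m, k + m ≤ l →
      Reach (↑(F ∩ Lam (Dn n) W q) ∩ Lay (Dn n) W (5 * L + 2) q : Set Edg)
      (orb (↑F) σ k).1 (orb (↑F) σ (k + m)).1 := by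
    intro m
    induction m with
    | zero => intro _; exact Reach.refl _ _
    | succ m ih =>
      intro hm
      have ih' := ih (by omega)
      have hsucc : orb (↑F : Set Edg) σ (k + (m + 1)) = nxt (↑F) (orb (↑F) σ (k + m)) :=
        orb_succ _ _ _
      by_cases hop : ae (orb (↑F : Set Edg) σ (k + m)) ∈ (↑F : Set Edg)
      · have hnx : orb (↑F : Set Edg) σ (k + (m + 1)) = mv (orb (↑F) σ (k + m)) := by
          rw [hsucc, nxt_open hop]
        have hb1 := hin (k + m) (by omega) (by omega)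
        have hb2 := hin (k + (m + 1)) (by omega) (by omega)
        have hc1 := hbox (k + m)
        have hc2 := hbox (k + (m + 1))
        rw [hnx] at hb2 hc2
        have hends := p2_ends (orb (↑F : Set Edg) σ (k + m))
        have hQ : ∀ v : Vtx, v = (orb (↑F : Set Edg) σ (k + m)).1 ∨
            v = (mv (orb (↑F : Set Edg) σ (k + m))).1 →
            inR (max (Dn n).l (q.1 * W - 2 * W)) (min (Dn n).r (q.1 * W + 3 * W))
              (max 0 (q.2 * W - 2 * W)) (min (Dn n).h (q.2 * W + 3 * W)) v ∧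
            bdr (max (Dn n).l (q.1 * W - 2 * W)) (min (Dn n).r (q.1 * W + 3 * W))
              (max 0 (q.2 * W - 2 * W)) (min (Dn n).h (q.2 * W + 3 * W)) v < 5 * L + 2 := by
          intro v hv
          rcases hv with rfl | rfl
          · obtain ⟨⟨t1, t2, t3, t4⟩, t5⟩ := hb1
            exact Pool.Agent.Y655.ME.in_loc (D := Dn n) hc1 (by omega) (by omega) (by omega)
              (by omega) (by omega)
          · obtain ⟨⟨t1, t2, t3, t4⟩, t5⟩ := hb2
            exact Pool.Agent.Y655.ME.in_loc (D := Dn n) hc2 (by omega) (by omega) (by omega)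
              (by omega) (by omega)
        have q1 := hQ (src (ae (orb (↑F : Set Edg) σ (k + m)))) (by
          rcases hends with ⟨t1, t2⟩ | ⟨t1, t2⟩
          · exact Or.inl t1
          · exact Or.inr t1)
        have q2 := hQ (tgt (ae (orb (↑F : Set Edg) σ (k + m)))) (by
          rcases hends with ⟨t1, t2⟩ | ⟨t1, t2⟩
          · exact Or.inr t2
          · exact Or.inl t2)
        refine ih'.trans (Adj.reach ⟨ae (orb (↑F : Set Edg) σ (k + m)), ⟨?_, q1.2, q2.2⟩, ?_⟩)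
        · rw [Finset.coe_inter]
          exact ⟨hop, Pool.Agent.Y655.ME.mem_RE_ends q1.1 q2.1⟩
        · rw [hnx]
          exact hends
      · rw [hsucc, nxt_closed hop, p2_rt_fst]
        exact ih'
  have h1 := hreach (l - k) (by omega)
  rwa [show k + (l - k) = l by omega] at h1

/-- Near a block which is not bad the interface is slow. -/
theorem slow {n : ℕ} {M : ℕ} {R L w W : ℤ} {q : Vtx} {F : Finset Edg} (hPar : Par R L w W)
    (hB : ¬ BadX M R L w W n q F) {σ : St} (hbox : ∀ s, inR 0 n 0 n (orb (↑F) σ s).1)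
    (k l : ℕ) (hkl : k ≤ l) (hin : ∀ t, k ≤ t → t ≤ l → sd (blk W (orb (↑F) σ t).1) q ≤ 1)
    (hd : W ≤ sd (orb (↑F) σ k).1 (orb (↑F) σ l).1) : M ≤ l - k := by
  obtain ⟨hR, hRL, hw, hWw⟩ := hPar
  by_contra hM
  have hM' : l - k < M := by omega
  apply hB
  have hW1 : 1 ≤ W := by omega
  have hin' := fun s h1 h2 => Pool.Agent.Y655.ME.near_blk hW1 (hin s h1 h2)
  have hsh : ∀ i j : ℕ, i ≤ j → orb (↑F : Set Edg) (orb (↑F) σ i) (j - i) = orb (↑F) σ j := by
    intro i j hij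
    rw [← orb_shift, Nat.add_sub_cancel' hij]
  by_cases hbulk : ∃ m, k ≤ m ∧ m ≤ l ∧ 5 * L ≤ (Dn n).bd (orb (↑F) σ m).1
  · left
    obtain ⟨m, hkm, hml, hy⟩ := hbulk
    have htri := det_sd_tri (orb (↑F) σ k).1 (orb (↑F) σ m).1 (orb (↑F) σ l).1
    by_cases hf : R ≤ sd (orb (↑F) σ m).1 (orb (↑F) σ l).1
    · refine bad_bulk hR hRL (t := l - m) (by omega) (hin' m hkm hml) (by omega) ?_
      rw [hsh m l hml]
      exact hf
    · have h5 : R ≤ sd (orb (↑F) σ m).1 (orb (↑F) σ k).1 := by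
        rw [det_sd_comm]
        omega
      obtain ⟨i, hki, him, hRi, hs⟩ := det_last (fun s => (orb (↑F : Set Edg) σ s).1)
        (fun s => orb_step (↑F) σ s) hkm h5
      have h6 := hs i le_rfl him
      have h7 := det_bd_lip (Dn n) (orb (↑F) σ m).1 (orb (↑F) σ i).1
      refine bad_bulk hR hRL (t := m - i) (by omega) (hin' i hki (by omega)) ?_ ?_
      · omega
      · rw [hsh i m him, det_sd_comm]
        exact hRi
  · right
    push Not at hbulk
    exact bad_bdry (by omega) hbox hkl (fun s t1 t2 => ⟨hin' s t1 t2, hbulk s t1 t2⟩) (by omega) hd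

open Classical in
/-- A sequence spends a long time near a block which is visited and not bad. -/
theorem good_time {W : ℤ} (hW : 1 ≤ W) {x : ℕ → Vtx} (hxs : ∀ s, sd (x s) (x (s + 1)) ≤ 1)
    {q : Vtx} {M N : ℕ}
    (hgood : ∀ k l : ℕ, k ≤ l → l ≤ N → (∀ t, k ≤ t → t ≤ l → sd (blk W (x t)) q ≤ 1) →
      W ≤ sd (x k) (x l) → M ≤ l - k)
    (hd : 2 * W ≤ sd (x 0) (x N)) {τ : ℕ} (hτ : τ ≤ N) (hq : blk W (x τ) = q) :
    M ≤ ((range (N + 1)).filter (fun t => sd (blk W (x t)) q ≤ 1)).card := by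
  -- the interval
  have main : ∀ s e : ℕ, s ≤ e → e ≤ N → W ≤ sd (x s) (x e) →
      (∀ t, s ≤ t → t ≤ e → sd (x τ) (x t) ≤ W) →
      M ≤ ((range (N + 1)).filter (fun t => sd (blk W (x t)) q ≤ 1)).card := by
    intro s e hse heN hse2 hnear
    have hb : ∀ t, s ≤ t → t ≤ e → sd (blk W (x t)) q ≤ 1 := by
      intro t t1 t2
      rw [← hq, det_sd_comm]
      exact blk_step hW (hnear t t1 t2)
    have h5 : M ≤ e - s := hgood s e hse heN hb hse2
    have h6 : Finset.Icc s e ⊆ (range (N + 1)).filter (fun t => sd (blk W (x t)) q ≤ 1) := by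
      intro t ht
      rw [mem_Icc] at ht
      rw [mem_filter, mem_range]
      exact ⟨by omega, hb t ht.1 ht.2⟩
    have h7 := card_le_card h6
    rw [Nat.card_Icc] at h7
    omega
  have htri := det_sd_tri (x 0) (x τ) (x N)
  have hcm := det_sd_comm (x 0) (x τ)
  by_cases hf : W ≤ sd (x τ) (x N)
  · obtain ⟨i, e1, e2, e3, e4⟩ := det_first x hxs hτ hf
    refine main τ i e1 e2 e3 (fun t t1 t2 => ?_)
    have := e4 t t1 t2
    omega
  · have hf' : W ≤ sd (x τ) (x 0) := by omega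
    obtain ⟨i, e1, e2, e3, e4⟩ := det_last x hxs (Nat.zero_le τ) hf'
    refine main i τ e2 hτ (by rw [det_sd_comm]; exact e3) (fun t t1 t2 => ?_)
    have := e4 t t1 t2
    omega

open Classical in
/-- If the sequence is fast then many blocks of a chain are bad. -/
theorem chain_sub {D : Dm} {W : ℤ} (hW : 1 ≤ W) {x : ℕ → Vtx}
    (hxs : ∀ s, sd (x s) (x (s + 1)) ≤ 1) {Bd : Vtx → Prop} {M N : ℕ}
    (hin : ∀ t, blk W (x t) ∈ Bks D W)
    (hgood : ∀ q, ¬ Bd q → ∀ k l : ℕ, k ≤ l → l ≤ N →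
      (∀ t, k ≤ t → t ≤ l → sd (blk W (x t)) q ≤ 1) → W ≤ sd (x k) (x l) → M ≤ l - k)
    {k : ℕ} (hk : 2 ≤ k) (hd : k * W ≤ sd (x 0) (x N))
    (hM : 98 * (N + 1) < (k + 1) * M) :
    ∃ b ∈ Bks D W, ∃ Q ∈ AS k b, Q.card = k + 1 ∧ ∃ B ∈ Q.powerset,
      (B ⊆ Bks D W ∧ (∀ q ∈ B, ∀ r ∈ B, cls q = cls r) ∧ k + 1 ≤ 98 * B.card) ∧
      ∀ q ∈ B, Bd q := by
  have hβ : ∀ r, sd (blk W (x r)) (blk W (x (r + 1))) ≤ 1 :=
    fun r => blk_step hW ((hxs r).trans hW)
  have hd2 : 2 * W ≤ sd (x 0) (x N) := by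
    have : (2 : ℤ) * W ≤ k * W := mul_le_mul_of_nonneg_right (by exact_mod_cast hk) (by omega)
    omega
  obtain ⟨Q, hQ, hQc, hQv⟩ := chain (β := fun r => blk W (x r)) hβ N k 0
    (Nat.zero_le _) (blk_far hW hd)
  have hinQ : ∀ q ∈ Q, q ∈ Bks D W := by
    intro q hq
    obtain ⟨τ, -, -, h1⟩ := hQv q hq
    rw [← h1]
    exact hin τ
  refine ⟨blk W (x 0), hin 0, Q, hQ, hQc, ?_⟩
  obtain ⟨c, hc⟩ := pigeon (Q := Q) (k := k + 1) hQc.ge
  obtain ⟨Qc, hQcd⟩ : ∃ Qc, Qc = Q.filter (fun q => cls q = c) := ⟨_, rfl⟩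
  have hc' : k + 1 ≤ 49 * Qc.card := by rw [hQcd]; exact hc
  have hcl : ∀ q ∈ Qc, cls q = c := by
    intro q hq
    rw [hQcd, mem_filter] at hq
    exact hq.2
  have hsub : Qc ⊆ Q := by rw [hQcd]; exact filter_subset _ _
  refine ⟨Qc.filter (fun q => Bd q), ?_, ⟨?_, ?_, ?_⟩, ?_⟩
  · rw [mem_powerset]
    exact (filter_subset _ _).trans hsub
  · intro q hq
    rw [mem_filter] at hq
    exact hinQ q (hsub hq.1)
  · intro q hq r hr
    rw [mem_filter] at hq hr
    rw [hcl q hq.1, hcl r hr.1]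
  · have hsplit := card_filter_add_card_filter_not (s := Qc) (fun q => Bd q)
    have hct := count_times (β := fun r => blk W (x r)) (n := N) (M := M)
      (G := Qc.filter (fun q => ¬ Bd q)) (by
        intro q hq r hr
        rw [mem_filter] at hq hr
        rw [hcl q hq.1, hcl r hr.1]) (by
        intro q hq
        rw [mem_filter] at hq
        obtain ⟨τ, -, hτ, hτq⟩ := hQv q (hsub hq.1)
        exact good_time hW hxs (hgood q hq.2) hd2 hτ hτq)
    by_contra hcon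
    push Not at hcon
    set g := (Qc.filter (fun q => ¬ Bd q)).card with hg
    set b := (Qc.filter (fun q => Bd q)).card with hb
    have h1 : k + 1 ≤ 98 * g := by omega
    have h2 : (k + 1) * M ≤ 98 * g * M := Nat.mul_le_mul_right M h1
    have h3 : 98 * g * M = 98 * (g * M) := by ring
    omega
  · intro q hq
    rw [mem_filter] at hq
    exact hq.2

/-- The event that an interface is fast: from some state in the box the interface moves by at
least `y` in at most `N` steps. -/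
def FastO (n : ℕ) (y : ℤ) (N : ℕ) (F : Finset Edg) : Prop :=
  ∃ σ : St, (∀ s, inR 0 n 0 n (orb (↑F) σ s).1) ∧ ∃ t ≤ N, y ≤ sd σ.1 (orb (↑F) σ t).1

theorem Pr_one_le {S : Finset Edg} (A : Finset Edg → Prop) : P S A ≤ 1 := Pr_le_one half_ok _ _

/-- The chain bound. -/
theorem fastO_pr {n : ℕ} {M : ℕ} {R L w W : ℤ} (hPar : Par R L w W)
    (hbad : ∀ q ∈ Bks (Dn n) W, P (RE 0 n 0 n) (BadX M R L w W n q) ≤ (1/36) ^ 98)
    {y : ℤ} {N k : ℕ} (hk : 2 ≤ k) (hy : k * W ≤ y) (hM : 98 * (N + 1) < (k + 1) * M) :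
    P (RE 0 n 0 n) (FastO n y N) ≤ (Bks (Dn n) W).card * (1/2) ^ (k + 1) := by
  classical
  have hW1 : 1 ≤ W := by
    have := hPar.hR
    have := hPar.hRL
    have := hPar.hw
    have := hPar.hWw
    omega
  have hsub : ∀ F, F ⊆ (Dn n).edges → FastO n y N F →
      ∃ b ∈ Bks (Dn n) W, ∃ Q ∈ AS k b, Q.card = k + 1 ∧ ∃ B ∈ Q.powerset,
      (B ⊆ Bks (Dn n) W ∧ (∀ q ∈ B, ∀ r ∈ B, cls q = cls r) ∧ k + 1 ≤ 98 * B.card) ∧
      ∀ q ∈ B, BadX M R L w W n q F := by
    rintro F _ ⟨σ, hbox, t, ht, hyt⟩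
    refine chain_sub (D := Dn n) (x := fun s => (orb (↑F : Set Edg) σ s).1)
      (Bd := fun q => BadX M R L w W n q F) (M := M) (N := t) hW1
      (fun s => orb_step (↑F) σ s) (fun s => blk_mem hW1 (hbox s)) ?_ hk (hy.trans hyt) ?_
    · intro q hq k' l' h1 _ h3 h4
      exact slow hPar hq hbox k' l' h1 h3 h4
    · omega
  exact (Pr_mono half_ok hsub).trans (chain_pr (D := Dn n) hW1
    (fun q F => badX_local hPar n q F) hbad)

end Pool.Agent.X135.PL
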